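import Mathlib

/-! Small calculus lemmas. -/

namespace Pool.Agent.Lib.MP_03314f_an

open Set Filter Topology

theorem le_of_deriv_nonneg {u u' : ℝ → ℝ} {α β : ℝ} (h : α ≤ β) (hc : ContinuousOn u (Icc α β))
    (hd : ∀ x ∈ Ioo α β, HasDerivAt u (u' x) x) (hp : ∀ x ∈ Ioo α β, 0 ≤ u' x) : u α ≤ u β := by
  rcases eq_or_lt_of_le h with rfl | h
  · exact le_rfl
  obtain ⟨x, hx, e⟩ := exists_hasDerivAt_eq_slope u u' h hc hd
  have := hp x hx
  rw [e, le_div_iff₀ (sub_pos.2 h)] at this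
  linarith

theorem lt_of_deriv_pos {u u' : ℝ → ℝ} {α β : ℝ} (h : α < β) (hc : ContinuousOn u (Icc α β))
    (hd : ∀ x ∈ Ioo α β, HasDerivAt u (u' x) x) (hp : ∀ x ∈ Ioo α β, 0 < u' x) : u α < u β := by
  obtain ⟨x, hx, e⟩ := exists_hasDerivAt_eq_slope u u' h hc hd
  have := hp x hx
  rw [e, lt_div_iff₀ (sub_pos.2 h)] at this
  linarith

theorem ge_of_deriv_nonpos {u u' : ℝ → ℝ} {α β : ℝ} (h : α ≤ β) (hc : ContinuousOn u (Icc α β))
    (hd : ∀ x ∈ Ioo α β, HasDerivAt u (u' x) x) (hp : ∀ x ∈ Ioo α β, u' x ≤ 0) : u β ≤ u α := by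
  have := le_of_deriv_nonneg (u := -u) (u' := -u') h hc.neg (fun x hx => (hd x hx).neg)
    (fun x hx => by simpa using hp x hx)
  simpa using this

theorem gt_of_deriv_neg {u u' : ℝ → ℝ} {α β : ℝ} (h : α < β) (hc : ContinuousOn u (Icc α β))
    (hd : ∀ x ∈ Ioo α β, HasDerivAt u (u' x) x) (hp : ∀ x ∈ Ioo α β, u' x < 0) : u β < u α := by
  have := lt_of_deriv_pos (u := -u) (u' := -u') h hc.neg (fun x hx => (hd x hx).neg)
    (fun x hx => by simpa using hp x hx)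
  simpa using this

theorem eq_of_deriv_zero {u : ℝ → ℝ} {α β : ℝ} (h : α ≤ β) (hc : ContinuousOn u (Icc α β))
    (hd : ∀ x ∈ Ioo α β, HasDerivAt u 0 x) : u β = u α :=
  le_antisymm (ge_of_deriv_nonpos (u' := fun _ => 0) h hc hd fun _ _ => le_rfl)
    (le_of_deriv_nonneg (u' := fun _ => 0) h hc hd fun _ _ => le_rfl)

theorem unimodal {u u' : ℝ → ℝ} {α β : ℝ} (hc : ContinuousOn u (Icc α β))
    (hd : ∀ x ∈ Ioo α β, HasDerivAt u (u' x) x)
    (hs : ∀ x ∈ Ioo α β, ∀ y ∈ Ioo α β, x ≤ y → u' x < 0 → u' y ≤ 0) (he : u α = u β) :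
    ∀ x ∈ Icc α β, u α ≤ u x := by
  intro x hx
  by_cases h : ∀ y ∈ Ioo α x, 0 ≤ u' y
  · exact le_of_deriv_nonneg hx.1 (hc.mono (Icc_subset_Icc_right hx.2))
      (fun y hy => hd y ⟨hy.1, hy.2.trans_le hx.2⟩) h
  · push Not at h
    obtain ⟨y, hy, hy'⟩ := h
    rw [he]
    exact ge_of_deriv_nonpos hx.2 (hc.mono (Icc_subset_Icc_left hx.1))
      (fun z hz => hd z ⟨hx.1.trans_lt hz.1, hz.2⟩)
      (fun z hz => hs y ⟨hy.1, hy.2.trans_le hx.2⟩ z ⟨hx.1.trans_lt hz.1, hz.2⟩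
        (hy.2.trans hz.1).le hy')

theorem unimodal_strict {u u' : ℝ → ℝ} {α β : ℝ} (hc : ContinuousOn u (Icc α β))
    (hd : ∀ x ∈ Ioo α β, HasDerivAt u (u' x) x)
    (hs : ∀ x ∈ Ioo α β, ∀ y ∈ Ioo α β, x < y → u' x ≤ 0 → u' y < 0) (he : u α = u β) :
    ∀ x ∈ Ioo α β, u α < u x := by
  intro x hx
  by_cases h : ∀ y ∈ Ioo α x, 0 < u' y
  · exact lt_of_deriv_pos hx.1 (hc.mono (Icc_subset_Icc_right hx.2.le))
      (fun y hy => hd y ⟨hy.1, hy.2.trans hx.2⟩) h
  · push Not at h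
    obtain ⟨y, hy, hy'⟩ := h
    rw [he]
    exact gt_of_deriv_neg hx.2 (hc.mono (Icc_subset_Icc_left hx.1.le))
      (fun z hz => hd z ⟨hx.1.trans hz.1, hz.2⟩)
      (fun z hz => hs y ⟨hy.1, hy.2.trans hx.2⟩ z ⟨hx.1.trans hz.1, hz.2⟩
        (hy.2.trans hz.1) hy')

/-- Differentiation under the integral sign. -/
theorem hasDerivAt_param {f f' : ℝ → ℝ → ℝ} {s : Set ℝ} (hs : IsOpen s) {x₀ : ℝ} (hx : x₀ ∈ s)
    (hf : ∀ x ∈ s, Continuous (f x)) (hd : ∀ x ∈ s, ∀ t, HasDerivAt (fun x => f x t) (f' x t) x)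
    (hc : ContinuousOn (fun p : ℝ × ℝ => f' p.1 p.2) (s ×ˢ univ)) (a b : ℝ) :
    HasDerivAt (fun x => ∫ t in a..b, f x t) (∫ t in a..b, f' x₀ t) x₀ := by
  obtain ⟨ε, hε, hsub⟩ := Metric.nhds_basis_closedBall.mem_iff.1 (hs.mem_nhds hx)
  have hK : IsCompact (Metric.closedBall x₀ ε ×ˢ uIcc a b) :=
    (isCompact_closedBall _ _).prod isCompact_uIcc
  obtain ⟨C, hC⟩ := hK.exists_bound_of_continuousOn
    (hc.mono (prod_mono hsub (subset_univ _)))
  have hc0 : Continuous (f' x₀) :=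
    hc.comp_continuous (f := fun t => (x₀, t)) (by fun_prop) fun t => ⟨hx, mem_univ _⟩
  refine (intervalIntegral.hasDerivAt_integral_of_dominated_loc_of_deriv_le
    (s := Metric.closedBall x₀ ε) (bound := fun _ => C) (Metric.closedBall_mem_nhds _ hε)
    ?_ ((hf x₀ hx).intervalIntegrable _ _) hc0.aestronglyMeasurable ?_ (by simp) ?_).2
  · filter_upwards [hs.mem_nhds hx] with x hx using (hf x hx).aestronglyMeasurable
  · exact Eventually.of_forall fun t ht x hx => hC (x, t) ⟨hx, uIoc_subset_uIcc ht⟩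
  · exact Eventually.of_forall fun t _ x hx => hd x (hsub hx) t

/-- The envelope lemma. -/
theorem hasDerivAt_envelope {c x lam ψ Λ : ℝ → ℝ} {c' x' t : ℝ} (hc : HasDerivAt c c' t)
    (hx : HasDerivAt x x' t) (hl : ContinuousAt lam t) (hψ : ContinuousAt ψ t) (h0 : 0 < ψ t)
    (h1 : ∀ᶠ s in 𝓝 t, c s + lam t * x s ≤ c t + lam t * x t + (Λ s - Λ t) * ψ t)
    (h2 : ∀ᶠ s in 𝓝 t, c t + lam s * x t ≤ c s + lam s * x s + (Λ t - Λ s) * ψ s) :
    HasDerivAt Λ ((c' + lam t * x') / ψ t) t := by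
  rw [hasDerivAt_iff_tendsto_slope] at hc hx ⊢
  have hl' : Tendsto lam (𝓝[≠] t) (𝓝 (lam t)) := hl.tendsto.mono_left nhdsWithin_le_nhds
  have hψ' : Tendsto ψ (𝓝[≠] t) (𝓝 (ψ t)) := hψ.tendsto.mono_left nhdsWithin_le_nhds
  have tA : Tendsto (fun s => (slope c t s + lam t * slope x t s) / ψ t) (𝓝[≠] t)
      (𝓝 ((c' + lam t * x') / ψ t)) := (hc.add (hx.const_mul _)).div_const _
  have tB : Tendsto (fun s => (slope c t s + lam s * slope x t s) / ψ s) (𝓝[≠] t)
      (𝓝 ((c' + lam t * x') / ψ t)) := (hc.add (hl'.mul hx)).div hψ' h0.ne'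
  have tm := tA.min tB
  have tM := tA.max tB
  rw [min_self] at tm
  rw [max_self] at tM
  have key : ∀ᶠ s in 𝓝[≠] t,
      min ((slope c t s + lam t * slope x t s) / ψ t) ((slope c t s + lam s * slope x t s) / ψ s)
        ≤ slope Λ t s ∧ slope Λ t s ≤
      max ((slope c t s + lam t * slope x t s) / ψ t)
        ((slope c t s + lam s * slope x t s) / ψ s) := by
    filter_upwards [nhdsWithin_le_nhds h1, nhdsWithin_le_nhds h2, self_mem_nhdsWithin,
      hψ'.eventually (lt_mem_nhds h0)] with s a1 a2 hne hs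
    have hne' : s - t ≠ 0 := sub_ne_zero.2 hne
    have eA : (slope c t s + lam t * slope x t s) / ψ t
        = (c s - c t + lam t * (x s - x t)) / ψ t / (s - t) := by
      simp only [slope_def_field]; field_simp
    have eB : (slope c t s + lam s * slope x t s) / ψ s
        = (c s - c t + lam s * (x s - x t)) / ψ s / (s - t) := by
      simp only [slope_def_field]; field_simp
    have iA : (c s - c t + lam t * (x s - x t)) / ψ t ≤ Λ s - Λ t := by
      rw [div_le_iff₀ h0]; linarith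
    have iB : Λ s - Λ t ≤ (c s - c t + lam s * (x s - x t)) / ψ s := by
      rw [le_div_iff₀ hs]; linarith
    rw [eA, eB, slope_def_field]
    rcases lt_or_gt_of_ne hne' with h | h
    · exact ⟨(min_le_right _ _).trans (div_le_div_of_nonpos_of_le h.le iB),
        (div_le_div_of_nonpos_of_le h.le iA).trans (le_max_left _ _)⟩
    · exact ⟨(min_le_left _ _).trans (div_le_div_of_nonneg_right iA h.le),
        (div_le_div_of_nonneg_right iB h.le).trans (le_max_right _ _)⟩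
  exact tendsto_of_tendsto_of_tendsto_of_le_of_le' tm tM (key.mono fun _ h => h.1)
    (key.mono fun _ h => h.2)

/-- The derivative of an implicitly defined curve. -/
theorem hasDerivAt_implicit {L : ℝ × ℝ → ℝ} {L' : ℝ × ℝ →L[ℝ] ℝ} {φ : ℝ → ℝ} {k l A B : ℝ}
    (hL : HasFDerivAt L L' (k, φ k)) (hL' : ∀ u v, L' (u, v) = A * u + B * v) (hB : B ≠ 0)
    (hφ : ContinuousAt φ k) (he : ∀ᶠ t in 𝓝 k, L (t, φ t) = l) :
    HasDerivAt φ (-A / B) k := by
  have hl : L (k, φ k) = l := he.self_of_nhds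
  have h1 := hL.isLittleO.comp_tendsto (k := fun t => (t, φ t)) (l' := 𝓝 k)
    (continuousAt_id.prodMk hφ).tendsto
  have h2 : (fun t => A * (t - k) + B * (φ t - φ k)) =o[𝓝 k]
      fun t => ((t, φ t) - (k, φ k) : ℝ × ℝ) := by
    refine (h1.neg_left.congr' ?_ EventuallyEq.rfl)
    filter_upwards [he] with t ht
    simp only [Function.comp, ht, hl, Prod.mk_sub_mk, hL']
    ring
  have hB0 : 0 < |B| := abs_pos.2 hB
  have h3 : (fun t => ((t, φ t) - (k, φ k) : ℝ × ℝ)) =O[𝓝 k] fun t => t - k := by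
    rw [Asymptotics.isBigO_iff]
    refine ⟨1 + (2 * |A| + |B|) / |B|, ?_⟩
    filter_upwards [h2.def (half_pos hB0)] with t ht
    rw [Prod.mk_sub_mk, Prod.norm_mk] at ht ⊢
    simp only [Real.norm_eq_abs] at ht ⊢
    have hd : 0 ≤ (2 * |A| + |B|) / |B| := by positivity
    have e1 : |B| * |φ t - φ k| ≤ |A * (t - k) + B * (φ t - φ k)| + |A| * |t - k| := by
      rw [← abs_mul, ← abs_mul]
      have := abs_sub (A * (t - k) + B * (φ t - φ k)) (A * (t - k))
      rwa [add_sub_cancel_left] at this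
    have e2 : max |t - k| |φ t - φ k| ≤ |t - k| + |φ t - φ k| :=
      max_le (by linarith [abs_nonneg (φ t - φ k)]) (by linarith [abs_nonneg (t - k)])
    have e3 : |φ t - φ k| ≤ (2 * |A| + |B|) / |B| * |t - k| := by
      rw [div_mul_eq_mul_div, le_div_iff₀ hB0]
      linarith [mul_le_mul_of_nonneg_left e2 (half_pos hB0).le]
    linarith
  have h4 := (h2.trans_isBigO h3).const_mul_left B⁻¹
  rw [hasDerivAt_iff_isLittleO]
  refine h4.congr_left fun t => ?_
  simp only [smul_eq_mul]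
  field_simp
  ring

end Pool.Agent.Lib.MP_03314f_an
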