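import Mathlib

namespace Pool.Agent.Lib.MP_03314f_an

open Metric Set Real

/-- The class `S*(M)`: analytic univalent functions on the unit disc with `f 0 = 0`, `f' 0 = 1`,
image star-shaped with respect to `0`, and `|f| ≤ M`. -/
def InClass (M : ℝ) (f : ℂ → ℂ) : Prop :=
  DifferentiableOn ℂ f (ball 0 1) ∧ InjOn f (ball 0 1) ∧ f 0 = 0 ∧ deriv f 0 = 1 ∧
    (∀ w ∈ f '' ball 0 1, segment ℝ 0 w ⊆ f '' ball 0 1) ∧ ∀ z ∈ ball (0 : ℂ) 1, ‖f z‖ ≤ M

/-- The set of the values `|a₃|`, `f ∈ S*(M)`; its supremum is `A₃(M)`. -/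
def coeffSet (M : ℝ) : Set ℝ := {t | ∃ f, InClass M f ∧ t = ‖iteratedDeriv 3 f 0 / 6‖}

/-- `Δ(θ) = √(1 - k² sin² θ)`. -/
noncomputable def Dl (k θ : ℝ) : ℝ := √(1 - k ^ 2 * sin θ ^ 2)

/-- Legendre's incomplete elliptic integral of the first kind. -/
noncomputable def ellF (k φ : ℝ) : ℝ := ∫ θ in (0 : ℝ)..φ, 1 / Dl k θ

/-- Legendre's incomplete elliptic integral of the second kind. -/
noncomputable def ellE (k φ : ℝ) : ℝ := ∫ θ in (0 : ℝ)..φ, Dl k θ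

/-- The ratio `E(k) / K(k)` of the complete elliptic integrals. -/
noncomputable def eta (k : ℝ) : ℝ := ellE k (π / 2) / ellF k (π / 2)

/-- Jacobi's zeta function. -/
noncomputable def Zeta (k φ : ℝ) : ℝ := ellE k φ - eta k * ellF k φ

/-- The logarithm of the bound `M` attached to the parameters `(k, φ)`. -/
noncomputable def logBound (k φ : ℝ) : ℝ := 2 * ∫ θ in (0 : ℝ)..φ, Zeta k θ / Dl k θ

/-- The third coefficient attached to the parameters `(k, φ)`. -/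
noncomputable def coeffVal (k φ : ℝ) : ℝ :=
  k ^ 2 * sin φ ^ 4 - 2 * sin φ * cos φ * Dl k φ * Zeta k φ + 2 * sin φ ^ 2 * Zeta k φ ^ 2

/-- The left side of the stationarity equation. -/
noncomputable def crit (k φ : ℝ) : ℝ :=
  (2 * sin φ * Zeta k φ - cos φ * Dl k φ) *
      (cos φ * Dl k φ * Zeta k φ + sin φ * (eta k - Dl k φ ^ 2))
    - 2 * k ^ 2 * sin φ ^ 3 * cos φ * Dl k φ
    + sin φ ^ 2 * (Dl k φ ^ 2 + k ^ 2 * cos φ ^ 2) * Zeta k φ

end Pool.Agent.Lib.MP_03314f_an
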