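import Mathlib
import Pool.Agent.Lib.MP_03314f_an.Defs

/-! Starlike functions and their logarithms. -/

namespace Pool.Agent.Lib.MP_03314f_an

open Metric Set Filter Topology Complex

/-- Logarithms `g = log (f z / z)` of bounded starlike functions. -/
structure GClass (L : ℝ) (g : ℂ → ℂ) : Prop where
  diff : DifferentiableOn ℂ g (ball 0 1)
  zero : g 0 = 0
  le : ∀ z ∈ ball (0 : ℂ) 1, (g z).re ≤ L
  pos : ∀ z ∈ ball (0 : ℂ) 1, 0 ≤ (1 + z * deriv g z).re

theorem ball_nhds {z : ℂ} (hz : z ∈ ball (0 : ℂ) 1) : ball (0 : ℂ) 1 ∈ 𝓝 z :=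
  isOpen_ball.mem_nhds hz

theorem hasDerivAt_of_diffOn {g : ℂ → ℂ} (hg : DifferentiableOn ℂ g (ball 0 1)) {z : ℂ}
    (hz : z ∈ ball (0 : ℂ) 1) : HasDerivAt g (deriv g z) z :=
  (hg.differentiableAt (ball_nhds hz)).hasDerivAt

theorem hasDerivAt_zexp {g : ℂ → ℂ} (hg : DifferentiableOn ℂ g (ball 0 1)) {z : ℂ}
    (hz : z ∈ ball (0 : ℂ) 1) :
    HasDerivAt (fun z => z * exp (g z)) (exp (g z) * (1 + z * deriv g z)) z := by
  have := (hasDerivAt_id z).mul (hasDerivAt_of_diffOn hg hz).cexp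
  exact this.congr_deriv (by simp only [id]; ring)

theorem a3_formula {f g : ℂ → ℂ} (hg : DifferentiableOn ℂ g (ball 0 1)) (h0 : g 0 = 0)
    (hf : ∀ z ∈ ball (0 : ℂ) 1, f z = z * exp (g z)) :
    iteratedDeriv 3 f 0 / 6 = iteratedDeriv 2 g 0 / 2 + deriv g 0 ^ 2 / 2 := by
  have hg1 : DifferentiableOn ℂ (deriv g) (ball 0 1) := hg.deriv isOpen_ball
  have hg2 : DifferentiableOn ℂ (deriv (deriv g)) (ball 0 1) := hg1.deriv isOpen_ball
  have h00 : (0 : ℂ) ∈ ball (0 : ℂ) 1 := mem_ball_self one_pos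
  have e1 : ∀ z ∈ ball (0 : ℂ) 1, deriv f z = exp (g z) * (1 + z * deriv g z) := by
    intro z hz
    have : f =ᶠ[𝓝 z] fun z => z * exp (g z) := by
      filter_upwards [ball_nhds hz] with w hw using hf w hw
    rw [this.deriv_eq, (hasDerivAt_zexp hg hz).deriv]
  have e2 : ∀ z ∈ ball (0 : ℂ) 1, deriv (deriv f) z = exp (g z) *
      (deriv g z * (1 + z * deriv g z) + (deriv g z + z * deriv (deriv g) z)) := by
    intro z hz
    have : deriv f =ᶠ[𝓝 z] fun z => exp (g z) * (1 + z * deriv g z) := by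
      filter_upwards [ball_nhds hz] with w hw using e1 w hw
    rw [this.deriv_eq]
    have h := (hasDerivAt_of_diffOn hg hz).cexp.mul
      (((hasDerivAt_id z).mul (hasDerivAt_of_diffOn hg1 hz)).const_add 1)
    refine (HasDerivAt.deriv h).trans ?_
    simp only [id, Pi.mul_apply]; ring
  have e3 : deriv (deriv (deriv f)) 0 = 3 * (deriv (deriv g) 0 + deriv g 0 ^ 2) := by
    have : deriv (deriv f) =ᶠ[𝓝 0] fun z => exp (g z) *
        (deriv g z * (1 + z * deriv g z) + (deriv g z + z * deriv (deriv g) z)) := by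
      filter_upwards [ball_nhds h00] with w hw using e2 w hw
    rw [this.deriv_eq]
    have d0 := hasDerivAt_of_diffOn hg h00
    have d1 := hasDerivAt_of_diffOn hg1 h00
    have d2 := hasDerivAt_of_diffOn hg2 h00
    have h := d0.cexp.mul ((d1.mul (((hasDerivAt_id (0 : ℂ)).mul d1).const_add 1)).add
      (d1.add ((hasDerivAt_id (0 : ℂ)).mul d2)))
    refine (HasDerivAt.deriv h).trans ?_
    simp only [id, Pi.mul_apply, Pi.add_apply, h0, exp_zero]; ring
  have i3 : iteratedDeriv 3 f 0 = deriv (deriv (deriv f)) 0 := by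
    simp [iteratedDeriv_succ]
  have i2 : iteratedDeriv 2 g 0 = deriv (deriv g) 0 := by
    simp [iteratedDeriv_succ]
  rw [i3, i2, e3]; ring

theorem eventually_lt_of_deriv_neg {ψ : ℝ → ℝ} {d t : ℝ} (h : HasDerivAt ψ d t) (hd : d < 0) :
    ∀ᶠ τ in 𝓝[>] t, ψ τ < ψ t := by
  have h1 := (hasDerivAt_iff_tendsto_slope_left_right.1 h).2
  filter_upwards [h1.eventually (gt_mem_nhds hd), self_mem_nhdsWithin] with τ hτ hτ'
  rw [slope_def_field, div_neg_iff] at hτ
  have : 0 < τ - t := sub_pos.2 hτ'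
  rcases hτ with h | h <;> linarith [h.1, h.2]

theorem eventually_gt_of_deriv_neg {ψ : ℝ → ℝ} {d t : ℝ} (h : HasDerivAt ψ d t) (hd : d < 0) :
    ∀ᶠ τ in 𝓝[<] t, ψ t < ψ τ := by
  have h1 := (hasDerivAt_iff_tendsto_slope_left_right.1 h).1
  filter_upwards [h1.eventually (gt_mem_nhds hd), self_mem_nhdsWithin] with τ hτ hτ'
  rw [slope_def_field, div_neg_iff] at hτ
  have : τ - t < 0 := sub_neg.2 hτ'
  rcases hτ with h | h <;> linarith [h.1, h.2]

theorem hasDerivAt_normSq {c : ℝ → ℂ} {c' : ℂ} {t : ℝ} (h : HasDerivAt c c' t) :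
    HasDerivAt (fun τ => normSq (c τ)) (2 * ((starRingEnd ℂ) (c t) * c').re) t := by
  have hre : HasDerivAt (fun τ => (c τ).re) c'.re t := reCLM.hasFDerivAt.comp_hasDerivAt t h
  have him : HasDerivAt (fun τ => (c τ).im) c'.im t := imCLM.hasFDerivAt.comp_hasDerivAt t h
  have := (hre.mul hre).add (him.mul him)
  exact this.congr_deriv (by simp [mul_re]; ring)

/-- A function `z exp (g z)` with `Re (1 + z g') > 0` is univalent. -/
theorem injOn_zexp {g : ℂ → ℂ} (hg : DifferentiableOn ℂ g (ball 0 1))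
    (hp : ∀ z ∈ ball (0 : ℂ) 1, 0 < (1 + z * deriv g z).re) :
    InjOn (fun z => z * exp (g z)) (ball 0 1) := by
  have key : ∀ s₁ s₂ : ℂ, s₁.re < 0 → s₂.re < 0 → s₁ + g (exp s₁) = s₂ + g (exp s₂) → s₁ = s₂ := by
    intro s₁ s₂ h₁ h₂ he
    by_contra hne
    have hd : s₂ - s₁ ≠ 0 := sub_ne_zero.2 (Ne.symm hne)
    have hmem : ∀ t ∈ Icc (0 : ℝ) 1, exp (s₁ + t * (s₂ - s₁)) ∈ ball (0 : ℂ) 1 := by
      intro t ht
      rw [mem_ball_zero_iff, norm_exp, Real.exp_lt_one_iff]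
      simp only [add_re, mul_re, ofReal_re, sub_re, ofReal_im, sub_im, zero_mul, sub_zero]
      rcases eq_or_lt_of_le ht.1 with h | h
      · rw [← h]; linarith
      · nlinarith [mul_pos h (neg_pos.2 h₂), mul_nonneg (sub_nonneg.2 ht.2) (neg_pos.2 h₁).le]
    let φ : ℝ → ℝ := fun t =>
      ((s₁ + t * (s₂ - s₁) + g (exp (s₁ + t * (s₂ - s₁)))) * (starRingEnd ℂ) (s₂ - s₁)).re
    have hφ : ∀ t ∈ Icc (0 : ℝ) 1, HasDerivAt φ (normSq (s₂ - s₁) *
        (1 + exp (s₁ + t * (s₂ - s₁)) * deriv g (exp (s₁ + t * (s₂ - s₁)))).re) t := by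
      intro t ht
      have l1 : HasDerivAt (fun w : ℂ => s₁ + w * (s₂ - s₁)) (s₂ - s₁) (t : ℂ) := by
        simpa using ((hasDerivAt_id (t : ℂ)).mul_const (s₂ - s₁)).const_add s₁
      have l2 := (hasDerivAt_of_diffOn hg (hmem t ht)).comp (t : ℂ) l1.cexp
      have l3 := ((l1.add l2).mul_const ((starRingEnd ℂ) (s₂ - s₁))).comp_ofReal
      have l4 := reCLM.hasFDerivAt.comp_hasDerivAt t l3
      refine l4.congr_deriv ?_
      have : (s₂ - s₁ + deriv g (cexp (s₁ + ↑t * (s₂ - s₁))) *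
          (cexp (s₁ + ↑t * (s₂ - s₁)) * (s₂ - s₁))) * (starRingEnd ℂ) (s₂ - s₁)
          = (normSq (s₂ - s₁) : ℂ) *
            (1 + exp (s₁ + t * (s₂ - s₁)) * deriv g (exp (s₁ + t * (s₂ - s₁)))) := by
        rw [← mul_conj]; ring
      simp only [reCLM_apply, this, re_ofReal_mul]
    have hmono : StrictMonoOn φ (Icc 0 1) := by
      apply strictMonoOn_of_deriv_pos (convex_Icc 0 1)
      · exact fun t ht => (hφ t ht).continuousAt.continuousWithinAt
      · intro t ht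
        have ht' := interior_subset ht
        rw [(hφ t ht').deriv]
        exact mul_pos (normSq_pos.2 hd) (hp _ (hmem t ht'))
    have := hmono (left_mem_Icc.2 zero_le_one) (right_mem_Icc.2 zero_le_one) zero_lt_one
    simp only [φ, ofReal_zero, zero_mul, add_zero, ofReal_one, one_mul, add_sub_cancel, he,
      lt_self_iff_false] at this
  intro z₁ hz₁ z₂ hz₂ he
  simp only at he
  by_cases h1 : z₁ = 0
  · subst h1
    have : z₂ * exp (g z₂) = 0 := by rw [← he]; simp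
    exact ((mul_eq_zero.1 this).resolve_right (exp_ne_zero _)).symm
  have h2 : z₂ ≠ 0 := by
    rintro rfl
    exact h1 (by simpa using he)
  have hre : ∀ z ∈ ball (0 : ℂ) 1, z ≠ 0 → (log z).re < 0 := by
    intro z hz h
    rw [log_re]
    exact Real.log_neg (norm_pos_iff.2 h) (mem_ball_zero_iff.1 hz)
  have : exp (log z₁ + g z₁) = exp (log z₂ + g z₂) := by
    rw [exp_add, exp_add, exp_log h1, exp_log h2, he]
  obtain ⟨n, hn⟩ := exp_eq_exp_iff_exists_int.1 this
  have hz : exp (log z₂ + n * (2 * Real.pi * I)) = z₂ := by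
    rw [exp_add, exp_log h2, exp_int_mul_two_pi_mul_I, mul_one]
  have := key (log z₁) (log z₂ + n * (2 * Real.pi * I)) (hre _ hz₁ h1)
    (by simpa using hre _ hz₂ h2) (by rw [exp_log h1, hz, hn]; ring)
  rw [← exp_log h1, this, hz]

theorem re_inv_pos {p : ℂ} (hp : 0 < p.re) : 0 < (p⁻¹).re := by
  rw [inv_re]
  exact div_pos hp (normSq_pos.2 (by rintro rfl; simp at hp))

/-- A function `z exp (g z)` with `Re (1 + z g') > 0` has a star-shaped image. -/
theorem star_zexp {g : ℂ → ℂ} (hg : DifferentiableOn ℂ g (ball 0 1))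
    (hp : ∀ z ∈ ball (0 : ℂ) 1, 0 < (1 + z * deriv g z).re) :
    ∀ w ∈ (fun z => z * exp (g z)) '' ball 0 1,
      segment ℝ 0 w ⊆ (fun z => z * exp (g z)) '' ball 0 1 := by
  set f : ℂ → ℂ := fun z => z * exp (g z) with hf
  rintro w ⟨z₀, hz₀, rfl⟩
  have hsub : closedBall (0 : ℂ) ‖z₀‖ ⊆ ball 0 1 := closedBall_subset_ball (mem_ball_zero_iff.1 hz₀)
  have hfd : DifferentiableOn ℂ f (ball 0 1) := fun z hz =>
    (hasDerivAt_zexp hg hz).differentiableAt.differentiableWithinAt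
  have hcomp : IsCompact (f '' closedBall 0 ‖z₀‖) :=
    (isCompact_closedBall _ _).image_of_continuousOn (hfd.continuousOn.mono hsub)
  let S : Set ℝ := {τ | ((1 - τ : ℝ) : ℂ) * f z₀ ∈ f '' closedBall 0 ‖z₀‖}
  have hS : IsClosed S := hcomp.isClosed.preimage (by fun_prop)
  have hIcc : Icc (0 : ℝ) 1 ⊆ S := by
    apply IsClosed.Icc_subset_of_forall_mem_nhdsWithin (hS.inter isClosed_Icc)
    · exact ⟨z₀, by simp, by simp⟩
    rintro τ₀ ⟨⟨z₁, hz₁, he⟩, hτ⟩
    by_cases hw : f z₀ = 0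
    · exact Eventually.of_forall fun τ => ⟨0, by simp, by rw [hw]; simp [hf]⟩
    have hz₁b := hsub hz₁
    have hτ1 : (0 : ℝ) < 1 - τ₀ := sub_pos.2 hτ.2
    have hz₁0 : z₁ ≠ 0 := by
      rintro rfl
      have : ((1 - τ₀ : ℝ) : ℂ) * f z₀ = 0 := by rw [← he]; simp [hf]
      rcases mul_eq_zero.1 this with h | h
      · exact hτ1.ne' (by exact_mod_cast h)
      · exact hw h
    set p := 1 + z₁ * deriv g z₁ with hpdef
    have hpp : 0 < p.re := hp z₁ hz₁b
    have hp0 : p ≠ 0 := by rintro h; simp [h] at hpp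
    have hstrict : HasStrictDerivAt f (exp (g z₁) * p) z₁ := by
      have h1 := (hfd.analyticAt (ball_nhds hz₁b)).hasStrictDerivAt
      rwa [(hasDerivAt_zexp hg hz₁b).deriv] at h1
    have hne : exp (g z₁) * p ≠ 0 := mul_ne_zero (exp_ne_zero _) hp0
    set ζ := hstrict.localInverse f _ z₁ hne with hζ
    have hζd : HasDerivAt ζ (exp (g z₁) * p)⁻¹ (f z₁) := (hstrict.to_localInverse hne).hasDerivAt
    have hζ0 : ζ (f z₁) = z₁ := (hstrict.hasStrictFDerivAt_equiv hne).localInverse_apply_image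
    have hright : ∀ᶠ v in 𝓝 (f z₁), f (ζ v) = v :=
      (hstrict.hasStrictFDerivAt_equiv hne).eventually_right_inverse
    have hl : HasDerivAt (fun τ : ℝ => ((1 - τ : ℝ) : ℂ) * f z₀) (-f z₀) τ₀ := by
      have := (((hasDerivAt_id τ₀).const_sub 1).ofReal_comp).mul_const (f z₀)
      simpa using this
    have hc : HasDerivAt (fun τ : ℝ => ζ (((1 - τ : ℝ) : ℂ) * f z₀))
        ((exp (g z₁) * p)⁻¹ * -f z₀) τ₀ := by
      have h1 : HasDerivAt ζ (exp (g z₁) * p)⁻¹ (((1 - τ₀ : ℝ) : ℂ) * f z₀) := he ▸ hζd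
      exact h1.comp_of_eq τ₀ hl rfl
    have hn := hasDerivAt_normSq hc
    simp only [← he, hζ0] at hn
    have hneg : 2 * ((starRingEnd ℂ) z₁ * ((exp (g z₁) * p)⁻¹ * -f z₀)).re < 0 := by
      have e : (starRingEnd ℂ) z₁ * ((exp (g z₁) * p)⁻¹ * -f z₀)
          = ((-(normSq z₁ / (1 - τ₀)) : ℝ) : ℂ) * p⁻¹ := by
        have h1 : ((1 - τ₀ : ℝ) : ℂ) ≠ 0 := by exact_mod_cast hτ1.ne'
        have h2 : f z₀ = z₁ * exp (g z₁) / ((1 - τ₀ : ℝ) : ℂ) := by
          rw [eq_div_iff h1, mul_comm, ← he]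
        rw [h2, ofReal_neg, ofReal_div, ← mul_conj]
        have := exp_ne_zero (g z₁)
        field_simp
      rw [e, re_ofReal_mul]
      have := mul_pos (div_pos (normSq_pos.2 hz₁0) hτ1) (re_inv_pos hpp)
      linarith
    have hev := eventually_lt_of_deriv_neg hn hneg
    have hcont : Tendsto (fun τ : ℝ => ((1 - τ : ℝ) : ℂ) * f z₀) (𝓝[>] τ₀) (𝓝 (f z₁)) := by
      rw [he]; exact hl.continuousAt.tendsto.mono_left nhdsWithin_le_nhds
    filter_upwards [hev, hcont.eventually hright] with τ h1 h2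
    refine ⟨_, ?_, h2⟩
    rw [← he, hζ0, normSq_eq_norm_sq, normSq_eq_norm_sq] at h1
    have h3 := (pow_lt_pow_iff_left₀ (norm_nonneg _) (norm_nonneg _) two_ne_zero).1 h1
    exact mem_closedBall_zero_iff.2 (h3.le.trans (mem_closedBall_zero_iff.1 hz₁))
  rintro v ⟨a, b, ha, hb, hab, rfl⟩
  obtain ⟨z, hz, he⟩ := hIcc (show a ∈ Icc (0 : ℝ) 1 from ⟨ha, by linarith⟩)
  refine ⟨z, hsub hz, ?_⟩
  rw [he, show 1 - a = b by linarith]
  simp

theorem inClass_zexp {L : ℝ} {g : ℂ → ℂ} (hg : DifferentiableOn ℂ g (ball 0 1)) (h0 : g 0 = 0)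
    (hL : ∀ z ∈ ball (0 : ℂ) 1, (g z).re ≤ L)
    (hp : ∀ z ∈ ball (0 : ℂ) 1, 0 < (1 + z * deriv g z).re) :
    InClass (Real.exp L) (fun z => z * exp (g z)) := by
  refine ⟨fun z hz => (hasDerivAt_zexp hg hz).differentiableAt.differentiableWithinAt,
    injOn_zexp hg hp, by simp, ?_, star_zexp hg hp, fun z hz => ?_⟩
  · rw [(hasDerivAt_zexp hg (mem_ball_self one_pos)).deriv]; simp [h0]
  · rw [norm_mul, norm_exp]
    calc ‖z‖ * Real.exp (g z).re ≤ 1 * Real.exp L :=
          mul_le_mul (mem_ball_zero_iff.1 hz).le (Real.exp_le_exp.2 (hL z hz))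
            (Real.exp_pos _).le zero_le_one
      _ = Real.exp L := one_mul _

/-- The inverse of a univalent function is differentiable. -/
theorem invFunOn_differentiable {f : ℂ → ℂ} (hf : DifferentiableOn ℂ f (ball 0 1))
    (hi : InjOn f (ball 0 1)) (h1 : deriv f 0 = 1) {z₀ : ℂ} (hz₀ : z₀ ∈ ball (0 : ℂ) 1) :
    f '' ball 0 1 ∈ 𝓝 (f z₀) ∧ DifferentiableAt ℂ (Function.invFunOn f (ball 0 1)) (f z₀) := by
  set ζ := Function.invFunOn f (ball 0 1) with hζ
  have han : AnalyticOnNhd ℂ f (ball 0 1) := hf.analyticOnNhd isOpen_ball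
  have hconn : IsPreconnected (ball (0 : ℂ) 1) := (convex_ball 0 1).isPreconnected
  have hopen : ∀ s ⊆ ball (0 : ℂ) 1, IsOpen s → IsOpen (f '' s) := by
    rcases han.is_constant_or_isOpen hconn with ⟨w, hw⟩ | h
    · exfalso
      have : f =ᶠ[𝓝 0] fun _ => w := by
        filter_upwards [ball_nhds (mem_ball_self one_pos)] with z hz using hw z hz
      rw [this.deriv_eq] at h1
      simp at h1
    · exact h
  have hleft : ∀ z ∈ ball (0 : ℂ) 1, ζ (f z) = z := fun z hz => hi.leftInvOn_invFunOn hz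
  have hnh : ∀ z ∈ ball (0 : ℂ) 1, f '' ball 0 1 ∈ 𝓝 (f z) := fun z hz =>
    (hopen _ subset_rfl isOpen_ball).mem_nhds ⟨z, hz, rfl⟩
  have hcont : ∀ z ∈ ball (0 : ℂ) 1, ContinuousAt ζ (f z) := by
    intro z hz
    rw [ContinuousAt, hleft z hz, tendsto_def]
    intro V hV
    obtain ⟨W, hWV, hWo, hzW⟩ := _root_.mem_nhds_iff.1 hV
    have : f '' (W ∩ ball 0 1) ∈ 𝓝 (f z) :=
      (hopen _ inter_subset_right (hWo.inter isOpen_ball)).mem_nhds ⟨z, ⟨hzW, hz⟩, rfl⟩
    filter_upwards [this]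
    rintro _ ⟨w, hw, rfl⟩
    rw [mem_preimage, hleft w hw.2]
    exact hWV hw.1
  have hright : ∀ z ∈ ball (0 : ℂ) 1, ∀ᶠ v in 𝓝 (f z), f (ζ v) = v := by
    intro z hz
    filter_upwards [hnh z hz]
    rintro _ ⟨w, hw, rfl⟩
    rw [hleft w hw]
  have hd : ∀ z ∈ ball (0 : ℂ) 1, deriv f z ≠ 0 → DifferentiableAt ℂ ζ (f z) := by
    intro z hz hne
    have h2 : HasDerivAt f (deriv f z) (ζ (f z)) := by
      rw [hleft z hz]; exact hasDerivAt_of_diffOn hf hz
    exact (HasDerivAt.of_local_left_inverse (hcont z hz) h2 hne (hright z hz)).differentiableAt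
  refine ⟨hnh z₀ hz₀, ?_⟩
  have hpunct : ∀ᶠ z in 𝓝[≠] z₀, deriv f z ≠ 0 := by
    rcases (han.deriv z₀ hz₀).eventually_eq_zero_or_eventually_ne_zero with h | h
    · exfalso
      have := han.deriv.eqOn_zero_of_preconnected_of_eventuallyEq_zero hconn hz₀ h
        (mem_ball_self one_pos)
      rw [h1] at this
      simp at this
    · exact h
  apply (analyticAt_of_differentiable_on_punctured_nhds_of_continuousAt _ (hcont z₀ hz₀)).differentiableAt
  rw [eventually_nhdsWithin_iff] at hpunct ⊢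
  have h3 : Tendsto ζ (𝓝 (f z₀)) (𝓝 z₀) := by
    have := hcont z₀ hz₀
    rwa [ContinuousAt, hleft z₀ hz₀] at this
  filter_upwards [h3.eventually hpunct, hnh z₀ hz₀]
  rintro _ h ⟨w, hw, rfl⟩ hne
  rw [hleft w hw] at h
  exact hd w hw (h fun hh => hne (by rw [mem_singleton_iff.1 hh]; rfl))

theorem exists_GClass {M : ℝ} {f : ℂ → ℂ} (h : InClass M f) :
    ∃ g, GClass (Real.log M) g ∧ ∀ z ∈ ball (0 : ℂ) 1, f z = z * exp (g z) := by
  obtain ⟨hf, hi, h0, h1, hstar, hM⟩ := h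
  have h00 : (0 : ℂ) ∈ ball (0 : ℂ) 1 := mem_ball_self one_pos
  set q := dslope f 0 with hq
  have hqd : DifferentiableOn ℂ q (ball 0 1) := (differentiableOn_dslope (ball_nhds h00)).2 hf
  have hfq : ∀ z, f z = z * q z := by
    intro z
    have := sub_smul_dslope f 0 z
    simp only [sub_zero, smul_eq_mul, h0] at this
    exact this.symm
  have hq0 : q 0 = 1 := by rw [hq, dslope_same, h1]
  have hqne : ∀ z ∈ ball (0 : ℂ) 1, q z ≠ 0 := by
    intro z hz hh
    have : z = 0 := hi hz h00 (by rw [hfq z, hh, h0, mul_zero])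
    rw [this, hq0] at hh
    exact one_ne_zero hh
  have hl : DifferentiableOn ℂ (fun z => deriv q z / q z) (ball 0 1) :=
    (hqd.deriv isOpen_ball).div hqd hqne
  obtain ⟨g, hg0, hg⟩ := hl.isExactOn_ball.with_val_at 0 0
  have hgd : DifferentiableOn ℂ g (ball 0 1) := fun z hz =>
    (hg z hz).differentiableAt.differentiableWithinAt
  have hqe : ∀ z ∈ ball (0 : ℂ) 1, q z = exp (g z) := by
    have hc : ∀ z ∈ ball (0 : ℂ) 1, HasDerivAt (fun z => q z * exp (-g z)) 0 z := by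
      intro z hz
      have := (hasDerivAt_of_diffOn hqd hz).mul (hg z hz).neg.cexp
      refine this.congr_deriv ?_
      have := hqne z hz
      simp only [Pi.neg_apply]
      field_simp
      ring
    intro z hz
    have := (convex_ball (0 : ℂ) 1).is_const_of_fderivWithin_eq_zero (𝕜 := ℂ)
      (fun z hz => (hc z hz).differentiableAt.differentiableWithinAt)
      (fun z hz => by
        rw [fderivWithin_of_mem_nhds (ball_nhds hz), (hc z hz).hasFDerivAt.fderiv]; simp) hz h00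
    simp only [hq0, hg0, neg_zero, exp_zero, mul_one] at this
    rw [exp_neg, ← div_eq_mul_inv, div_eq_one_iff_eq (exp_ne_zero _)] at this
    exact this
  have hfe : ∀ z ∈ ball (0 : ℂ) 1, f z = z * exp (g z) := fun z hz => by rw [hfq, hqe z hz]
  refine ⟨g, ⟨hgd, hg0, fun z hz => ?_, fun z hz => ?_⟩, hfe⟩
  · have := norm_dslope_le_div_of_mapsTo_ball (R₂ := M) hf
      (fun w hw => by rw [h0]; exact mem_closedBall_zero_iff.2 (hM w hw)) hz
    rw [← hq, hqe z hz, norm_exp, div_one] at this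
    exact (Real.le_log_iff_exp_le ((Real.exp_pos _).trans_le this)).2 this
  · by_cases hz0 : z = 0
    · simp [hz0]
    set ζ := Function.invFunOn f (ball 0 1) with hζ
    have hleft : ∀ z ∈ ball (0 : ℂ) 1, ζ (f z) = z := fun z hz => hi.leftInvOn_invFunOn hz
    have hseg : ∀ t ∈ Icc (0 : ℝ) 1, ∀ w ∈ ball (0 : ℂ) 1, (t : ℂ) * f w ∈ f '' ball 0 1 := by
      intro t ht w hw
      exact hstar _ ⟨w, hw, rfl⟩ ⟨1 - t, t, by linarith [ht.2], ht.1, by ring, by simp⟩
    have hschwarz : ∀ t ∈ Icc (0 : ℝ) 1, ‖ζ ((t : ℂ) * f z)‖ ≤ ‖z‖ := by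
      intro t ht
      apply norm_le_norm_of_mapsTo_ball (f := fun w => ζ ((t : ℂ) * f w)) (R := 1)
      · intro w hw
        obtain ⟨v, hv, he⟩ := hseg t ht w hw
        have h2 : DifferentiableAt ℂ ζ ((t : ℂ) * f w) :=
          he ▸ (invFunOn_differentiable hf hi h1 hv).2
        exact (h2.comp w ((hf.differentiableAt (ball_nhds hw)).const_mul _)).differentiableWithinAt
      · intro w hw
        obtain ⟨v, hv, he⟩ := hseg t ht w hw
        simp only [← he, hleft v hv]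
        exact ball_subset_closedBall hv
      · have := hleft 0 h00
        rw [h0] at this
        simp [h0, this]
      · exact mem_ball_zero_iff.1 hz
    set p := 1 + z * deriv g z with hp
    have hfd : HasDerivAt f (exp (g z) * p) z := by
      have : f =ᶠ[𝓝 z] fun z => z * exp (g z) := by
        filter_upwards [ball_nhds hz] with w hw using hfe w hw
      exact (hasDerivAt_zexp hgd hz).congr_of_eventuallyEq this
    have hζd := (invFunOn_differentiable hf hi h1 hz).2.hasDerivAt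
    have hchain : deriv ζ (f z) * (exp (g z) * p) = 1 := by
      have h2 := hζd.comp z hfd
      have h3 : ζ ∘ f =ᶠ[𝓝 z] id := by
        filter_upwards [ball_nhds hz] with w hw using hleft w hw
      exact (h2.congr_of_eventuallyEq h3.symm).unique (hasDerivAt_id z)
    have hp0 : p ≠ 0 := by rintro h; simp [h] at hchain
    have hl : HasDerivAt (fun τ : ℝ => (τ : ℂ) * f z) (f z) 1 := by
      simpa using ((hasDerivAt_id (1 : ℝ)).ofReal_comp).mul_const (f z)
    have hc : HasDerivAt (fun τ : ℝ => ζ ((τ : ℂ) * f z)) (deriv ζ (f z) * f z) 1 := by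
      have h2 : HasDerivAt ζ (deriv ζ (f z)) (((1 : ℝ) : ℂ) * f z) := by simpa using hζd
      exact h2.comp_of_eq (1 : ℝ) hl rfl
    have hn := hasDerivAt_normSq hc
    simp only [ofReal_one, one_mul, hleft z hz] at hn
    by_contra hneg
    push Not at hneg
    have e : (starRingEnd ℂ) z * (deriv ζ (f z) * f z) = ((normSq z : ℝ) : ℂ) * p⁻¹ := by
      have h2 : deriv ζ (f z) = (exp (g z) * p)⁻¹ := eq_inv_of_mul_eq_one_left hchain
      rw [h2, hfe z hz, ← mul_conj]
      have := exp_ne_zero (g z)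
      field_simp
    have hd : 2 * ((starRingEnd ℂ) z * (deriv ζ (f z) * f z)).re < 0 := by
      rw [e, re_ofReal_mul, inv_re]
      have := mul_pos (normSq_pos.2 hz0) (div_pos (neg_pos.2 hneg) (normSq_pos.2 hp0))
      rw [neg_div] at this
      linarith
    have hev := eventually_gt_of_deriv_neg hn hd
    have hI : Icc (0 : ℝ) 1 ∈ 𝓝[<] (1 : ℝ) := Icc_mem_nhdsLT zero_lt_one
    obtain ⟨τ, h2, h3⟩ := (hev.and hI).exists
    simp only [ofReal_one, one_mul, hleft z hz] at h2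
    have h4 := hschwarz τ h3
    rw [normSq_eq_norm_sq, normSq_eq_norm_sq] at h2
    exact absurd (pow_le_pow_left₀ (norm_nonneg _) h4 2) (not_le.2 h2)

end Pool.Agent.Lib.MP_03314f_an
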