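import Mathlib
import Pool.Agent.Lib.MP_03314f_an.Starlike

/-! The duality inequality. -/

namespace Pool.Agent.Lib.MP_03314f_an

open Metric Set Filter Topology Complex intervalIntegral
open scoped Real

noncomputable def ci (θ : ℝ) : ℂ := exp (θ * I)

theorem norm_ci (θ : ℝ) : ‖ci θ‖ = 1 := norm_exp_ofReal_mul_I θ

theorem ci_ne (θ : ℝ) : ci θ ≠ 0 := exp_ne_zero _

theorem ci_mem (θ : ℝ) : ci θ ∈ closedBall (0 : ℂ) 1 := by simp [norm_ci]

theorem hasDerivAt_ci (θ : ℝ) : HasDerivAt ci (ci θ * I) θ := by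
  have := (((hasDerivAt_id (θ : ℂ)).mul_const I).cexp).comp_ofReal
  exact this.congr_deriv (by simp [ci])

@[fun_prop]
theorem continuous_ci : Continuous ci := by unfold ci; fun_prop

theorem ci_neg (θ : ℝ) : ci (-θ) = (starRingEnd ℂ) (ci θ) := by
  simp [ci, ← exp_conj]

theorem ci_periodic : Function.Periodic ci (2 * π) := by
  intro θ
  simp [ci, add_mul, exp_add]

theorem ci_pi_neg : ci (-π) = ci π := by
  have := ci_periodic (-π)
  rw [← this]; congr 1; ring

noncomputable def psiH (H : ℂ → ℂ) (θ : ℝ) : ℂ := H (ci θ) / ci θ ^ 2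

noncomputable def WH (H : ℂ → ℂ) (θ : ℝ) : ℝ := ∫ t in (0 : ℝ)..θ, -(psiH H t).im

theorem continuous_circ {H : ℂ → ℂ} (hH : DiffContOnCl ℂ H (ball 0 1)) :
    Continuous fun θ => H (ci θ) :=
  hH.continuousOn_ball.comp_continuous continuous_ci ci_mem

theorem continuous_psiH {H : ℂ → ℂ} (hH : DiffContOnCl ℂ H (ball 0 1)) : Continuous (psiH H) :=
  (continuous_circ hH).div (by fun_prop) fun θ => pow_ne_zero _ (ci_ne θ)

theorem hasDerivAt_WH {H : ℂ → ℂ} (hH : DiffContOnCl ℂ H (ball 0 1)) (θ : ℝ) :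
    HasDerivAt (WH H) (-(psiH H θ).im) θ :=
  ((continuous_im.comp (continuous_psiH hH)).neg.integral_hasStrictDerivAt 0 θ).hasDerivAt

theorem continuous_WH {H : ℂ → ℂ} (hH : DiffContOnCl ℂ H (ball 0 1)) : Continuous (WH H) :=
  continuous_iff_continuousAt.2 fun θ => (hasDerivAt_WH hH θ).continuousAt

theorem integral_psiH {H : ℂ → ℂ} (hH : DiffContOnCl ℂ H (ball 0 1)) :
    ∫ θ in (-π)..π, psiH H θ = π * iteratedDeriv 2 H 0 := by
  have h := hH.circleIntegral_one_div_sub_center_pow_smul one_pos 2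
  have hper : Function.Periodic (psiH H) (2 * π) := by
    intro θ; simp only [psiH, ci_periodic θ]
  have h2 := hper.intervalIntegral_add_eq (-π) 0
  rw [show -π + 2 * π = π by ring, zero_add] at h2
  rw [h2]
  have h3 : (∮ z in C(0, 1), (1 / (z - 0) ^ (2 + 1)) • H z)
      = I * ∫ θ in (0 : ℝ)..2 * π, psiH H θ := by
    rw [circleIntegral, ← intervalIntegral.integral_const_mul]
    congr 1
    ext θ
    have e : circleMap 0 1 θ = ci θ := by simp [circleMap, ci]
    rw [deriv_circleMap, e]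
    have := ci_ne θ
    simp only [psiH, smul_eq_mul, sub_zero]
    field_simp
  rw [h3] at h
  have h4 : I * ∫ θ in (0 : ℝ)..2 * π, psiH H θ = I * (π * iteratedDeriv 2 H 0) := by
    rw [h]; simp [Nat.factorial]; ring
  exact mul_left_cancel₀ I_ne_zero h4

theorem contDiffAt_zero {H : ℂ → ℂ} (hH : DifferentiableOn ℂ H (ball 0 1)) {n : WithTop ℕ∞} :
    ContDiffAt ℂ n H 0 :=
  (hH.analyticAt (ball_nhds (mem_ball_self one_pos))).contDiffAt

/-- The linear functional attached to `H`. -/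
noncomputable def lin (H g : ℂ → ℂ) : ℝ :=
  (iteratedDeriv 2 g 0 / 2 * H 0 + deriv g 0 * deriv H 0).re

theorem lin_eq {G H : ℂ → ℂ} (hG : DiffContOnCl ℂ G (ball 0 1)) (h0 : G 0 = 0)
    (hH : DiffContOnCl ℂ H (ball 0 1)) :
    2 * π * lin H G = (∫ θ in (-π)..π, (G (ci θ)).re * (psiH H θ).re)
      + ∫ θ in (-π)..π, (G (ci θ)).im * -(psiH H θ).im := by
  have hGH : DiffContOnCl ℂ (G * H) (ball 0 1) :=
    ⟨hG.differentiableOn.mul hH.differentiableOn, hG.continuousOn.mul hH.continuousOn⟩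
  have h := integral_psiH hGH
  rw [iteratedDeriv_mul (contDiffAt_zero hG.differentiableOn)
    (contDiffAt_zero hH.differentiableOn)] at h
  have c1 := continuous_circ hG
  have c2 := continuous_psiH hH
  have h2 := congrArg re h
  have h3 := reCLM.intervalIntegral_comp_comm (μ := MeasureTheory.volume)
    ((continuous_psiH hGH).intervalIntegrable (-π) π)
  simp only [reCLM_apply] at h3
  rw [← h3] at h2
  have c3 : Continuous fun θ => (G (ci θ)).re * (psiH H θ).re :=
    (continuous_re.comp c1).mul (continuous_re.comp c2)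
  have c4 : Continuous fun θ => (G (ci θ)).im * -(psiH H θ).im :=
    (continuous_im.comp c1).mul (continuous_im.comp c2).neg
  rw [← integral_add (c3.intervalIntegrable _ _) (c4.intervalIntegrable _ _)]
  have h4 : (∫ θ in (-π)..π, ((G (ci θ)).re * (psiH H θ).re + (G (ci θ)).im * -(psiH H θ).im))
      = ∫ θ in (-π)..π, (psiH (G * H) θ).re := by
    congr 1
    ext θ
    have : psiH (G * H) θ = G (ci θ) * psiH H θ := by simp [psiH, mul_div_assoc]
    rw [this, mul_re]; ring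
  rw [h4, h2, lin]
  have : (∑ i ∈ Finset.range (2 + 1), ((Nat.choose 2 i : ℕ) : ℂ) * iteratedDeriv i G 0 *
      iteratedDeriv (2 - i) H 0)
      = ((2 : ℝ) : ℂ) * (iteratedDeriv 2 G 0 / 2 * H 0 + deriv G 0 * deriv H 0) := by
    simp [Finset.sum_range_succ, h0]; ring
  rw [this, re_ofReal_mul, re_ofReal_mul]; ring

theorem integral_re_psiH {H : ℂ → ℂ} (hH : DiffContOnCl ℂ H (ball 0 1)) :
    ∫ θ in (-π)..π, (psiH H θ).re = 2 * π * (iteratedDeriv 2 H 0 / 2).re := by
  have h2 := congrArg re (integral_psiH hH)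
  have h3 := reCLM.intervalIntegral_comp_comm (μ := MeasureTheory.volume)
    ((continuous_psiH hH).intervalIntegrable (-π) π)
  simp only [reCLM_apply] at h3
  rw [h3, h2, re_ofReal_mul]
  have : iteratedDeriv 2 H 0 = ((2 : ℝ) : ℂ) * (iteratedDeriv 2 H 0 / 2) := by
    push_cast; ring
  conv_lhs => rw [this, re_ofReal_mul]
  ring

theorem dual_le_aux {L : ℝ} {g H : ℂ → ℂ} (hg : GClass L g) (hH : DiffContOnCl ℂ H (ball 0 1))
    (hre : ∀ θ ∈ Icc (-π) π, 0 ≤ (psiH H θ).re) (hW : ∀ θ ∈ Icc (-π) π, 0 ≤ WH H θ)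
    (hper : WH H (-π) = WH H π) {r : ℝ} (hr0 : 0 < r) (hr1 : r < 1) :
    2 * π * lin H (fun z => g (r * z)) ≤ L * (∫ θ in (-π)..π, (psiH H θ).re)
      + ∫ θ in (-π)..π, WH H θ := by
  have hmem : ∀ z ∈ closedBall (0 : ℂ) 1, (r : ℂ) * z ∈ ball (0 : ℂ) 1 := by
    intro z hz
    rw [mem_ball_zero_iff, norm_mul, norm_real, Real.norm_of_nonneg hr0.le]
    have := mem_closedBall_zero_iff.1 hz
    nlinarith [norm_nonneg z]
  have hd : DifferentiableOn ℂ (fun z => g (r * z)) (closedBall 0 1) :=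
    hg.diff.comp (by fun_prop) hmem
  have hG : DiffContOnCl ℂ (fun z => g (r * z)) (ball 0 1) :=
    (hd.mono closure_ball_subset_closedBall).diffContOnCl
  have c1 := continuous_circ hG
  have c2 := continuous_psiH hH
  have c3 := continuous_WH hH
  have c4 : Continuous fun θ => deriv g (r * ci θ) :=
    (hg.diff.deriv isOpen_ball).continuousOn.comp_continuous (by fun_prop)
      fun θ => hmem _ (ci_mem θ)
  have hπ : -π ≤ π := by linarith [Real.pi_pos]
  rw [lin_eq hG (by simp [hg.zero]) hH]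
  have h1 : (∫ θ in (-π)..π, (g (r * ci θ)).re * (psiH H θ).re)
      ≤ L * ∫ θ in (-π)..π, (psiH H θ).re := by
    rw [← intervalIntegral.integral_const_mul]
    have c5 : Continuous fun θ => (g (r * ci θ)).re * (psiH H θ).re :=
      (continuous_re.comp c1).mul (continuous_re.comp c2)
    apply integral_mono_on hπ (c5.intervalIntegrable _ _)
      (Continuous.intervalIntegrable (by fun_prop) _ _)
    intro θ hθ
    exact mul_le_mul_of_nonneg_right (hg.le _ (hmem _ (ci_mem θ))) (hre θ hθ)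
  have hu : ∀ θ, HasDerivAt (fun θ => (g (r * ci θ)).im)
      ((r * ci θ * deriv g (r * ci θ)).re) θ := by
    intro θ
    have l1 := (hasDerivAt_of_diffOn hg.diff (hmem _ (ci_mem θ))).comp_of_eq θ
      ((hasDerivAt_ci θ).const_mul (r : ℂ)) rfl
    have l2 := imCLM.hasFDerivAt.comp_hasDerivAt θ l1
    refine l2.congr_deriv ?_
    have : deriv g (r * ci θ) * (r * (ci θ * I)) = (r * ci θ * deriv g (r * ci θ)) * I := by ring
    simp only [imCLM_apply, this, mul_I_im]
  have h2 := integral_mul_deriv_eq_deriv_mul (a := -π) (b := π) (fun θ _ => hu θ)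
    (fun θ _ => hasDerivAt_WH hH θ) (Continuous.intervalIntegrable (by fun_prop) _ _)
    (Continuous.intervalIntegrable (by fun_prop) _ _)
  rw [h2, hper, ci_pi_neg, sub_self, zero_sub, ← intervalIntegral.integral_neg]
  have h3 : (∫ θ in (-π)..π, -((r * ci θ * deriv g (r * ci θ)).re * WH H θ))
      ≤ ∫ θ in (-π)..π, WH H θ := by
    apply integral_mono_on hπ (Continuous.intervalIntegrable (by fun_prop) _ _)
      (Continuous.intervalIntegrable (by fun_prop) _ _)
    intro θ hθ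
    have := hg.pos _ (hmem _ (ci_mem θ))
    rw [add_re, one_re] at this
    linarith [mul_nonneg this (hW θ hθ)]
  linarith

theorem lin_scale {g : ℂ → ℂ} (c : ℂ) (hg : DifferentiableOn ℂ g (ball 0 1)) (hc : ‖c‖ ≤ 1) :
    deriv (fun z => g (c * z)) 0 = c * deriv g 0 ∧
    iteratedDeriv 2 (fun z => g (c * z)) 0 = c ^ 2 * iteratedDeriv 2 g 0 := by
  have hmem : ∀ z ∈ ball (0 : ℂ) 1, c * z ∈ ball (0 : ℂ) 1 := by
    intro z hz
    rw [mem_ball_zero_iff, norm_mul]
    have := mem_ball_zero_iff.1 hz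
    nlinarith [norm_nonneg z, norm_nonneg c]
  have e1 : ∀ z ∈ ball (0 : ℂ) 1, deriv (fun z => g (c * z)) z = c * deriv g (c * z) := by
    intro z hz
    have := (hasDerivAt_of_diffOn hg (hmem z hz)).comp z ((hasDerivAt_id z).const_mul c)
    refine (HasDerivAt.deriv this).trans ?_
    ring
  have h00 : (0 : ℂ) ∈ ball (0 : ℂ) 1 := mem_ball_self one_pos
  refine ⟨by simpa using e1 0 h00, ?_⟩
  have i2 : ∀ u : ℂ → ℂ, iteratedDeriv 2 u 0 = deriv (deriv u) 0 := by
    intro u; simp [iteratedDeriv_succ]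
  rw [i2, i2]
  have : deriv (fun z => g (c * z)) =ᶠ[𝓝 0] fun z => c * deriv g (c * z) := by
    filter_upwards [ball_nhds h00] with w hw using e1 w hw
  rw [this.deriv_eq]
  have h := ((hasDerivAt_of_diffOn (hg.deriv isOpen_ball) (hmem 0 h00)).comp (0 : ℂ)
    ((hasDerivAt_id (0 : ℂ)).const_mul c)).const_mul c
  refine (HasDerivAt.deriv h).trans ?_
  simp; ring

theorem dual_le {L : ℝ} {g H : ℂ → ℂ} (hg : GClass L g) (hH : DiffContOnCl ℂ H (ball 0 1))
    (hre : ∀ θ ∈ Icc (-π) π, 0 ≤ (psiH H θ).re) (hW : ∀ θ ∈ Icc (-π) π, 0 ≤ WH H θ)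
    (hper : WH H (-π) = WH H π) :
    2 * π * lin H g ≤ L * (∫ θ in (-π)..π, (psiH H θ).re) + ∫ θ in (-π)..π, WH H θ := by
  have hc : Continuous fun r : ℝ => 2 * π *
      ((r : ℂ) ^ 2 * iteratedDeriv 2 g 0 / 2 * H 0 + r * deriv g 0 * deriv H 0).re := by fun_prop
  have h1 := (hc.tendsto 1).mono_left (nhdsWithin_le_nhds (s := Iio 1))
  simp only [ofReal_one, one_pow, one_mul] at h1
  refine le_of_tendsto h1 ?_
  filter_upwards [Ioo_mem_nhdsLT (zero_lt_one' ℝ)] with r hr
  have := dual_le_aux hg hH hre hW hper hr.1 hr.2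
  have h2 := lin_scale (r : ℂ) hg.diff
    (by rw [norm_real, Real.norm_of_nonneg hr.1.le]; exact hr.2.le)
  rwa [lin, h2.1, h2.2] at this

theorem integral_even {u : ℝ → ℝ} (hu : Continuous u) (he : ∀ θ, u (-θ) = u θ) :
    ∫ θ in (-π)..π, u θ = 2 * ∫ θ in (0 : ℝ)..π, u θ := by
  rw [← integral_add_adjacent_intervals (b := 0) (hu.intervalIntegrable _ _)
    (hu.intervalIntegrable _ _)]
  have := integral_comp_neg (a := 0) (b := π) u
  simp only [he, neg_zero] at this
  rw [← this]; ring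

/-- The certificate inequality. -/
theorem certificate {L Λ κ : ℝ} {g G H : ℂ → ℂ} (hg : GClass L g)
    (hG : DiffContOnCl ℂ G (ball 0 1)) (h0 : G 0 = 0) (hH : DiffContOnCl ℂ H (ball 0 1))
    (sH : ∀ θ, H (ci (-θ)) = (starRingEnd ℂ) (H (ci θ)))
    (sG : ∀ θ, G (ci (-θ)) = (starRingEnd ℂ) (G (ci θ)))
    (h1 : ∀ θ ∈ Icc 0 π, 0 ≤ (psiH H θ).re)
    (h2 : ∀ θ ∈ Icc 0 π, ((G (ci θ)).re - Λ) * (psiH H θ).re = 0)
    (h3 : ∀ θ ∈ Icc 0 π, ((G (ci θ)).im + θ - κ) * (psiH H θ).im = 0)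
    (h4 : ∀ θ ∈ Icc 0 π, 0 ≤ WH H θ) (h5 : (κ - π) * WH H π = 0) :
    lin H g ≤ lin H G + (L - Λ) * (iteratedDeriv 2 H 0 / 2).re := by
  have sψ : ∀ θ, psiH H (-θ) = (starRingEnd ℂ) (psiH H θ) := by
    intro θ; simp only [psiH, sH, map_div₀, map_pow]; rw [ci_neg]
  have sW : ∀ θ, WH H (-θ) = WH H θ := by
    intro θ
    have := integral_comp_neg (a := 0) (b := θ) fun t => -(psiH H t).im
    simp only [sψ, conj_im, neg_neg, neg_zero] at this
    unfold WH
    rw [integral_symm, ← this, ← intervalIntegral.integral_neg]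
  have habs : ∀ {P : ℝ → Prop}, (∀ θ, P (-θ) ↔ P θ) → (∀ θ ∈ Icc 0 π, P θ) →
      ∀ θ ∈ Icc (-π) π, P θ := by
    intro P hP h θ hθ
    rcases le_total 0 θ with h' | h'
    · exact h θ ⟨h', hθ.2⟩
    · exact (hP θ).1 (h _ ⟨by linarith, by linarith [hθ.1]⟩)
  have hle := dual_le hg hH (habs (fun θ => by rw [sψ, conj_re]) h1)
    (habs (fun θ => by rw [sW]) h4) (sW π)
  have heq := lin_eq hG h0 hH
  have c1 := continuous_circ hG
  have c2 := continuous_psiH hH
  have c3 := continuous_WH hH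
  have hπ : (0 : ℝ) ≤ π := Real.pi_pos.le
  have e1 : (∫ θ in (-π)..π, (G (ci θ)).re * (psiH H θ).re)
      = Λ * ∫ θ in (-π)..π, (psiH H θ).re := by
    rw [← intervalIntegral.integral_const_mul]
    apply integral_congr
    rw [uIcc_of_le (by linarith)]
    refine habs (P := fun θ => (G (ci θ)).re * (psiH H θ).re = Λ * (psiH H θ).re)
      (fun θ => by rw [sψ, sG, conj_re, conj_re]) fun θ hθ => ?_
    linarith [h2 θ hθ]
  have e2 : (∫ θ in (-π)..π, (G (ci θ)).im * -(psiH H θ).im) = ∫ θ in (-π)..π, WH H θ := by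
    have c4 : Continuous fun θ => (G (ci θ)).im * -(psiH H θ).im :=
      (continuous_im.comp c1).mul (continuous_im.comp c2).neg
    rw [integral_even c4 (fun θ => by rw [sψ, sG, conj_im, conj_im]; ring),
      integral_even c3 sW]
    congr 1
    have hu : ∀ θ, HasDerivAt (fun θ : ℝ => κ - θ) (-1) θ := fun θ =>
      (hasDerivAt_id θ).const_sub κ
    have h6 := integral_mul_deriv_eq_deriv_mul (a := 0) (b := π) (fun θ _ => hu θ)
      (fun θ _ => hasDerivAt_WH hH θ) (Continuous.intervalIntegrable (by fun_prop) _ _)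
      (Continuous.intervalIntegrable (by fun_prop) _ _)
    have h7 : WH H 0 = 0 := by simp [WH]
    rw [h5, h7] at h6
    simp only [mul_zero, sub_zero, zero_sub, neg_mul, one_mul, intervalIntegral.integral_neg,
      neg_neg] at h6
    rw [← h6]
    apply integral_congr
    rw [uIcc_of_le hπ]
    intro θ hθ
    have := h3 θ hθ
    simp only
    linarith
  rw [e1, e2] at heq
  rw [integral_re_psiH hH] at hle heq
  have : 2 * π * lin H g ≤ 2 * π * (lin H G + (L - Λ) * (iteratedDeriv 2 H 0 / 2).re) := by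
    linarith
  exact le_of_mul_le_mul_left this (by linarith [Real.pi_pos])

end Pool.Agent.Lib.MP_03314f_an
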