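import Mathlib
import Pool.Agent.Lib.MP_03314f_an.Dual

/-! Square roots of quadratics with unimodular zeros. -/

namespace Pool.Agent.Lib.MP_03314f_an

open Metric Set Filter Topology Complex
open scoped Real

noncomputable def Qd (a : ℝ) (z : ℂ) : ℂ := 1 - 2 * a * z + z ^ 2

noncomputable def Sq (a : ℝ) (z : ℂ) : ℂ := Complex.sqrt (Qd a z)

theorem Qd_re (a : ℝ) (z : ℂ) : (Qd a z).re = 1 - 2 * a * z.re + z.re ^ 2 - z.im ^ 2 := by
  simp [Qd, pow_two]; ring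

theorem Qd_im (a : ℝ) (z : ℂ) : (Qd a z).im = 2 * z.im * (z.re - a) := by
  simp [Qd, pow_two]; ring

theorem sq_add_sq_norm (z : ℂ) : z.re ^ 2 + z.im ^ 2 = ‖z‖ ^ 2 := by
  rw [← normSq_eq_norm_sq, normSq_apply]; ring

theorem Qd_slit {a : ℝ} (ha : a ^ 2 < 1) {z : ℂ} (hz : z ∈ ball (0 : ℂ) 1) :
    Qd a z ∈ slitPlane := by
  have h1 : z.re ^ 2 + z.im ^ 2 < 1 := by
    rw [sq_add_sq_norm]
    have := mem_ball_zero_iff.1 hz
    nlinarith [norm_nonneg z]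
  by_cases h : (Qd a z).im = 0
  · left
    rw [Qd_im] at h
    rw [Qd_re]
    rcases mul_eq_zero.1 h with h | h
    · have : z.im = 0 := by linarith
      rw [this]; nlinarith [sq_nonneg (z.re - a)]
    · have : a = z.re := by linarith
      rw [this]; nlinarith
  · right; exact h

theorem Qd_closed {a : ℝ} (ha : a ^ 2 < 1) {z : ℂ} (hz : z ∈ closedBall (0 : ℂ) 1) :
    0 ≤ (Qd a z).re ∨ (Qd a z).im ≠ 0 := by
  have h1 : z.re ^ 2 + z.im ^ 2 ≤ 1 := by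
    rw [sq_add_sq_norm]
    have := mem_closedBall_zero_iff.1 hz
    nlinarith [norm_nonneg z]
  by_cases h : (Qd a z).im = 0
  · left
    rw [Qd_im] at h
    rw [Qd_re]
    rcases mul_eq_zero.1 h with h | h
    · have : z.im = 0 := by linarith
      rw [this]; nlinarith [sq_nonneg (z.re - a)]
    · have : a = z.re := by linarith
      rw [this]; nlinarith
  · right; exact h

theorem Sq_sq (a : ℝ) (z : ℂ) : Sq a z ^ 2 = Qd a z := by
  simp [Sq, Complex.sqrt]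

theorem Qd_zero (a : ℝ) : Qd a 0 = 1 := by simp [Qd]

theorem Sq_zero (a : ℝ) : Sq a 0 = 1 := by simp [Sq, Qd]

theorem Sq_ne_of {a : ℝ} {z : ℂ} (h : Qd a z ≠ 0) : Sq a z ≠ 0 := by
  intro h'
  rw [← Sq_sq, h'] at h
  simp at h

theorem Sq_ne {a : ℝ} (ha : a ^ 2 < 1) {z : ℂ} (hz : z ∈ ball (0 : ℂ) 1) : Sq a z ≠ 0 :=
  Sq_ne_of (slitPlane_ne_zero (Qd_slit ha hz))

theorem hasDerivAt_Qd (a : ℝ) (z : ℂ) : HasDerivAt (Qd a) (2 * (z - a)) z := by
  have := (((hasDerivAt_id z).const_mul (2 * a : ℂ)).const_sub 1).add (hasDerivAt_pow 2 z)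
  exact this.congr_deriv (by simp; ring)

@[fun_prop]
theorem continuous_Qd (a : ℝ) : Continuous (Qd a) := by unfold Qd; fun_prop

theorem hasDerivAt_Sq {a : ℝ} (ha : a ^ 2 < 1) {z : ℂ} (hz : z ∈ ball (0 : ℂ) 1) :
    HasDerivAt (Sq a) ((z - a) / Sq a z) z := by
  have h1 : DifferentiableAt ℂ (Sq a) z :=
    (differentiableAt_sqrt (Qd_slit ha hz)).comp z (hasDerivAt_Qd a z).differentiableAt
  have h2 := h1.hasDerivAt.pow 2
  have h3 : Sq a ^ 2 = Qd a := by ext w; exact Sq_sq a w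
  rw [h3] at h2
  have h4 := h2.unique (hasDerivAt_Qd a z)
  refine h1.hasDerivAt.congr_deriv ?_
  rw [eq_div_iff (Sq_ne ha hz)]
  simp at h4
  linear_combination h4 / 2

theorem continuousAt_Sq {a : ℝ} (ha : a ^ 2 < 1) {z : ℂ} (hz : z ∈ closedBall (0 : ℂ) 1) :
    ContinuousAt (Sq a) z :=
  (continuousAt_sqrt (Qd_closed ha hz)).comp (f := Qd a) (continuous_Qd a).continuousAt

theorem diffContOnCl_of {H : ℂ → ℂ} (h1 : DifferentiableOn ℂ H (ball 0 1))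
    (h2 : ContinuousOn H (closedBall 0 1)) : DiffContOnCl ℂ H (ball 0 1) :=
  ⟨h1, h2.mono closure_ball_subset_closedBall⟩

theorem differentiableOn_Sq {a : ℝ} (ha : a ^ 2 < 1) : DifferentiableOn ℂ (Sq a) (ball 0 1) :=
  fun _ hz => (hasDerivAt_Sq ha hz).differentiableAt.differentiableWithinAt

theorem continuousOn_Sq {a : ℝ} (ha : a ^ 2 < 1) : ContinuousOn (Sq a) (closedBall 0 1) :=
  fun _ hz => (continuousAt_Sq ha hz).continuousWithinAt

theorem Qd_conj (a : ℝ) (z : ℂ) : Qd a ((starRingEnd ℂ) z) = (starRingEnd ℂ) (Qd a z) := by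
  simp [Qd, map_ofNat]

theorem Sq_conj {a : ℝ} (ha : a ^ 2 < 1) {z : ℂ} (hz : z ∈ closedBall (0 : ℂ) 1) :
    Sq a ((starRingEnd ℂ) z) = (starRingEnd ℂ) (Sq a z) := by
  have h : (Qd a z).arg ≠ π := by
    rw [Ne, arg_eq_pi_iff]
    rintro ⟨h1, h2⟩
    rcases Qd_closed ha hz with h | h
    · linarith
    · exact h h2
  unfold Sq Complex.sqrt
  rw [Qd_conj, conj_cpow _ _ h]
  simp [map_ofNat]

theorem Sq_re_nonneg (a : ℝ) (z : ℂ) : 0 ≤ (Sq a z).re := by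
  unfold Sq Complex.sqrt
  rw [cpow_inv_two_re]
  exact Real.sqrt_nonneg _

theorem sqrt_sq_of {u : ℂ} (h : 0 < u.re ∨ u = 0) : Complex.sqrt (u ^ 2) = u := by
  rcases h with h | h
  · exact sq_cpow_two_inv h
  · simp [h]

theorem ci_half (θ : ℝ) : ci (θ / 2) ^ 2 = ci θ := by
  rw [ci, ci, ← exp_nat_mul]; congr 1; push_cast; ring

theorem ci_eq (θ : ℝ) : ci θ = Real.cos θ + Real.sin θ * I := by
  rw [ci, exp_mul_I]; simp

theorem ci_re (θ : ℝ) : (ci θ).re = Real.cos θ := exp_ofReal_mul_I_re θ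

theorem ci_im (θ : ℝ) : (ci θ).im = Real.sin θ := exp_ofReal_mul_I_im θ

theorem Qd_ci (a θ : ℝ) : Qd a (ci θ) = ((2 * (Real.cos θ - a) : ℝ) : ℂ) * ci θ := by
  have h : ((Real.sin θ : ℝ) : ℂ) ^ 2 + ((Real.cos θ : ℝ) : ℂ) ^ 2 = 1 := by
    exact_mod_cast Real.sin_sq_add_cos_sq θ
  rw [Qd, ci_eq]
  push_cast at h ⊢
  linear_combination (-1 : ℂ) * h + (Complex.sin θ) ^ 2 * I_sq

theorem Sq_ci_ge {a θ : ℝ} (ha : a ^ 2 < 1) (hθ : θ ∈ Icc 0 π) (h : a ≤ Real.cos θ) :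
    Sq a (ci θ) = (√(2 * (Real.cos θ - a)) : ℝ) * ci (θ / 2) := by
  have h1 : Qd a (ci θ) = ((√(2 * (Real.cos θ - a)) : ℝ) * ci (θ / 2)) ^ 2 := by
    rw [Qd_ci, mul_pow, ci_half, ← ofReal_pow, Real.sq_sqrt (by linarith)]
  rw [Sq, h1]
  apply sqrt_sq_of
  rcases eq_or_lt_of_le h with h | h
  · right; simp [h]
  · left
    rw [re_ofReal_mul, ci_re]
    have hπ : θ < π := by
      refine lt_of_le_of_ne hθ.2 ?_
      rintro rfl
      rw [Real.cos_pi] at h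
      nlinarith
    exact mul_pos (Real.sqrt_pos.2 (by linarith))
      (Real.cos_pos_of_mem_Ioo ⟨by linarith [hθ.1, Real.pi_pos], by linarith⟩)

theorem Sq_ci_le {a θ : ℝ} (ha : a ^ 2 < 1) (hθ : θ ∈ Icc 0 π) (h : Real.cos θ ≤ a) :
    Sq a (ci θ) = (√(2 * (a - Real.cos θ)) : ℝ) * (-I * ci (θ / 2)) := by
  have h1 : Qd a (ci θ) = ((√(2 * (a - Real.cos θ)) : ℝ) * (-I * ci (θ / 2))) ^ 2 := by
    rw [Qd_ci, mul_pow, mul_pow, ci_half, ← ofReal_pow, Real.sq_sqrt (by linarith), neg_sq, I_sq]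
    push_cast; ring
  rw [Sq, h1]
  apply sqrt_sq_of
  rcases eq_or_lt_of_le h with h | h
  · right; simp [h]
  · left
    rw [re_ofReal_mul]
    have e : (-I * ci (θ / 2)).re = Real.sin (θ / 2) := by simp [ci_im]
    rw [e]
    have h0 : 0 < θ := by
      refine lt_of_le_of_ne hθ.1 ?_
      rintro rfl
      rw [Real.cos_zero] at h
      nlinarith
    exact mul_pos (Real.sqrt_pos.2 (by linarith))
      (Real.sin_pos_of_pos_of_lt_pi (by linarith) (by linarith [hθ.2, Real.pi_pos]))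

theorem norm_Qd_ge {a : ℝ} (ha : a ^ 2 < 1) {w : ℂ} (hw : ‖w‖ ≤ 1) :
    √(1 - a ^ 2) * (1 - ‖w‖) ≤ ‖Qd a w‖ := by
  set σ := √(1 - a ^ 2) with hσ
  have hσ0 : 0 ≤ σ := Real.sqrt_nonneg _
  have hσ2 : σ ^ 2 = 1 - a ^ 2 := Real.sq_sqrt (by linarith)
  have hσ2' : (σ : ℂ) ^ 2 = 1 - (a : ℂ) ^ 2 := by exact_mod_cast hσ2
  have e : Qd a w = (w - (a + σ * I)) * (w - (a - σ * I)) := by
    rw [Qd]; linear_combination (-1 : ℂ) * hσ2' + (σ : ℂ) ^ 2 * I_sq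
  have n1 : ‖(a + σ * I : ℂ)‖ = 1 := by
    have := sq_add_sq_norm (a + σ * I : ℂ)
    simp only [add_re, ofReal_re, mul_re, I_re, mul_zero, ofReal_im, I_im, mul_one, sub_self,
      add_zero, add_im, mul_im, zero_add] at this
    nlinarith [norm_nonneg (a + σ * I : ℂ)]
  have n2 : ‖(a - σ * I : ℂ)‖ = 1 := by
    have := sq_add_sq_norm (a - σ * I : ℂ)
    simp only [sub_re, ofReal_re, mul_re, I_re, mul_zero, ofReal_im, I_im, mul_one, sub_self,
      add_zero, sub_im, mul_im, sub_zero, zero_sub] at this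
    nlinarith [norm_nonneg (a - σ * I : ℂ)]
  have l1 : 1 - ‖w‖ ≤ ‖w - (a + σ * I)‖ := by
    have := norm_sub_norm_le (a + σ * I : ℂ) w
    rw [norm_sub_rev, n1] at this; exact this
  have l2 : 1 - ‖w‖ ≤ ‖w - (a - σ * I)‖ := by
    have := norm_sub_norm_le (a - σ * I : ℂ) w
    rw [n2, norm_sub_rev] at this; exact this
  have l3 : 2 * σ ≤ ‖w - (a + σ * I)‖ + ‖w - (a - σ * I)‖ := by
    have h := norm_sub_le (w - (a - σ * I)) (w - (a + σ * I))
    have : w - (a - σ * I) - (w - (a + σ * I)) = ((2 * σ : ℝ) : ℂ) * I := by push_cast; ring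
    rw [this, norm_mul, norm_I, norm_real, Real.norm_of_nonneg (by linarith)] at h
    linarith
  rw [e, norm_mul]
  have h0 : 0 ≤ 1 - ‖w‖ := by linarith
  rcases le_total ‖w - (a + σ * I)‖ ‖w - (a - σ * I)‖ with h | h
  · rw [mul_comm]
    exact mul_le_mul l1 (by linarith) hσ0 (norm_nonneg _)
  · exact mul_le_mul (by linarith) l2 h0 (norm_nonneg _)

end Pool.Agent.Lib.MP_03314f_an
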