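import Mathlib
import Pool.Agent.Lib.MP_03314f_an.Sqrt
import Pool.Agent.Lib.MP_03314f_an.Calc

/-! The extremal functions: a disc with two symmetric radial slits. -/

namespace Pool.Agent.Lib.MP_03314f_an

open Metric Set Filter Topology Complex intervalIntegral
open scoped Real

noncomputable def pf (a b c : ℝ) (z : ℂ) : ℂ := Qd c z / (Sq a z * Sq b z)

noncomputable def qf (a b c : ℝ) : ℂ → ℂ := dslope (pf a b c) 0

noncomputable def Gf (a b c : ℝ) (z : ℂ) : ℂ := ∫ t in (0 : ℝ)..1, z * qf a b c (t * z)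

noncomputable def Hf (a b d : ℝ) (z : ℂ) : ℂ := Qd d z * (Sq a z * Sq b z)

theorem differentiable_Qd (a : ℝ) : Differentiable ℂ (Qd a) := fun z =>
  (hasDerivAt_Qd a z).differentiableAt

theorem jet2 {f g : ℂ → ℂ} (hf : DifferentiableOn ℂ f (ball 0 1))
    (hg : DifferentiableOn ℂ g (ball 0 1)) :
    deriv (f * g) 0 = deriv f 0 * g 0 + f 0 * deriv g 0 ∧
    iteratedDeriv 2 (f * g) 0 = iteratedDeriv 2 f 0 * g 0 + 2 * deriv f 0 * deriv g 0
      + f 0 * iteratedDeriv 2 g 0 := by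
  have h00 : (0 : ℂ) ∈ ball (0 : ℂ) 1 := mem_ball_self one_pos
  refine ⟨((hasDerivAt_of_diffOn hf h00).mul (hasDerivAt_of_diffOn hg h00)).deriv, ?_⟩
  rw [iteratedDeriv_mul (contDiffAt_zero hf) (contDiffAt_zero hg)]
  simp [Finset.sum_range_succ]; ring

theorem jet_congr {f g : ℂ → ℂ} (h : ∀ z ∈ ball (0 : ℂ) 1, f z = g z) :
    deriv f 0 = deriv g 0 ∧ iteratedDeriv 2 f 0 = iteratedDeriv 2 g 0 := by
  have : f =ᶠ[𝓝 0] g := by
    filter_upwards [ball_nhds (mem_ball_self one_pos)] with z hz using h z hz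
  exact ⟨this.deriv_eq, this.iteratedDeriv_eq 2⟩

theorem jet_Qd (a : ℝ) : deriv (Qd a) 0 = -2 * a ∧ iteratedDeriv 2 (Qd a) 0 = 2 := by
  have h1 : deriv (Qd a) = fun z : ℂ => 2 * (z - a) := by ext z; exact (hasDerivAt_Qd a z).deriv
  refine ⟨by rw [h1]; simp, ?_⟩
  have : iteratedDeriv 2 (Qd a) 0 = deriv (deriv (Qd a)) 0 := by simp [iteratedDeriv_succ]
  rw [this, h1]
  have := ((hasDerivAt_id (0 : ℂ)).sub_const (a : ℂ)).const_mul 2
  exact (HasDerivAt.deriv this).trans (by ring)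

theorem jet_Sq {a : ℝ} (ha : a ^ 2 < 1) :
    deriv (Sq a) 0 = -a ∧ iteratedDeriv 2 (Sq a) 0 = 1 - a ^ 2 := by
  have h1 : deriv (Sq a) 0 = -a := by
    rw [(hasDerivAt_Sq ha (mem_ball_self one_pos)).deriv, Sq_zero]; simp
  refine ⟨h1, ?_⟩
  have h2 := (jet2 (differentiableOn_Sq ha) (differentiableOn_Sq ha)).2
  have h3 : Sq a * Sq a = Qd a := by ext z; rw [Pi.mul_apply, ← sq, Sq_sq]
  rw [h3, (jet_Qd a).2, h1, Sq_zero] at h2
  linear_combination -h2 / 2

variable {a b c d : ℝ}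

theorem jet_R (ha : a ^ 2 < 1) (hb : b ^ 2 < 1) :
    deriv (Sq a * Sq b) 0 = -(a + b) ∧ iteratedDeriv 2 (Sq a * Sq b) 0 = 2 - (a - b) ^ 2 := by
  have h := jet2 (differentiableOn_Sq ha) (differentiableOn_Sq hb)
  rw [(jet_Sq ha).1, (jet_Sq hb).1, (jet_Sq ha).2, (jet_Sq hb).2, Sq_zero, Sq_zero] at h
  exact ⟨h.1.trans (by ring), h.2.trans (by ring)⟩

theorem differentiableOn_pf (ha : a ^ 2 < 1) (hb : b ^ 2 < 1) :
    DifferentiableOn ℂ (pf a b c) (ball 0 1) :=
  (differentiable_Qd c).differentiableOn.div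
    ((differentiableOn_Sq ha).mul (differentiableOn_Sq hb))
    fun _ hz => mul_ne_zero (Sq_ne ha hz) (Sq_ne hb hz)

theorem pf_zero : pf a b c 0 = 1 := by simp [pf, Sq_zero, Qd_zero]

theorem jet_pf (ha : a ^ 2 < 1) (hb : b ^ 2 < 1) :
    deriv (pf a b c) 0 = a + b - 2 * c ∧
    iteratedDeriv 2 (pf a b c) 0 = (a - b) ^ 2 + 2 * (a + b - 2 * c) * (a + b) := by
  have h := jet2 (differentiableOn_pf (c := c) ha hb)
    ((differentiableOn_Sq ha).mul (differentiableOn_Sq hb))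
  have h2 := jet_congr (f := pf a b c * (Sq a * Sq b)) (g := Qd c) fun z hz => by
    simp only [Pi.mul_apply, pf]
    exact div_mul_cancel₀ _ (mul_ne_zero (Sq_ne ha hz) (Sq_ne hb hz))
  rw [h2.1, h2.2, (jet_Qd c).1, (jet_Qd c).2, (jet_R ha hb).1, (jet_R ha hb).2, pf_zero] at h
  simp only [Pi.mul_apply, Sq_zero] at h
  have h3 : deriv (pf a b c) 0 = a + b - 2 * c := by linear_combination -h.1
  refine ⟨h3, ?_⟩
  rw [h3] at h
  linear_combination -h.2

theorem differentiableOn_qf (ha : a ^ 2 < 1) (hb : b ^ 2 < 1) :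
    DifferentiableOn ℂ (qf a b c) (ball 0 1) :=
  (differentiableOn_dslope (ball_nhds (mem_ball_self one_pos))).2 (differentiableOn_pf ha hb)

theorem mul_qf (z : ℂ) : z * qf a b c z = pf a b c z - 1 := by
  have := sub_smul_dslope (pf a b c) 0 z
  simpa [pf_zero, qf] using this

theorem smul_mem_ball {t : ℝ} (ht : t ∈ Icc (0 : ℝ) 1) {z : ℂ} (hz : z ∈ ball (0 : ℂ) 1) :
    (t : ℂ) * z ∈ ball (0 : ℂ) 1 := by
  rw [mem_ball_zero_iff, norm_mul, norm_real, Real.norm_of_nonneg ht.1]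
  have := mem_ball_zero_iff.1 hz
  nlinarith [norm_nonneg z, ht.1, ht.2]

theorem hasDerivAt_Gf (ha : a ^ 2 < 1) (hb : b ^ 2 < 1) {z : ℂ} (hz : z ∈ ball (0 : ℂ) 1) :
    HasDerivAt (Gf a b c) (qf a b c z) z := by
  obtain ⟨g, hg0, hg⟩ := (differentiableOn_qf (c := c) ha hb).isExactOn_ball.with_val_at 0 0
  have he : ∀ w ∈ ball (0 : ℂ) 1, Gf a b c w = g w := by
    intro w hw
    have h1 : ∀ t ∈ uIcc (0 : ℝ) 1, HasDerivAt (fun t : ℝ => g (t * w)) (w * qf a b c (t * w)) t := by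
      intro t ht
      rw [uIcc_of_le zero_le_one] at ht
      have := (hg _ (smul_mem_ball ht hw)).comp_of_eq t
        (((hasDerivAt_id t).ofReal_comp).mul_const w) rfl
      exact this.congr_deriv (by simp; ring)
    have h2 : ContinuousOn (fun t : ℝ => w * qf a b c (t * w)) (uIcc 0 1) := by
      rw [uIcc_of_le zero_le_one]
      exact continuousOn_const.mul ((differentiableOn_qf ha hb).continuousOn.comp (by fun_prop)
        fun t ht => smul_mem_ball ht hw)
    rw [Gf, integral_eq_sub_of_hasDerivAt h1 h2.intervalIntegrable]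
    simp [hg0]
  refine (hg z hz).congr_of_eventuallyEq ?_
  filter_upwards [ball_nhds hz] with w hw using he w hw

theorem differentiableOn_Gf (ha : a ^ 2 < 1) (hb : b ^ 2 < 1) :
    DifferentiableOn ℂ (Gf a b c) (ball 0 1) :=
  fun _ hz => (hasDerivAt_Gf ha hb hz).differentiableAt.differentiableWithinAt

theorem Gf_zero : Gf a b c 0 = 0 := by simp [Gf]

theorem jet_Gf (ha : a ^ 2 < 1) (hb : b ^ 2 < 1) :
    deriv (Gf a b c) 0 = a + b - 2 * c ∧
    iteratedDeriv 2 (Gf a b c) 0 / 2 = (a - b) ^ 2 / 4 + (a + b - 2 * c) * (a + b) / 2 := by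
  have h00 : (0 : ℂ) ∈ ball (0 : ℂ) 1 := mem_ball_self one_pos
  refine ⟨by rw [(hasDerivAt_Gf ha hb h00).deriv, qf, dslope_same, (jet_pf ha hb).1], ?_⟩
  have h1 : iteratedDeriv 2 (Gf a b c) 0 = deriv (qf a b c) 0 := by
    have : iteratedDeriv 2 (Gf a b c) 0 = deriv (deriv (Gf a b c)) 0 := by
      simp [iteratedDeriv_succ]
    rw [this]
    exact (jet_congr fun z hz => (hasDerivAt_Gf ha hb hz).deriv).1
  have h2 := (jet2 (f := id) differentiableOn_id (differentiableOn_qf (c := c) ha hb)).2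
  have h3 : id * qf a b c = fun z => -1 + pf a b c z := by
    ext z; exact (mul_qf z).trans (by ring)
  have h4 : iteratedDeriv 2 (id : ℂ → ℂ) 0 = 0 := by simp [iteratedDeriv_succ]
  rw [h3, iteratedDeriv_const_add two_pos, (jet_pf ha hb).2, h4] at h2
  simp only [deriv_id, id] at h2
  rw [h1]
  linear_combination -h2 / 4

theorem norm_Qd_le (hc : c ^ 2 < 1) {w : ℂ} (hw : ‖w‖ ≤ 1) : ‖Qd c w‖ ≤ 4 := by
  have h1 : |c| ≤ 1 := by rw [abs_le]; constructor <;> nlinarith
  calc ‖Qd c w‖ ≤ ‖(1 : ℂ)‖ + ‖2 * (c : ℂ) * w‖ + ‖w ^ 2‖ :=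
        (norm_add_le _ _).trans (by gcongr; exact norm_sub_le _ _)
    _ ≤ 1 + 2 * 1 * 1 + 1 ^ 2 := by
        rw [norm_one, norm_mul, norm_mul, norm_pow, norm_real, Real.norm_eq_abs]
        simp only [Complex.norm_ofNat]
        gcongr
    _ = 4 := by norm_num

theorem qf_bound (ha : a ^ 2 < 1) (hb : b ^ 2 < 1) (hc : c ^ 2 < 1) (hab : a < b) :
    ∃ C, 0 ≤ C ∧ ∀ w ∈ ball (0 : ℂ) 1, ‖qf a b c w‖ ≤ C / √(1 - ‖w‖) := by
  obtain ⟨C₁, hC₁⟩ := (isCompact_closedBall (0 : ℂ) (1 / 2)).exists_bound_of_continuousOn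
    ((differentiableOn_qf (c := c) ha hb).continuousOn.mono (closedBall_subset_ball (by norm_num)))
  have hC₁0 : 0 ≤ C₁ := (norm_nonneg _).trans (hC₁ 0 (by simp))
  set μ := min √(1 - a ^ 2) √(1 - b ^ 2) with hμ
  have hμ0 : 0 < μ := lt_min (Real.sqrt_pos.2 (by linarith)) (Real.sqrt_pos.2 (by linarith))
  set ν := √((b - a) / 2 * μ) with hν
  have hν0 : 0 < ν := Real.sqrt_pos.2 (by have := sub_pos.2 hab; positivity)
  refine ⟨C₁ + 2 * (4 / ν + 1), by positivity, fun w hw => ?_⟩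
  have hw1 := mem_ball_zero_iff.1 hw
  have hs0 : 0 < √(1 - ‖w‖) := Real.sqrt_pos.2 (by linarith)
  have hs1 : √(1 - ‖w‖) ≤ 1 := Real.sqrt_le_one.2 (by linarith [norm_nonneg w])
  rw [le_div_iff₀ hs0]
  rcases le_total ‖w‖ (1 / 2) with h | h
  · have := hC₁ w (mem_closedBall_zero_iff.2 h)
    have h2 : 0 ≤ 2 * (4 / ν + 1) := by positivity
    nlinarith [norm_nonneg (qf a b c w)]
  · have h1 : (b - a) / 2 * μ * (1 - ‖w‖) ≤ ‖Qd a w‖ * ‖Qd b w‖ := by
      have e : Qd a w - Qd b w = ((2 * (b - a) : ℝ) : ℂ) * w := by simp only [Qd]; push_cast; ring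
      have l1 := norm_sub_le (Qd a w) (Qd b w)
      rw [e, norm_mul, norm_real, Real.norm_of_nonneg (by linarith)] at l1
      have l2 : μ * (1 - ‖w‖) ≤ ‖Qd a w‖ :=
        (mul_le_mul_of_nonneg_right (min_le_left _ _) (by linarith)).trans (norm_Qd_ge ha hw1.le)
      have l3 : μ * (1 - ‖w‖) ≤ ‖Qd b w‖ :=
        (mul_le_mul_of_nonneg_right (min_le_right _ _) (by linarith)).trans (norm_Qd_ge hb hw1.le)
      have l4 : b - a ≤ 2 * (b - a) * ‖w‖ := by nlinarith
      have l5 : 0 ≤ μ * (1 - ‖w‖) := mul_nonneg hμ0.le (by linarith)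
      rw [mul_assoc]
      rcases le_total ‖Qd a w‖ ‖Qd b w‖ with h' | h'
      · rw [mul_comm ‖Qd a w‖]
        exact mul_le_mul (by linarith) l2 l5 (norm_nonneg _)
      · exact mul_le_mul (by linarith) l3 l5 (norm_nonneg _)
    have h2 : ν * √(1 - ‖w‖) ≤ ‖Sq a w * Sq b w‖ := by
      rw [hν, ← Real.sqrt_mul (by have := sub_pos.2 hab; positivity)]
      apply Real.sqrt_le_iff.2 ⟨norm_nonneg _, ?_⟩
      rw [← norm_pow, mul_pow, Sq_sq, Sq_sq, norm_mul]
      exact h1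
    have h3 : ‖pf a b c w‖ * √(1 - ‖w‖) ≤ 4 / ν := by
      rw [pf, norm_div, div_mul_eq_mul_div, div_le_div_iff₀ ((mul_pos hν0 hs0).trans_le h2) hν0]
      · have := norm_Qd_le hc hw1.le
        calc ‖Qd c w‖ * √(1 - ‖w‖) * ν = ‖Qd c w‖ * (ν * √(1 - ‖w‖)) := by ring
          _ ≤ 4 * ‖Sq a w * Sq b w‖ := mul_le_mul this h2 (by positivity) (by norm_num)
    have h4 : ‖w‖ * ‖qf a b c w‖ ≤ ‖pf a b c w‖ + 1 := by
      rw [← norm_mul, mul_qf]
      exact (norm_sub_le _ _).trans (by simp)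
    have h5 : ‖qf a b c w‖ ≤ 2 * (‖pf a b c w‖ + 1) := by
      nlinarith [norm_nonneg (qf a b c w)]
    nlinarith [mul_le_mul_of_nonneg_right h5 hs0.le]

theorem continuousOn_Gf (ha : a ^ 2 < 1) (hb : b ^ 2 < 1) (hc : c ^ 2 < 1) (hab : a < b) :
    ContinuousOn (Gf a b c) (closedBall 0 1) := by
  obtain ⟨C, hC0, hC⟩ := qf_bound ha hb hc hab
  have hq := (differentiableOn_qf (c := c) ha hb).continuousOn
  have hmem : ∀ t ∈ Ioo (0 : ℝ) 1, ∀ z ∈ closedBall (0 : ℂ) 1,
      ‖(t : ℂ) * z‖ ≤ t ∧ (t : ℂ) * z ∈ ball (0 : ℂ) 1 := by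
    intro t ht z hz
    have h : ‖(t : ℂ) * z‖ ≤ t := by
      rw [norm_mul, norm_real, Real.norm_of_nonneg ht.1.le]
      exact mul_le_of_le_one_right ht.1.le (mem_closedBall_zero_iff.1 hz)
    exact ⟨h, mem_ball_zero_iff.2 (h.trans_lt ht.2)⟩
  have hae : ∀ᵐ t : ℝ, t ∈ uIoc (0 : ℝ) 1 → t ∈ Ioo (0 : ℝ) 1 := by
    have : ∀ᵐ t : ℝ, t ≠ 1 := by simp [MeasureTheory.ae_iff]
    filter_upwards [this] with t ht h
    rw [uIoc_of_le zero_le_one] at h
    exact ⟨h.1, lt_of_le_of_ne h.2 ht⟩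
  intro z₀ hz₀
  apply continuousWithinAt_of_dominated_interval (bound := fun t => C * (1 - t) ^ (-(1 / 2) : ℝ))
  · filter_upwards [self_mem_nhdsWithin] with z hz
    rw [uIoc_of_le zero_le_one, ← MeasureTheory.restrict_Ioo_eq_restrict_Ioc]
    exact (continuousOn_const.mul (hq.comp (by fun_prop)
      fun t ht => (hmem t ht z hz).2)).aestronglyMeasurable measurableSet_Ioo
  · filter_upwards [self_mem_nhdsWithin] with z hz
    filter_upwards [hae] with t ht ht'
    have ht := ht ht'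
    obtain ⟨h1, h2⟩ := hmem t ht z hz
    have h3 : 0 < 1 - t := sub_pos.2 ht.2
    rw [norm_mul, Real.rpow_neg h3.le, ← Real.sqrt_eq_rpow, ← div_eq_mul_inv]
    calc ‖z‖ * ‖qf a b c (t * z)‖ ≤ 1 * (C / √(1 - ‖(t : ℂ) * z‖)) :=
          mul_le_mul (mem_closedBall_zero_iff.1 hz) (hC _ h2) (norm_nonneg _) zero_le_one
      _ ≤ C / √(1 - t) := by
          rw [one_mul]
          exact div_le_div_of_nonneg_left hC0 (Real.sqrt_pos.2 h3)
            (Real.sqrt_le_sqrt (by linarith))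
  · have := (intervalIntegrable_rpow' (a := 1) (b := 0) (r := -(1 / 2)) (by norm_num)).comp_sub_left 1
    simpa using this.const_mul C
  · filter_upwards [hae] with t ht ht'
    exact (continuousOn_id.mul (hq.comp (by fun_prop)
      fun z hz => (hmem t (ht ht') z hz).2)) z₀ hz₀

theorem hasDerivAt_Gf_ci (ha : a ^ 2 < 1) (hb : b ^ 2 < 1) (hc : c ^ 2 < 1) (hab : a < b)
    {θ : ℝ} (h1 : Real.cos θ ≠ a) (h2 : Real.cos θ ≠ b) :
    HasDerivAt (fun θ => Gf a b c (ci θ)) (I * (pf a b c (ci θ) - 1)) θ := by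
  have hQ : ∀ e : ℝ, Real.cos θ ≠ e → Sq e (ci θ) ≠ 0 := by
    intro e he
    apply Sq_ne_of
    rw [Qd_ci]
    exact mul_ne_zero (by exact_mod_cast mul_ne_zero two_ne_zero (sub_ne_zero.2 he)) (ci_ne θ)
  have hp : ContinuousAt (pf a b c) (ci θ) :=
    (continuous_Qd c).continuousAt.div
      ((continuousAt_Sq ha (ci_mem θ)).mul (continuousAt_Sq hb (ci_mem θ)))
      (mul_ne_zero (hQ a h1) (hQ b h2))
  have hq : ContinuousAt (qf a b c) (ci θ) := (continuousAt_dslope_of_ne (ci_ne θ)).2 hp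
  let T : ℂ → ℂ →L[ℝ] ℂ := fun u => (ContinuousLinearMap.toSpanSingleton ℂ u).restrictScalars ℝ
  have hT : Continuous T := by
    have : T = fun u => ContinuousLinearMap.mul ℝ ℂ u := by
      ext u v; simp [T, mul_comm]
    rw [this]; fun_prop
  have hF := hasFDerivWithinAt_closure_of_tendsto_fderiv (f := Gf a b c) (s := ball 0 1)
    (x := ci θ) (f' := T (qf a b c (ci θ)))
    ((differentiableOn_Gf ha hb).restrictScalars ℝ) (convex_ball 0 1) isOpen_ball
    (fun y hy => ((continuousOn_Gf ha hb hc hab) y (closure_ball_subset_closedBall hy)).mono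
      ball_subset_closedBall)
    (by
      refine ((hT.continuousAt.tendsto.comp hq.tendsto).mono_left nhdsWithin_le_nhds).congr' ?_
      filter_upwards [self_mem_nhdsWithin] with y hy
      exact ((hasDerivAt_Gf ha hb hy).hasFDerivAt.restrictScalars ℝ).fderiv.symm)
  rw [closure_ball _ one_ne_zero] at hF
  have := hF.comp_hasDerivAt θ (hasDerivAt_ci θ) (Eventually.of_forall ci_mem)
  refine this.congr_deriv ?_
  rw [← mul_qf]
  simp [T]; ring

theorem Gf_conj (ha : a ^ 2 < 1) (hb : b ^ 2 < 1) {z : ℂ} (hz : z ∈ closedBall (0 : ℂ) 1) :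
    Gf a b c ((starRingEnd ℂ) z) = (starRingEnd ℂ) (Gf a b c z) := by
  rw [Gf, Gf, ← intervalIntegral_conj]
  apply integral_congr_ae
  refine Eventually.of_forall fun t ht => ?_
  rw [uIoc_of_le zero_le_one] at ht
  have ht0 : (t : ℂ) ≠ 0 := by exact_mod_cast ht.1.ne'
  have hm : (t : ℂ) * z ∈ closedBall (0 : ℂ) 1 := by
    rw [mem_closedBall_zero_iff, norm_mul, norm_real, Real.norm_of_nonneg ht.1.le]
    exact mul_le_one₀ ht.2 (norm_nonneg _) (mem_closedBall_zero_iff.1 hz)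
  have e : (t : ℂ) * (starRingEnd ℂ) z = (starRingEnd ℂ) (t * z) := by simp
  apply mul_left_cancel₀ ht0
  have h1 : (t : ℂ) * (starRingEnd ℂ) (z * qf a b c (t * z))
      = (starRingEnd ℂ) (t * z * qf a b c (t * z)) := by simp; ring
  rw [h1, ← mul_assoc, mul_qf, mul_qf, e, pf, pf, Qd_conj, Sq_conj ha hm, Sq_conj hb hm]
  simp

theorem pf_re_pos (ha : a ^ 2 < 1) (hb : b ^ 2 < 1) (hac : a ≤ c) (hcb : c ≤ b) {z : ℂ}
    (hz : z ∈ ball (0 : ℂ) 1) : 0 < (pf a b c z).re := by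
  have hne : ∀ w ∈ ball (0 : ℂ) 1, (pf a b c w).re ≠ 0 := by
    intro w hw h
    by_cases hw0 : w = 0
    · rw [hw0, pf_zero] at h; simp at h
    set τ := (pf a b c w).im ^ 2 with hτ
    have hτ0 : 0 ≤ τ := sq_nonneg _
    have h1 : pf a b c w ^ 2 = -(τ : ℂ) := by
      apply Complex.ext
      · simp [pow_two, h, hτ]
      · simp [pow_two, h]
    have h2 : Qd c w ^ 2 + τ * (Qd a w * Qd b w) = 0 := by
      rw [pf, div_pow, div_eq_iff (pow_ne_zero _ (mul_ne_zero (Sq_ne ha hw) (Sq_ne hb hw))),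
        mul_pow, Sq_sq, Sq_sq] at h1
      linear_combination h1
    set v := (w + w⁻¹) / 2 with hv
    have hQ : ∀ e : ℝ, Qd e w = 2 * w * (v - e) := by
      intro e; rw [Qd, hv]; field_simp; ring
    have h3 : (v - c) ^ 2 + τ * ((v - a) * (v - b)) = 0 := by
      rw [hQ, hQ, hQ] at h2
      have : (2 * w) ^ 2 * ((v - c) ^ 2 + τ * ((v - a) * (v - b))) = 0 := by
        linear_combination h2
      exact (mul_eq_zero.1 this).resolve_left (pow_ne_zero _ (mul_ne_zero two_ne_zero hw0))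
    have h4 := congrArg re h3
    have h5 := congrArg im h3
    simp [pow_two] at h4 h5
    have hcc : τ * ((c - a) * (c - b)) ≤ 0 :=
      mul_nonpos_of_nonneg_of_nonpos hτ0
        (mul_nonpos_of_nonneg_of_nonpos (by linarith) (by linarith))
    have hvi : v.im = 0 := by
      by_contra hvi
      have h6 : 2 * (v.re - c) + τ * (2 * v.re - a - b) = 0 := by
        apply mul_left_cancel₀ hvi; linear_combination h5
      have h7 : 0 < v.im ^ 2 := by positivity
      have h8 : τ * ((c - a) * (c - b)) = (1 + τ) * v.im ^ 2 + (1 + τ) * (c - v.re) ^ 2 := by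
        linear_combination h4 + (c - v.re) * h6
      have : 0 < (1 + τ) * v.im ^ 2 := by positivity
      have : 0 ≤ (1 + τ) * (c - v.re) ^ 2 := by positivity
      linarith
    have hN : 0 < normSq w := normSq_pos.2 hw0
    have hN1 : normSq w < 1 := by
      rw [normSq_eq_norm_sq]
      have := mem_ball_zero_iff.1 hw
      nlinarith [norm_nonneg w]
    have hwi : w.im = 0 := by
      have : v.im = w.im * (1 - 1 / normSq w) / 2 := by
        simp [hv, inv_im]; ring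
      rw [this] at hvi
      have h6 : 1 - 1 / normSq w ≠ 0 := by
        have : 1 < 1 / normSq w := by rw [lt_div_iff₀ hN]; linarith
        linarith
      have : w.im * (1 - 1 / normSq w) = 0 := by linarith
      exact (mul_eq_zero.1 this).resolve_right h6
    have hNe : normSq w = w.re ^ 2 := by rw [normSq_apply, hwi]; ring
    have hr0 : w.re ≠ 0 := by rintro h; rw [h] at hNe; linarith
    have hvr : 1 < v.re ^ 2 := by
      have : v.re = (w.re + 1 / w.re) / 2 := by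
        simp [hv, inv_re, hNe]; field_simp
      have h6 : v.re ^ 2 - 1 = ((1 - w.re ^ 2) / (2 * w.re)) ^ 2 := by
        rw [this]; field_simp; ring
      have h7 : 0 < ((1 - w.re ^ 2) / (2 * w.re)) ^ 2 := by
        have : (1 - w.re ^ 2) / (2 * w.re) ≠ 0 := div_ne_zero (by linarith) (by simpa using hr0)
        positivity
      linarith
    rw [hvi] at h4
    have a1 : -1 < a := by nlinarith
    have b1 : b < 1 := by nlinarith
    rcases le_total 0 v.re with h6 | h6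
    · have : 1 < v.re := by nlinarith
      have : 0 ≤ τ * ((v.re - a) * (v.re - b)) :=
        mul_nonneg hτ0 (mul_nonneg (by linarith) (by linarith))
      nlinarith
    · have : v.re < -1 := by nlinarith
      have : 0 ≤ τ * ((v.re - a) * (v.re - b)) :=
        mul_nonneg hτ0 (mul_nonneg_of_nonpos_of_nonpos (by linarith) (by linarith))
      nlinarith
  by_contra hneg
  have hc : ContinuousOn (fun t : ℝ => (pf a b c (t * z)).re) (Icc 0 1) :=
    continuous_re.comp_continuousOn ((differentiableOn_pf ha hb).continuousOn.comp (by fun_prop)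
      fun t ht => smul_mem_ball ht hz)
  obtain ⟨t, ht, h⟩ := intermediate_value_Icc' zero_le_one hc
    (show (0 : ℝ) ∈ _ from ⟨by simpa using hneg, by simp [pf_zero]⟩)
  exact hne _ (smul_mem_ball ht hz) h

end Pool.Agent.Lib.MP_03314f_an
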