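import Mathlib
import Pool.Agent.Lib.MP_03314f_an.Extremal

/-! The certificate attached to a two-slit function. -/

namespace Pool.Agent.Lib.MP_03314f_an

open Metric Set Filter Topology Complex intervalIntegral
open scoped Real

structure Gap (a b c d : ℝ) : Prop where
  ha : a ^ 2 < 1
  hb : b ^ 2 < 1
  hab : a < b
  hac : a ≤ c
  hcb : c ≤ b
  had : a ≤ d
  hdb : d ≤ b
  par : ∃ (t ω : ℝ → ℝ) (u v : ℝ), u ≤ v ∧ ContinuousOn t (Icc u v) ∧ t u = a ∧ t v = b ∧
    (∀ x ∈ Ioo u v, a < t x ∧ t x < b ∧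
      HasDerivAt t (ω x * √(1 - t x ^ 2) * (√(2 * (t x - a)) * √(2 * (b - t x)))) x) ∧
    ContinuousOn ω (Icc u v) ∧ ∫ x in u..v, (t x - c) * ω x = 0 ∧
    ∫ x in u..v, (t x - d) * ((t x - a) * (b - t x)) * ω x = 0

variable {a b c d θ : ℝ}

theorem R_I (ha : a ^ 2 < 1) (hb : b ^ 2 < 1) (hθ : θ ∈ Icc 0 π) (h1 : a ≤ Real.cos θ)
    (h2 : b ≤ Real.cos θ) : Sq a (ci θ) * Sq b (ci θ)
      = ((√(2 * (Real.cos θ - a)) * √(2 * (Real.cos θ - b)) : ℝ) : ℂ) * ci θ := by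
  rw [Sq_ci_ge ha hθ h1, Sq_ci_ge hb hθ h2, ← ci_half θ, ofReal_mul]; ring

theorem R_II (ha : a ^ 2 < 1) (hb : b ^ 2 < 1) (hθ : θ ∈ Icc 0 π) (h1 : a ≤ Real.cos θ)
    (h2 : Real.cos θ ≤ b) : Sq a (ci θ) * Sq b (ci θ)
      = ((√(2 * (Real.cos θ - a)) * √(2 * (b - Real.cos θ)) : ℝ) : ℂ) * -I * ci θ := by
  rw [Sq_ci_ge ha hθ h1, Sq_ci_le hb hθ h2, ← ci_half θ, ofReal_mul]; ring

theorem R_III (ha : a ^ 2 < 1) (hb : b ^ 2 < 1) (hθ : θ ∈ Icc 0 π) (h1 : Real.cos θ ≤ a)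
    (h2 : Real.cos θ ≤ b) : Sq a (ci θ) * Sq b (ci θ)
      = ((-(√(2 * (a - Real.cos θ)) * √(2 * (b - Real.cos θ))) : ℝ) : ℂ) * ci θ := by
  rw [Sq_ci_le ha hθ h1, Sq_ci_le hb hθ h2, ← ci_half θ, ofReal_neg, ofReal_mul]
  linear_combination ((√(2 * (a - Real.cos θ)) : ℝ) * (√(2 * (b - Real.cos θ)) : ℝ)
    * ci (θ / 2) ^ 2 : ℂ) * I_sq

theorem pf_real {ρ : ℝ} (h : Sq a (ci θ) * Sq b (ci θ) = (ρ : ℂ) * ci θ) :
    pf a b c (ci θ) = ((2 * (Real.cos θ - c) / ρ : ℝ) : ℂ) := by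
  rw [pf, h, Qd_ci, mul_div_mul_right _ _ (ci_ne θ), ofReal_div]

theorem pf_imag {ρ : ℝ} (h : Sq a (ci θ) * Sq b (ci θ) = (ρ : ℂ) * -I * ci θ) :
    pf a b c (ci θ) = ((2 * (Real.cos θ - c) / ρ : ℝ) : ℂ) * I := by
  rw [pf, h, Qd_ci, mul_div_mul_right _ _ (ci_ne θ), ofReal_div, ← div_div, div_neg, div_I]
  ring

theorem psi_real {ρ : ℝ} (h : Sq a (ci θ) * Sq b (ci θ) = (ρ : ℂ) * ci θ) :
    psiH (Hf a b d) θ = ((2 * (Real.cos θ - d) * ρ : ℝ) : ℂ) := by
  rw [psiH, Hf, h, Qd_ci, div_eq_iff (pow_ne_zero _ (ci_ne θ)), ofReal_mul _ ρ]; ring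

theorem psi_imag {ρ : ℝ} (h : Sq a (ci θ) * Sq b (ci θ) = (ρ : ℂ) * -I * ci θ) :
    psiH (Hf a b d) θ = ((2 * (Real.cos θ - d) * ρ : ℝ) : ℂ) * -I := by
  rw [psiH, Hf, h, Qd_ci, div_eq_iff (pow_ne_zero _ (ci_ne θ)), ofReal_mul _ ρ]; ring

theorem diffContOnCl_Hf (ha : a ^ 2 < 1) (hb : b ^ 2 < 1) :
    DiffContOnCl ℂ (Hf a b d) (ball 0 1) :=
  diffContOnCl_of ((differentiable_Qd d).differentiableOn.mul
    ((differentiableOn_Sq ha).mul (differentiableOn_Sq hb)))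
    ((continuous_Qd d).continuousOn.mul ((continuousOn_Sq ha).mul (continuousOn_Sq hb)))

theorem jet_Hf (ha : a ^ 2 < 1) (hb : b ^ 2 < 1) :
    Hf a b d 0 = 1 ∧ deriv (Hf a b d) 0 = ((-2 * d - a - b : ℝ) : ℂ) ∧
    iteratedDeriv 2 (Hf a b d) 0 / 2 = ((2 + 2 * d * (a + b) - (a - b) ^ 2 / 2 : ℝ) : ℂ) := by
  have h := jet2 (differentiable_Qd d).differentiableOn
    ((differentiableOn_Sq ha).mul (differentiableOn_Sq hb))
  rw [(jet_Qd d).1, (jet_Qd d).2, (jet_R ha hb).1, (jet_R ha hb).2, Qd_zero] at h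
  simp only [Pi.mul_apply, Sq_zero] at h
  have e : Hf a b d = Qd d * (Sq a * Sq b) := rfl
  refine ⟨by simp [Hf, Qd_zero, Sq_zero], ?_, ?_⟩
  · rw [e, h.1]; push_cast; ring
  · rw [e, h.2]; push_cast; ring

theorem le_cos_iff {e : ℝ} (he : e ^ 2 < 1) (hθ : θ ∈ Icc 0 π) :
    e ≤ Real.cos θ ↔ θ ≤ Real.arccos e := by
  have h1 : -1 ≤ e := by nlinarith
  have h2 : e ≤ 1 := by nlinarith
  conv_lhs => rw [← Real.cos_arccos h1 h2]
  exact Real.strictAntiOn_cos.le_iff_ge ⟨Real.arccos_nonneg e, Real.arccos_le_pi e⟩ hθ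

theorem cos_le_iff {e : ℝ} (he : e ^ 2 < 1) (hθ : θ ∈ Icc 0 π) :
    Real.cos θ ≤ e ↔ Real.arccos e ≤ θ := by
  have h1 : -1 ≤ e := by nlinarith
  have h2 : e ≤ 1 := by nlinarith
  conv_lhs => rw [← Real.cos_arccos h1 h2]
  exact Real.strictAntiOn_cos.le_iff_ge hθ ⟨Real.arccos_nonneg e, Real.arccos_le_pi e⟩

theorem Gap.main (h : Gap a b c d) :
    (∀ z ∈ ball (0 : ℂ) 1, (Gf a b c z).re ≤ (Gf a b c 1).re) ∧
    ∀ L g, GClass L g →
      (iteratedDeriv 2 g 0 / 2).re + (-2 * d - a - b) * (deriv g 0).re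
        ≤ (a - b) ^ 2 / 4 + (a + b - 2 * c) * (a + b) / 2 + (-2 * d - a - b) * (a + b - 2 * c)
          + (L - (Gf a b c 1).re) * (2 + 2 * d * (a + b) - (a - b) ^ 2 / 2) := by
  obtain ⟨ha, hb, hab, hac, hcb, had, hdb, t, ω, u, v, huv, htc, htu, htv, htd, hωc, i1, i2⟩ := h
  have hc : c ^ 2 < 1 := by
    have : -1 < a := by nlinarith
    have : b < 1 := by nlinarith
    nlinarith
  set Λ := (Gf a b c 1).re with hΛ
  set θa := Real.arccos a with hθa
  set θb := Real.arccos b with hθb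
  have ma : θa ∈ Icc 0 π := ⟨Real.arccos_nonneg a, Real.arccos_le_pi a⟩
  have mb : θb ∈ Icc 0 π := ⟨Real.arccos_nonneg b, Real.arccos_le_pi b⟩
  have hba : θb ≤ θa := Real.arccos_le_arccos hab.le
  have hG : DiffContOnCl ℂ (Gf a b c) (ball 0 1) :=
    diffContOnCl_of (differentiableOn_Gf ha hb) (continuousOn_Gf ha hb hc hab)
  have hH : DiffContOnCl ℂ (Hf a b d) (ball 0 1) := diffContOnCl_Hf ha hb
  have cG := continuous_circ hG
  have cU : Continuous fun θ => (Gf a b c (ci θ)).re := continuous_re.comp cG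
  have cV : Continuous fun θ => (Gf a b c (ci θ)).im + θ :=
    (continuous_im.comp cG).add continuous_id
  have cW := continuous_WH hH
  have dU : ∀ θ, Real.cos θ ≠ a → Real.cos θ ≠ b →
      HasDerivAt (fun θ => (Gf a b c (ci θ)).re) (-(pf a b c (ci θ)).im) θ := by
    intro θ h1 h2
    exact (reCLM.hasFDerivAt.comp_hasDerivAt θ
      (hasDerivAt_Gf_ci ha hb hc hab h1 h2)).congr_deriv (by simp)
  have dV : ∀ θ, Real.cos θ ≠ a → Real.cos θ ≠ b →
      HasDerivAt (fun θ => (Gf a b c (ci θ)).im + θ) ((pf a b c (ci θ)).re) θ := by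
    intro θ h1 h2
    exact ((imCLM.hasFDerivAt.comp_hasDerivAt θ
      (hasDerivAt_Gf_ci ha hb hc hab h1 h2)).add (hasDerivAt_id θ)).congr_deriv (by simp)
  have sI : ∀ θ, 0 ≤ θ → θ < θb → θ ∈ Icc 0 π ∧ b < Real.cos θ := by
    intro θ h1 h2
    have m : θ ∈ Icc 0 π := ⟨h1, h2.le.trans mb.2⟩
    exact ⟨m, lt_of_not_ge fun h => h2.not_ge ((cos_le_iff hb m).1 h)⟩
  have sII : ∀ θ, θb < θ → θ < θa → θ ∈ Icc 0 π ∧ a < Real.cos θ ∧ Real.cos θ < b := by
    intro θ h1 h2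
    have m : θ ∈ Icc 0 π := ⟨mb.1.trans h1.le, h2.le.trans ma.2⟩
    exact ⟨m, lt_of_not_ge fun h => h2.not_ge ((cos_le_iff ha m).1 h),
      lt_of_not_ge fun h => h1.not_ge ((le_cos_iff hb m).1 h)⟩
  have sIII : ∀ θ, θa < θ → θ ≤ π → θ ∈ Icc 0 π ∧ Real.cos θ < a := by
    intro θ h1 h2
    have m : θ ∈ Icc 0 π := ⟨ma.1.trans h1.le, h2⟩
    exact ⟨m, lt_of_not_ge fun h => h1.not_ge ((le_cos_iff ha m).1 h)⟩
  have U1 : ∀ θ ∈ Icc 0 θb, (Gf a b c (ci θ)).re = Λ := by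
    intro θ hθ
    have := eq_of_deriv_zero (u := fun θ => (Gf a b c (ci θ)).re) hθ.1 cU.continuousOn
      fun x hx => by
        obtain ⟨m, h1⟩ := sI x hx.1.le (hx.2.trans_le hθ.2)
        refine (dU x (by linarith) h1.ne').congr_deriv ?_
        rw [pf_real (R_I ha hb m (by linarith) h1.le), ofReal_im, neg_zero]
    simpa [ci] using this
  have W1 : ∀ θ ∈ Icc 0 θb, WH (Hf a b d) θ = 0 := by
    intro θ hθ
    have := eq_of_deriv_zero (u := WH (Hf a b d)) hθ.1 cW.continuousOn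
      fun x hx => by
        obtain ⟨m, h1⟩ := sI x hx.1.le (hx.2.trans_le hθ.2)
        refine (hasDerivAt_WH hH x).congr_deriv ?_
        rw [psi_real (R_I ha hb m (by linarith) h1.le), ofReal_im, neg_zero]
    simpa [WH] using this
  have dθ : ∀ x ∈ Ioo u v, Real.cos (Real.arccos (t x)) = t x ∧
      Real.arccos (t x) ∈ Icc 0 π ∧ HasDerivAt (fun x => Real.arccos (t x))
      (-(ω x * (√(2 * (t x - a)) * √(2 * (b - t x))))) x := by
    intro x hx
    obtain ⟨h1, h2, h3⟩ := htd x hx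
    have l1 : -1 < t x := by nlinarith
    have l2 : t x < 1 := by nlinarith
    refine ⟨Real.cos_arccos l1.le l2.le, ⟨Real.arccos_nonneg _, Real.arccos_le_pi _⟩, ?_⟩
    refine ((Real.hasDerivAt_arccos l1.ne' l2.ne).comp x h3).congr_deriv ?_
    have : √(1 - t x ^ 2) ≠ 0 := (Real.sqrt_pos.2 (by nlinarith)).ne'
    field_simp
  have cθ : ContinuousOn (fun x => Real.arccos (t x)) (Icc u v) :=
    Real.continuous_arccos.comp_continuousOn htc
  have U2 : (Gf a b c (ci θa)).re = Λ := by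
    have := integral_eq_sub_of_hasDerivAt_of_le huv (cU.comp_continuousOn cθ)
      (f' := fun x => 2 * ((t x - c) * ω x)) (fun x hx => by
        obtain ⟨h1, h2, -⟩ := htd x hx
        obtain ⟨e, m, h3⟩ := dθ x hx
        refine ((dU _ (by rw [e]; exact h1.ne') (by rw [e]; exact h2.ne)).comp x h3).congr_deriv ?_
        rw [pf_imag (R_II ha hb m (by rw [e]; exact h1.le) (by rw [e]; exact h2.le)), e]
        have : √(2 * (t x - a)) ≠ 0 := (Real.sqrt_pos.2 (by linarith)).ne'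
        have : √(2 * (b - t x)) ≠ 0 := (Real.sqrt_pos.2 (by linarith)).ne'
        rw [im_ofReal_mul, I_im]
        field_simp)
      (ContinuousOn.intervalIntegrable_of_Icc huv
        (continuousOn_const.mul ((htc.sub continuousOn_const).mul hωc)))
    rw [intervalIntegral.integral_const_mul, i1] at this
    simp only [Function.comp, htu, htv] at this
    have h2 := U1 θb ⟨mb.1, le_rfl⟩
    linarith
  have W2 : WH (Hf a b d) θa = 0 := by
    have := integral_eq_sub_of_hasDerivAt_of_le huv (cW.comp_continuousOn cθ)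
      (f' := fun x => -8 * ((t x - d) * ((t x - a) * (b - t x)) * ω x)) (fun x hx => by
        obtain ⟨h1, h2, -⟩ := htd x hx
        obtain ⟨e, m, h3⟩ := dθ x hx
        refine ((hasDerivAt_WH hH _).comp x h3).congr_deriv ?_
        rw [psi_imag (R_II ha hb m (by rw [e]; exact h1.le) (by rw [e]; exact h2.le)), e]
        have e1 : √(2 * (t x - a)) ^ 2 = 2 * (t x - a) := Real.sq_sqrt (by linarith)
        have e2 : √(2 * (b - t x)) ^ 2 = 2 * (b - t x) := Real.sq_sqrt (by linarith)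
        rw [im_ofReal_mul, neg_im, I_im]
        linear_combination (-2 * (t x - d) * ω x * √(2 * (b - t x)) ^ 2) * e1
          + (-4 * (t x - d) * ω x * (t x - a)) * e2)
      (ContinuousOn.intervalIntegrable_of_Icc huv
        (continuousOn_const.mul (((htc.sub continuousOn_const).mul
          ((htc.sub continuousOn_const).mul (continuousOn_const.sub htc))).mul hωc)))
    rw [intervalIntegral.integral_const_mul, i2] at this
    simp only [Function.comp, htu, htv] at this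
    have h2 := W1 θb ⟨mb.1, le_rfl⟩
    linarith
  have U3 : ∀ θ ∈ Icc θa π, (Gf a b c (ci θ)).re = Λ := by
    intro θ hθ
    rw [← U2]
    exact eq_of_deriv_zero (u := fun θ => (Gf a b c (ci θ)).re) hθ.1 cU.continuousOn
      fun x hx => by
        obtain ⟨m, h1⟩ := sIII x hx.1 (hx.2.le.trans hθ.2)
        refine (dU x h1.ne (by linarith)).congr_deriv ?_
        rw [pf_real (R_III ha hb m h1.le (by linarith)), ofReal_im, neg_zero]
  have W3 : ∀ θ ∈ Icc θa π, WH (Hf a b d) θ = 0 := by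
    intro θ hθ
    rw [← W2]
    exact eq_of_deriv_zero (u := WH (Hf a b d)) hθ.1 cW.continuousOn
      fun x hx => by
        obtain ⟨m, h1⟩ := sIII x hx.1 (hx.2.le.trans hθ.2)
        refine (hasDerivAt_WH hH x).congr_deriv ?_
        rw [psi_real (R_III ha hb m h1.le (by linarith)), ofReal_im, neg_zero]
  have anti : ∀ x ∈ Ioo θb θa, ∀ y ∈ Ioo θb θa, x ≤ y → Real.cos y ≤ Real.cos x :=
    fun x hx y hy hxy => Real.strictAntiOn_cos.antitoneOn (sII x hx.1 hx.2).1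
      (sII y hy.1 hy.2).1 hxy
  have U4 : ∀ θ ∈ Icc θb θa, (Gf a b c (ci θ)).re ≤ Λ := by
    intro θ hθ
    have := unimodal (u := fun θ => -(Gf a b c (ci θ)).re)
      (u' := fun θ => 2 * (Real.cos θ - c) / (√(2 * (Real.cos θ - a)) * √(2 * (b - Real.cos θ))))
      cU.neg.continuousOn (fun x hx => by
        obtain ⟨m, h1, h2⟩ := sII x hx.1 hx.2
        refine (dU x h1.ne' h2.ne).neg.congr_deriv ?_
        rw [pf_imag (R_II ha hb m h1.le h2.le), im_ofReal_mul, I_im]; ring)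
      (fun x hx y hy hxy h => by
        have h1 : 2 * (Real.cos x - c) < 0 := by
          by_contra h'
          exact h.not_ge (div_nonneg (not_lt.1 h') (by positivity))
        exact div_nonpos_of_nonpos_of_nonneg (by linarith [anti x hx y hy hxy]) (by positivity))
      (by simp only [U2, U1 θb ⟨mb.1, le_rfl⟩]) θ hθ
    simp only [U1 θb ⟨mb.1, le_rfl⟩] at this
    linarith
  have W4 : ∀ θ ∈ Icc θb θa, 0 ≤ WH (Hf a b d) θ := by
    intro θ hθ
    have := unimodal (u := WH (Hf a b d))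
      (u' := fun θ => 2 * (Real.cos θ - d) * (√(2 * (Real.cos θ - a)) * √(2 * (b - Real.cos θ))))
      cW.continuousOn (fun x hx => by
        obtain ⟨m, h1, h2⟩ := sII x hx.1 hx.2
        refine (hasDerivAt_WH hH x).congr_deriv ?_
        rw [psi_imag (R_II ha hb m h1.le h2.le), im_ofReal_mul, neg_im, I_im]; ring)
      (fun x hx y hy hxy h => by
        have h1 : 2 * (Real.cos x - d) < 0 := by
          by_contra h'
          exact h.not_ge (mul_nonneg (not_lt.1 h') (by positivity))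
        exact mul_nonpos_of_nonpos_of_nonneg (by linarith [anti x hx y hy hxy]) (by positivity))
      (by rw [W2, W1 θb ⟨mb.1, le_rfl⟩]) θ hθ
    rwa [W1 θb ⟨mb.1, le_rfl⟩] at this
  have V1 : ∀ θ ∈ Icc θb θa, (Gf a b c (ci θ)).im + θ = (Gf a b c (ci θb)).im + θb := by
    intro θ hθ
    exact eq_of_deriv_zero (u := fun θ => (Gf a b c (ci θ)).im + θ) hθ.1 cV.continuousOn
      fun x hx => by
        obtain ⟨m, h1, h2⟩ := sII x hx.1 (hx.2.trans_le hθ.2)
        refine (dV x h1.ne' h2.ne).congr_deriv ?_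
        rw [pf_imag (R_II ha hb m h1.le h2.le), re_ofReal_mul, I_re, mul_zero]
  have sG : ∀ θ, Gf a b c (ci (-θ)) = (starRingEnd ℂ) (Gf a b c (ci θ)) := fun θ => by
    rw [ci_neg, Gf_conj ha hb (ci_mem θ)]
  have cases3 : ∀ θ ∈ Icc 0 π, (θ ∈ Icc 0 θb ∧ a ≤ Real.cos θ ∧ b ≤ Real.cos θ) ∨
      (θ ∈ Icc θb θa ∧ a ≤ Real.cos θ ∧ Real.cos θ ≤ b) ∨
      (θ ∈ Icc θa π ∧ Real.cos θ ≤ a ∧ Real.cos θ ≤ b) := by
    intro θ hθ
    rcases le_total θ θb with h | h
    · have := (le_cos_iff hb hθ).2 h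
      exact Or.inl ⟨⟨hθ.1, h⟩, by linarith, this⟩
    rcases le_total θ θa with h' | h'
    · exact Or.inr (Or.inl ⟨⟨h, h'⟩, (le_cos_iff ha hθ).2 h', (cos_le_iff hb hθ).2 h⟩)
    · exact Or.inr (Or.inr ⟨⟨h', hθ.2⟩, (cos_le_iff ha hθ).2 h', (cos_le_iff hb hθ).2 h⟩)
  constructor
  · intro z hz
    have hb1 : ∀ θ ∈ Icc 0 π, (Gf a b c (ci θ)).re ≤ Λ := by
      intro θ hθ
      rcases cases3 θ hθ with h | h | h
      · exact (U1 θ h.1).le
      · exact U4 θ h.1
      · exact (U3 θ h.1).le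
    have hE : DiffContOnCl ℂ (fun z => exp (Gf a b c z)) (ball 0 1) :=
      ⟨hG.differentiableOn.cexp, hG.continuousOn.cexp⟩
    have := norm_le_of_forall_mem_frontier_norm_le isBounded_ball hE (C := Real.exp Λ)
      (fun w hw => by
        rw [frontier_ball _ one_ne_zero, mem_sphere_zero_iff_norm] at hw
        have e : w = ci (arg w) := by
          rw [ci]; conv_lhs => rw [← norm_mul_exp_arg_mul_I w, hw]
          simp
        rw [norm_exp, Real.exp_le_exp, e]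
        rcases le_total 0 (arg w) with h | h
        · exact hb1 _ ⟨h, arg_le_pi w⟩
        · have := hb1 (-arg w) ⟨by linarith, by linarith [neg_pi_lt_arg w]⟩
          rwa [sG, conj_re] at this) (subset_closure hz)
    rwa [norm_exp, Real.exp_le_exp] at this
  · intro L g hg
    have key := certificate (Λ := Λ) (κ := (Gf a b c (ci θb)).im + θb) hg hG Gf_zero hH
      (fun θ => by
        rw [ci_neg, Hf, Hf, Qd_conj, Sq_conj ha (ci_mem θ), Sq_conj hb (ci_mem θ)]; simp) sG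
      (fun θ hθ => by
        rcases cases3 θ hθ with h | h | h
        · rw [psi_real (R_I ha hb hθ h.2.1 h.2.2), ofReal_re]
          exact mul_nonneg (by linarith [h.2.2]) (by positivity)
        · rw [psi_imag (R_II ha hb hθ h.2.1 h.2.2), re_ofReal_mul]; simp
        · rw [psi_real (R_III ha hb hθ h.2.1 h.2.2), ofReal_re]
          exact mul_nonneg_of_nonpos_of_nonpos (by linarith [h.2.1])
            (neg_nonpos.2 (by positivity)))
      (fun θ hθ => by
        rcases cases3 θ hθ with h | h | h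
        · rw [U1 θ h.1, sub_self, zero_mul]
        · rw [psi_imag (R_II ha hb hθ h.2.1 h.2.2), re_ofReal_mul]; simp
        · rw [U3 θ h.1, sub_self, zero_mul])
      (fun θ hθ => by
        rcases cases3 θ hθ with h | h | h
        · rw [psi_real (R_I ha hb hθ h.2.1 h.2.2), ofReal_im, mul_zero]
        · rw [V1 θ h.1, sub_self, zero_mul]
        · rw [psi_real (R_III ha hb hθ h.2.1 h.2.2), ofReal_im, mul_zero])
      (fun θ hθ => by
        rcases cases3 θ hθ with h | h | h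
        · exact (W1 θ h.1).ge
        · exact W4 θ h.1
        · exact (W3 θ h.1).ge)
      (by rw [W3 π ⟨ma.2, le_rfl⟩, mul_zero])
    obtain ⟨j0, j1, j2⟩ := jet_Hf (d := d) ha hb
    obtain ⟨k1, k2⟩ := jet_Gf (c := c) ha hb
    have k1' : deriv (Gf a b c) 0 = ((a + b - 2 * c : ℝ) : ℂ) := by rw [k1]; push_cast; ring
    have k2' : iteratedDeriv 2 (Gf a b c) 0 / 2
        = (((a - b) ^ 2 / 4 + (a + b - 2 * c) * (a + b) / 2 : ℝ) : ℂ) := by
      rw [k2]; push_cast; ring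
    rw [lin, lin, j0, j1, j2, k1', k2', mul_one, mul_one, add_re, add_re, re_mul_ofReal,
      ← ofReal_mul, ofReal_re, ofReal_re, ofReal_re] at key
    linarith

theorem Gap.pos (h : Gap a b c d) :
    ∀ z ∈ ball (0 : ℂ) 1, 0 < (1 + z * deriv (Gf a b c) z).re := by
  intro z hz
  rw [(hasDerivAt_Gf h.ha h.hb hz).deriv, mul_qf, add_sub_cancel]
  exact pf_re_pos h.ha h.hb h.hac h.hcb hz

theorem Gap.gclass (h : Gap a b c d) : GClass (Gf a b c 1).re (Gf a b c) :=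
  ⟨differentiableOn_Gf h.ha h.hb, Gf_zero, h.main.1, fun z hz => (h.pos z hz).le⟩

end Pool.Agent.Lib.MP_03314f_an
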