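import Mathlib

/-! A small verified checker for positivity of integer polynomials in three variables on boxes. -/

namespace Pool.Agent.Lib.MP_03314f_an

section generic
variable {α : Type}

def ladd (add : α → α → α) : List α → List α → List α
  | [], q => q
  | a :: p, [] => a :: p
  | a :: p, b :: q => add a b :: ladd add p q

def lstep (add : α → α → α) (sm : Int → α → α) (c : Int) (a : α) (q : List α) : List α :=
  ladd add (a :: q) (q.map (sm c))

def lshift (add : α → α → α) (sm : Int → α → α) (c : Int) : List α → List α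
  | [] => []
  | a :: l => lstep add sm c a (lshift add sm c l)

def leval (ev : α → ℝ) (x : ℝ) : List α → ℝ
  | [] => 0
  | a :: l => ev a + x * leval ev x l

def negPart : Int → Int
  | Int.ofNat _ => 0
  | Int.negSucc n => Int.negSucc n

def llb (lb : α → Int) (w : Int) : List α → Int
  | [] => 0
  | a :: l => Int.add (lb a) (Int.mul w (negPart (llb lb w l)))

theorem negPart_le (a : Int) : negPart a ≤ a ∧ negPart a ≤ 0 := by
  cases a with
  | ofNat n => simp [negPart]
  | negSucc n => exact ⟨le_rfl, (Int.negSucc_lt_zero n).le⟩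

theorem leval_ladd (ev : α → ℝ) (add : α → α → α) (h : ∀ a b, ev (add a b) = ev a + ev b)
    (x : ℝ) : ∀ p q : List α, leval ev x (ladd add p q) = leval ev x p + leval ev x q
  | [], q => by simp [ladd, leval]
  | a :: p, [] => by simp [ladd, leval]
  | a :: p, b :: q => by
    simp only [ladd, leval, h, leval_ladd ev add h x p q]; ring

theorem leval_map_sm (ev : α → ℝ) (f : α → α) (c : ℝ) (h : ∀ a, ev (f a) = c * ev a)
    (x : ℝ) : ∀ p : List α, leval ev x (p.map f) = c * leval ev x p
  | [] => by simp [leval]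
  | a :: p => by simp only [List.map, leval, h, leval_map_sm ev f c h x p]; ring

theorem leval_map_congr (ev ev' : α → ℝ) (f : α → α) (h : ∀ a, ev (f a) = ev' a)
    (x : ℝ) : ∀ p : List α, leval ev x (p.map f) = leval ev' x p
  | [] => by simp [leval]
  | a :: p => by simp only [List.map, leval, h, leval_map_congr ev ev' f h x p]

theorem leval_lshift (ev : α → ℝ) (add : α → α → α) (sm : Int → α → α)
    (h : ∀ a b, ev (add a b) = ev a + ev b) (c : Int) (h2 : ∀ a, ev (sm c a) = c * ev a)
    (x : ℝ) : ∀ p : List α, leval ev x (lshift add sm c p) = leval ev (x + c) p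
  | [] => by simp [lshift, leval]
  | a :: p => by
    simp only [lshift, lstep, leval_ladd ev add h, leval, leval_map_sm ev (sm c) c h2,
      leval_lshift ev add sm h c h2 x p]
    ring

theorem llb_le (ev : α → ℝ) (lb : α → Int) (h : ∀ a, (lb a : ℝ) ≤ ev a) (w : Int) (x : ℝ)
    (h0 : 0 ≤ x) (hw : x ≤ w) : ∀ p : List α, (llb lb w p : ℝ) ≤ leval ev x p
  | [] => by simp [llb, leval]
  | a :: p => by
    have ih := llb_le ev lb h w x h0 hw p
    have h1 : ((negPart (llb lb w p) : Int) : ℝ) ≤ (llb lb w p : ℝ) := by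
      exact_mod_cast (negPart_le _).1
    have h2 : ((negPart (llb lb w p) : Int) : ℝ) ≤ 0 := by exact_mod_cast (negPart_le _).2
    have h3 := h a
    have e : ((llb lb w (a :: p) : Int) : ℝ) = lb a + w * (negPart (llb lb w p) : Int) := by
      have : llb lb w (a :: p) = lb a + w * negPart (llb lb w p) := rfl
      rw [this]; push_cast; ring
    rw [e, leval]
    nlinarith [mul_le_mul_of_nonneg_left (h1.trans ih) h0, mul_nonneg (sub_nonneg.2 hw) (neg_nonneg.2 h2)]

end generic

abbrev P1 := List Int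
abbrev P2 := List P1
abbrev P3 := List P2

def add1 : P1 → P1 → P1 := ladd Int.add
def add2 : P2 → P2 → P2 := ladd add1
def sm1 (c : Int) (p : P1) : P1 := p.map (Int.mul c)
def sm2 (c : Int) (p : P2) : P2 := p.map (sm1 c)

noncomputable def ev1 (x : ℝ) : P1 → ℝ := leval (fun a : Int => (a : ℝ)) x
noncomputable def ev2 (x y : ℝ) : P2 → ℝ := leval (ev1 x) y
noncomputable def ev3 (x y z : ℝ) : P3 → ℝ := leval (ev2 x y) z

def sh1 (c : Int) : P1 → P1 := lshift Int.add Int.mul c
def sh2 (c : Int) : P2 → P2 := lshift add1 sm1 c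
def sh3 (c : Int) : P3 → P3 := lshift add2 sm2 c

def lb3 (a b c : Int) : P3 → Int := llb (llb (llb id a) b) c

theorem ev1_add (x : ℝ) (p q : P1) : ev1 x (add1 p q) = ev1 x p + ev1 x q :=
  leval_ladd _ _ (fun a b => by
    have : Int.add a b = a + b := rfl
    rw [this]; push_cast; ring) x p q

theorem ev2_add (x y : ℝ) (p q : P2) : ev2 x y (add2 p q) = ev2 x y p + ev2 x y q :=
  leval_ladd _ _ (ev1_add x) y p q

theorem ev1_sm (x : ℝ) (c : Int) (p : P1) : ev1 x (sm1 c p) = c * ev1 x p :=
  leval_map_sm _ _ c (fun a => by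
    have : Int.mul c a = c * a := rfl
    rw [this]; push_cast; ring) x p

theorem ev2_sm (x y : ℝ) (c : Int) (p : P2) : ev2 x y (sm2 c p) = c * ev2 x y p :=
  leval_map_sm _ _ c (ev1_sm x c) y p

theorem ev1_sh (x : ℝ) (c : Int) (p : P1) : ev1 x (sh1 c p) = ev1 (x + c) p :=
  leval_lshift _ _ _ (fun a b => by
    have : Int.add a b = a + b := rfl
    rw [this]; push_cast; ring) c (fun a => by
    have : Int.mul c a = c * a := rfl
    rw [this]; push_cast; ring) x p

theorem ev2_sh (x y : ℝ) (c : Int) (p : P2) : ev2 x y (sh2 c p) = ev2 x (y + c) p :=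
  leval_lshift _ _ _ (ev1_add x) c (ev1_sm x c) y p

theorem ev3_sh (x y z : ℝ) (c : Int) (p : P3) : ev3 x y z (sh3 c p) = ev3 x y (z + c) p :=
  leval_lshift _ _ _ (ev2_add x y) c (ev2_sm x y c) z p

theorem ev3_sh2 (x y z : ℝ) (c : Int) (p : P3) :
    ev3 x y z (p.map (sh2 c)) = ev3 x (y + c) z p :=
  leval_map_congr _ _ _ (ev2_sh x y c) z p

theorem ev3_sh1 (x y z : ℝ) (c : Int) (p : P3) :
    ev3 x y z (p.map (List.map (sh1 c))) = ev3 (x + c) y z p :=
  leval_map_congr _ _ _ (fun q => leval_map_congr _ _ _ (ev1_sh x c) y q) z p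

theorem lb3_le (a b c : Int) (x y z : ℝ) (hx0 : 0 ≤ x) (hx : x ≤ a) (hy0 : 0 ≤ y) (hy : y ≤ b)
    (hz0 : 0 ≤ z) (hz : z ≤ c) (p : P3) : (lb3 a b c p : ℝ) ≤ ev3 x y z p :=
  llb_le _ _ (llb_le _ _ (llb_le _ _ (fun _ => le_rfl) a x hx0 hx) b y hy0 hy) c z hz0 hz p

/-- Subdivision certificates. -/
inductive Tr : Type
  | L : Tr
  | X : Int → Tr → Tr → Tr
  | Y : Int → Tr → Tr → Tr
  | Z : Int → Tr → Tr → Tr

def chk : Tr → Int → Int → Int → P3 → Bool
  | Tr.L, a, b, c, p => decide (0 < lb3 a b c p)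
  | Tr.X m l r, a, b, c, p => chk l m b c p && chk r (Int.sub a m) b c (p.map (List.map (sh1 m)))
  | Tr.Y m l r, a, b, c, p => chk l a m c p && chk r a (Int.sub b m) c (p.map (sh2 m))
  | Tr.Z m l r, a, b, c, p => chk l a b m p && chk r a b (Int.sub c m) (sh3 m p)

theorem chk_sound : ∀ (t : Tr) (a b c : Int) (p : P3), chk t a b c p = true →
    ∀ x y z : ℝ, 0 ≤ x → x ≤ a → 0 ≤ y → y ≤ b → 0 ≤ z → z ≤ c → 0 < ev3 x y z p
  | Tr.L, a, b, c, p, h, x, y, z, hx0, hx, hy0, hy, hz0, hz => by
    have h1 : 0 < lb3 a b c p := by simpa [chk] using h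
    have h2 : (0 : ℝ) < (lb3 a b c p : ℝ) := by exact_mod_cast h1
    exact h2.trans_le (lb3_le a b c x y z hx0 hx hy0 hy hz0 hz p)
  | Tr.X m l r, a, b, c, p, h, x, y, z, hx0, hx, hy0, hy, hz0, hz => by
    simp only [chk, Bool.and_eq_true] at h
    rcases le_total x m with hm | hm
    · exact chk_sound l m b c p h.1 x y z hx0 hm hy0 hy hz0 hz
    · have := chk_sound r _ b c _ h.2 (x - m) y z (by linarith) (by
        have : Int.sub a m = a - m := rfl
        rw [this]; push_cast; linarith) hy0 hy hz0 hz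
      rwa [ev3_sh1, sub_add_cancel] at this
  | Tr.Y m l r, a, b, c, p, h, x, y, z, hx0, hx, hy0, hy, hz0, hz => by
    simp only [chk, Bool.and_eq_true] at h
    rcases le_total y m with hm | hm
    · exact chk_sound l a m c p h.1 x y z hx0 hx hy0 hm hz0 hz
    · have := chk_sound r a _ c _ h.2 x (y - m) z hx0 hx (by linarith) (by
        have : Int.sub b m = b - m := rfl
        rw [this]; push_cast; linarith) hz0 hz
      rwa [ev3_sh2, sub_add_cancel] at this
  | Tr.Z m l r, a, b, c, p, h, x, y, z, hx0, hx, hy0, hy, hz0, hz => by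
    simp only [chk, Bool.and_eq_true] at h
    rcases le_total z m with hm | hm
    · exact chk_sound l a b m p h.1 x y z hx0 hx hy0 hy hz0 hm
    · have := chk_sound r a b _ _ h.2 x y (z - m) hx0 hx hy0 hy (by linarith) (by
        have : Int.sub c m = c - m := rfl
        rw [this]; push_cast; linarith)
      rwa [ev3_sh, sub_add_cancel] at this

end Pool.Agent.Lib.MP_03314f_an
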