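import Mathlib
import Pool.Agent.Lib.MP_03314f_an.Defs
import Pool.Agent.Lib.MP_03314f_an.Calc

/-! Elliptic integrals: derivatives and continuity. -/

namespace Pool.Agent.Lib.MP_03314f_an

open Set Filter Topology Real intervalIntegral

variable {k φ : ℝ}

theorem Dl_arg_pos (hk : k ^ 2 < 1) (θ : ℝ) : 0 < 1 - k ^ 2 * sin θ ^ 2 := by
  have := mul_le_mul_of_nonneg_left (sin_sq_le_one θ) (sq_nonneg k)
  linarith

theorem Dl_pos (hk : k ^ 2 < 1) (θ : ℝ) : 0 < Dl k θ := sqrt_pos.2 (Dl_arg_pos hk θ)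

theorem Dl_sq (hk : k ^ 2 < 1) (θ : ℝ) : Dl k θ ^ 2 = 1 - k ^ 2 * sin θ ^ 2 :=
  sq_sqrt (Dl_arg_pos hk θ).le

theorem Dl_le_one (k θ : ℝ) : Dl k θ ≤ 1 :=
  sqrt_le_one.2 (by linarith [mul_nonneg (sq_nonneg k) (sq_nonneg (sin θ))])

theorem kp_le_Dl (k θ : ℝ) : √(1 - k ^ 2) ≤ Dl k θ :=
  sqrt_le_sqrt (by linarith [mul_le_mul_of_nonneg_left (sin_sq_le_one θ) (sq_nonneg k)])

theorem Dl_zero (k : ℝ) : Dl k 0 = 1 := by simp [Dl]

theorem Dl_half (k : ℝ) : Dl k (π / 2) = √(1 - k ^ 2) := by simp [Dl]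

theorem Dl_neg (k θ : ℝ) : Dl k (-θ) = Dl k θ := by simp [Dl]

@[fun_prop]
theorem Continuous.dl {X : Type*} [TopologicalSpace X] {f g : X → ℝ} (hf : Continuous f)
    (hg : Continuous g) : Continuous fun x => Dl (f x) (g x) := by
  unfold Dl; fun_prop

@[fun_prop]
theorem ContinuousAt.dl {X : Type*} [TopologicalSpace X] {f g : X → ℝ} {x : X}
    (hf : ContinuousAt f x) (hg : ContinuousAt g x) :
    ContinuousAt (fun x => Dl (f x) (g x)) x := by
  unfold Dl; fun_prop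

theorem hasDerivAt_Dl {κ ψ : ℝ → ℝ} {κ' ψ' t : ℝ} (h1 : HasDerivAt κ κ' t)
    (h2 : HasDerivAt ψ ψ' t) (hk : κ t ^ 2 < 1) :
    HasDerivAt (fun t => Dl (κ t) (ψ t))
      (-(κ t * κ' * sin (ψ t) ^ 2 + κ t ^ 2 * sin (ψ t) * cos (ψ t) * ψ') / Dl (κ t) (ψ t)) t := by
  have := (((h1.pow 2).mul (h2.sin.pow 2)).const_sub 1).sqrt (Dl_arg_pos hk (ψ t)).ne'
  refine this.congr_deriv ?_
  have := (Dl_pos hk (ψ t)).ne'
  unfold Dl at this ⊢
  simp only [Pi.pow_apply, Pi.mul_apply]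
  field_simp
  ring

theorem hasDerivAt_Dl_phi (hk : k ^ 2 < 1) (θ : ℝ) :
    HasDerivAt (Dl k) (-(k ^ 2 * sin θ * cos θ) / Dl k θ) θ :=
  (hasDerivAt_Dl (hasDerivAt_const θ k) (hasDerivAt_id θ) hk).congr_deriv (by simp)

theorem hasDerivAt_Dl_k (hk : k ^ 2 < 1) (θ : ℝ) :
    HasDerivAt (fun k => Dl k θ) (-(k * sin θ ^ 2) / Dl k θ) k :=
  (hasDerivAt_Dl (hasDerivAt_id k) (hasDerivAt_const k θ) hk).congr_deriv (by simp)

theorem continuous_Dl (k : ℝ) : Continuous (Dl k) := by fun_prop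

theorem continuous_invDl (hk : k ^ 2 < 1) : Continuous fun θ => 1 / Dl k θ :=
  continuous_const.div (continuous_Dl k) fun θ => (Dl_pos hk θ).ne'

theorem hasDerivAt_ellF (hk : k ^ 2 < 1) (φ : ℝ) : HasDerivAt (ellF k) (1 / Dl k φ) φ :=
  ((continuous_invDl hk).integral_hasStrictDerivAt 0 φ).hasDerivAt

theorem hasDerivAt_ellE (k φ : ℝ) : HasDerivAt (ellE k) (Dl k φ) φ :=
  ((continuous_Dl k).integral_hasStrictDerivAt 0 φ).hasDerivAt

theorem ellF_zero (k : ℝ) : ellF k 0 = 0 := by simp [ellF]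

theorem ellE_zero (k : ℝ) : ellE k 0 = 0 := by simp [ellE]

theorem ellF_pos (hk : k ^ 2 < 1) (h : 0 < φ) : 0 < ellF k φ :=
  intervalIntegral_pos_of_pos ((continuous_invDl hk).intervalIntegrable _ _)
    (fun θ => one_div_pos.2 (Dl_pos hk θ)) h

theorem ellE_pos (hk : k ^ 2 < 1) (h : 0 < φ) : 0 < ellE k φ :=
  intervalIntegral_pos_of_pos ((continuous_Dl k).intervalIntegrable _ _)
    (fun θ => Dl_pos hk θ) h

theorem eta_pos (hk : k ^ 2 < 1) : 0 < eta k :=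
  div_pos (ellE_pos hk pi_div_two_pos) (ellF_pos hk pi_div_two_pos)

theorem Zeta_zero (k : ℝ) : Zeta k 0 = 0 := by simp [Zeta, ellF_zero, ellE_zero]

theorem Zeta_half (hk : k ^ 2 < 1) : Zeta k (π / 2) = 0 := by
  have := (ellF_pos hk pi_div_two_pos).ne'
  rw [Zeta, eta]; field_simp; ring

theorem hasDerivAt_Zeta (hk : k ^ 2 < 1) (φ : ℝ) :
    HasDerivAt (Zeta k) (Dl k φ - eta k / Dl k φ) φ :=
  ((hasDerivAt_ellE k φ).sub ((hasDerivAt_ellF hk φ).const_mul (eta k))).congr_deriv (by ring)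

theorem continuous_Zeta (hk : k ^ 2 < 1) : Continuous (Zeta k) :=
  continuous_iff_continuousAt.2 fun φ => (hasDerivAt_Zeta hk φ).continuousAt

theorem continuous_ellF (hk : k ^ 2 < 1) : Continuous (ellF k) :=
  continuous_iff_continuousAt.2 fun φ => (hasDerivAt_ellF hk φ).continuousAt

theorem continuous_ellE (k : ℝ) : Continuous (ellE k) :=
  continuous_iff_continuousAt.2 fun φ => (hasDerivAt_ellE k φ).continuousAt

theorem hasDerivAt_logBound (hk : k ^ 2 < 1) (φ : ℝ) :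
    HasDerivAt (logBound k) (2 * (Zeta k φ / Dl k φ)) φ :=
  ((((continuous_Zeta hk).div (continuous_Dl k)
    fun θ => (Dl_pos hk θ).ne').integral_hasStrictDerivAt 0 φ).hasDerivAt).const_mul 2

theorem logBound_zero (k : ℝ) : logBound k 0 = 0 := by simp [logBound]

theorem continuous_logBound (hk : k ^ 2 < 1) : Continuous (logBound k) :=
  continuous_iff_continuousAt.2 fun φ => (hasDerivAt_logBound hk φ).continuousAt

theorem isOpen_sq_lt : IsOpen {k : ℝ | k ^ 2 < 1} := isOpen_lt (by fun_prop) continuous_const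

theorem hasDerivAt_ellE_k (hk : k ^ 2 < 1) (hk0 : k ≠ 0) (φ : ℝ) :
    HasDerivAt (fun k => ellE k φ) ((ellE k φ - ellF k φ) / k) k := by
  have := hasDerivAt_param (f := Dl) (f' := fun k θ => -(k * sin θ ^ 2) / Dl k θ) isOpen_sq_lt hk
    (fun k _ => continuous_Dl k) (fun k hk θ => hasDerivAt_Dl_k hk θ)
    (ContinuousOn.div (by fun_prop) (Continuous.continuousOn (by fun_prop))
      fun p hp => (Dl_pos hp.1 _).ne') 0 φ
  refine this.congr_deriv ?_
  rw [ellE, ellF, ← integral_sub ((continuous_Dl k).intervalIntegrable _ _)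
    ((continuous_invDl hk).intervalIntegrable _ _), ← intervalIntegral.integral_div]
  congr 1
  ext θ
  have := (Dl_pos hk θ).ne'
  field_simp
  linear_combination -Dl_sq hk θ

theorem hasDerivAt_ellF_k (hk : k ^ 2 < 1) (hk0 : k ≠ 0) (φ : ℝ) :
    HasDerivAt (fun k => ellF k φ) (ellE k φ / (k * (1 - k ^ 2)) - ellF k φ / k
      - k * sin φ * cos φ / ((1 - k ^ 2) * Dl k φ)) k := by
  have := hasDerivAt_param (f := fun k θ => 1 / Dl k θ)
    (f' := fun k θ => k * sin θ ^ 2 / Dl k θ ^ 3) isOpen_sq_lt hk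
    (fun k hk => continuous_invDl hk) (fun k hk θ => by
      have h0 := (Dl_pos hk θ).ne'
      refine ((hasDerivAt_const k (1 : ℝ)).div (hasDerivAt_Dl_k hk θ) h0).congr_deriv ?_
      field_simp; ring)
    (ContinuousOn.div (by fun_prop) (Continuous.continuousOn (by fun_prop))
      fun p hp => pow_ne_zero _ (Dl_pos hp.1 _).ne') 0 φ
  refine this.congr_deriv ?_
  have hk1 : 1 - k ^ 2 ≠ 0 := by linarith
  have hd : ∀ θ, HasDerivAt (fun φ => ellE k φ / (k * (1 - k ^ 2)) - ellF k φ / k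
      - k * sin φ * cos φ / ((1 - k ^ 2) * Dl k φ)) (k * sin θ ^ 2 / Dl k θ ^ 3) θ := by
    intro θ
    have h0 := (Dl_pos hk θ).ne'
    have := (((hasDerivAt_ellE k θ).div_const (k * (1 - k ^ 2))).sub
      ((hasDerivAt_ellF hk θ).div_const k)).sub
      ((((hasDerivAt_sin θ).const_mul k).mul (hasDerivAt_cos θ)).div
        ((hasDerivAt_Dl_phi hk θ).const_mul (1 - k ^ 2)) (mul_ne_zero hk1 h0))
    refine this.congr_deriv ?_
    have h1 := Dl_sq hk θ
    have h2 := sin_sq_add_cos_sq θ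
    simp only [Pi.mul_apply]
    generalize Dl k θ = D at *
    generalize sin θ = s at *
    generalize cos θ = c at *
    field_simp
    linear_combination (D ^ 2 - k ^ 2 * c ^ 2 + k ^ 2 * s ^ 2 - k ^ 2 * s ^ 2 + k ^ 2) * h1
      - k ^ 2 * h2
  have hc : Continuous fun θ => k * sin θ ^ 2 / Dl k θ ^ 3 :=
    Continuous.div (by fun_prop) (by fun_prop) fun θ => pow_ne_zero _ (Dl_pos hk θ).ne'
  rw [integral_eq_sub_of_hasDerivAt (fun θ _ => hd θ) (hc.intervalIntegrable _ _)]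
  simp [ellE_zero, ellF_zero]

theorem hasDerivAt_eta (hk : k ^ 2 < 1) (hk0 : k ≠ 0) :
    HasDerivAt eta ((2 * eta k - 1 - eta k ^ 2 / (1 - k ^ 2)) / k) k := by
  have h0 := (ellF_pos hk pi_div_two_pos).ne'
  have := (hasDerivAt_ellE_k hk hk0 (π / 2)).div (hasDerivAt_ellF_k hk hk0 (π / 2)) h0
  refine this.congr_deriv ?_
  have hk1 : 1 - k ^ 2 ≠ 0 := by linarith
  rw [cos_pi_div_two, eta]
  field_simp
  ring

noncomputable def Zk (k φ : ℝ) : ℝ :=
  Zeta k φ * (1 - eta k / (1 - k ^ 2)) / k + eta k * k * sin φ * cos φ / ((1 - k ^ 2) * Dl k φ)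

theorem hasDerivAt_Zeta_k (hk : k ^ 2 < 1) (hk0 : k ≠ 0) (φ : ℝ) :
    HasDerivAt (fun k => Zeta k φ) (Zk k φ) k := by
  have := (hasDerivAt_ellE_k hk hk0 φ).sub ((hasDerivAt_eta hk hk0).mul (hasDerivAt_ellF_k hk hk0 φ))
  refine this.congr_deriv ?_
  have hk1 : 1 - k ^ 2 ≠ 0 := by linarith
  have h0 := (Dl_pos hk φ).ne'
  rw [Zk, Zeta]
  field_simp
  ring

theorem continuous_ellE2 : Continuous fun p : ℝ × ℝ => ellE p.1 p.2 :=
  continuous_parametric_primitive_of_continuous (f := Dl)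
    (show Continuous fun p : ℝ × ℝ => Dl p.1 p.2 by fun_prop)

theorem continuousAt_ellF2 (hk : k ^ 2 < 1) (φ : ℝ) :
    ContinuousAt (fun p : ℝ × ℝ => ellF p.1 p.2) (k, φ) := by
  set δ := √((1 - k ^ 2) / 2) with hδ
  have hδ0 : 0 < δ := sqrt_pos.2 (by linarith)
  have h1 : Continuous fun p : ℝ × ℝ => ∫ θ in (0 : ℝ)..p.2, 1 / max (Dl p.1 θ) δ :=
    continuous_parametric_primitive_of_continuous (f := fun k θ => 1 / max (Dl k θ) δ)
      (show Continuous fun p : ℝ × ℝ => 1 / max (Dl p.1 p.2) δ from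
        continuous_const.div (by fun_prop) fun p => (lt_max_of_lt_right hδ0).ne')
  refine h1.continuousAt.congr ?_
  have : ∀ᶠ p : ℝ × ℝ in 𝓝 (k, φ), p.1 ^ 2 < (1 + k ^ 2) / 2 :=
    ContinuousAt.eventually_lt (by fun_prop) continuousAt_const (by simp only; linarith)
  filter_upwards [this] with p hp
  rw [ellF]
  congr 1
  ext θ
  rw [max_eq_left ((sqrt_le_sqrt (by linarith)).trans (kp_le_Dl p.1 θ))]

theorem continuousAt_eta (hk : k ^ 2 < 1) : ContinuousAt eta k :=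
  (continuous_ellE2.continuousAt.comp (f := fun k => (k, π / 2)) (by fun_prop)).div
    ((continuousAt_ellF2 hk (π / 2)).comp (f := fun k => (k, π / 2)) (by fun_prop))
    (ellF_pos hk pi_div_two_pos).ne'

theorem continuousAt_eta2 (hk : k ^ 2 < 1) (φ : ℝ) :
    ContinuousAt (fun p : ℝ × ℝ => eta p.1) (k, φ) :=
  ContinuousAt.comp (f := Prod.fst) (x := (k, φ)) (continuousAt_eta hk) continuousAt_fst

theorem continuousAt_Zeta2 (hk : k ^ 2 < 1) (φ : ℝ) :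
    ContinuousAt (fun p : ℝ × ℝ => Zeta p.1 p.2) (k, φ) :=
  continuous_ellE2.continuousAt.sub ((continuousAt_eta2 hk φ).mul (continuousAt_ellF2 hk φ))

theorem hasFDerivAt_of_partials {f f₁ f₂ : ℝ → ℝ → ℝ} {u : ℝ × ℝ}
    (d₁ : ∀ᶠ v in 𝓝 u, HasDerivAt (fun x => f x v.2) (f₁ v.1 v.2) v.1)
    (d₂ : ∀ᶠ v in 𝓝 u, HasDerivAt (fun y => f v.1 y) (f₂ v.1 v.2) v.2)
    (c₁ : ContinuousAt (fun p : ℝ × ℝ => f₁ p.1 p.2) u)
    (c₂ : ContinuousAt (fun p : ℝ × ℝ => f₂ p.1 p.2) u) :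
    ∃ L' : ℝ × ℝ →L[ℝ] ℝ, HasFDerivAt (fun p : ℝ × ℝ => f p.1 p.2) L' u ∧
      ∀ x y, L' (x, y) = f₁ u.1 u.2 * x + f₂ u.1 u.2 * y := by
  have hT : Continuous fun r : ℝ => ContinuousLinearMap.toSpanSingleton ℝ r := by
    have : (fun r : ℝ => ContinuousLinearMap.toSpanSingleton ℝ r)
        = fun r => ContinuousLinearMap.mul ℝ ℝ r := by
      ext r; simp
    rw [this]; fun_prop
  have := hasStrictFDerivAt_uncurry_coprod (𝕜 := ℝ) (f := f)
    (f₁ := fun x y => ContinuousLinearMap.toSpanSingleton ℝ (f₁ x y))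
    (f₂ := fun x y => ContinuousLinearMap.toSpanSingleton ℝ (f₂ x y))
    (d₁.mono fun v h => h.hasFDerivAt) (d₂.mono fun v h => h.hasFDerivAt)
    (hT.continuousAt.comp c₁) (hT.continuousAt.comp c₂)
  refine ⟨_, this.hasFDerivAt, fun x y => ?_⟩
  simp [Function.HasUncurry.uncurry]
  ring

theorem eventually_good (hk : k ^ 2 < 1) (hk0 : k ≠ 0) (φ : ℝ) :
    ∀ᶠ v : ℝ × ℝ in 𝓝 (k, φ), v.1 ^ 2 < 1 ∧ v.1 ≠ 0 :=
  (ContinuousAt.eventually_lt (f := fun v : ℝ × ℝ => v.1 ^ 2) (g := fun _ => 1) (by fun_prop)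
    continuousAt_const hk).and
    (ContinuousAt.eventually_ne (g := fun v : ℝ × ℝ => v.1) (by fun_prop) hk0)

theorem hasDerivAt_Zeta_curve {ψ : ℝ → ℝ} {ψ' : ℝ} (hk : k ^ 2 < 1) (hk0 : k ≠ 0)
    (h : HasDerivAt ψ ψ' k) :
    HasDerivAt (fun k => Zeta k (ψ k))
      (Zk k (ψ k) + (Dl k (ψ k) - eta k / Dl k (ψ k)) * ψ') k := by
  have hk1 : 1 - k ^ 2 ≠ 0 := by linarith
  have h0 := (Dl_pos hk (ψ k)).ne'
  have c1 := continuousAt_eta2 hk (ψ k)
  have c2 := continuousAt_Zeta2 hk (ψ k)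
  obtain ⟨L', h1, h2⟩ := hasFDerivAt_of_partials (f := Zeta) (f₁ := Zk)
    (f₂ := fun k φ => Dl k φ - eta k / Dl k φ) (u := (k, ψ k))
    ((eventually_good hk hk0 _).mono fun v hv => hasDerivAt_Zeta_k hv.1 hv.2 _)
    ((eventually_good hk hk0 _).mono fun v hv => hasDerivAt_Zeta hv.1 _)
    (by unfold Zk; fun_prop (disch := first | assumption | exact mul_ne_zero hk1 h0))
    (by fun_prop (disch := assumption))
  have := h1.comp_hasDerivAt k ((hasDerivAt_id k).prodMk h)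
  exact this.congr_deriv (by rw [h2]; simp)

end Pool.Agent.Lib.MP_03314f_an
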