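import Mathlib
import Pool.Agent.Lib.MP_03314f_an.Elliptic
import Pool.Agent.Lib.MP_03314f_an.Cert

/-! The moments over the gap. -/

namespace Pool.Agent.Lib.MP_03314f_an

open Set Filter Topology Real intervalIntegral

noncomputable def mm (k φ : ℝ) : ℝ := cos φ * Dl k φ
noncomputable def hh (k φ : ℝ) : ℝ := k * sin φ ^ 2
noncomputable def xx (k φ : ℝ) : ℝ := sin φ * Zeta k φ
noncomputable def NN (k φ : ℝ) : ℝ := mm k φ * xx k φ + sin φ ^ 2 * (eta k - Dl k φ ^ 2)
noncomputable def lam (k φ : ℝ) : ℝ := 2 * mm k φ +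
  ((1 - (hh k φ - mm k φ) ^ 2) * (hh k φ - xx k φ)
    - (1 - (hh k φ + mm k φ) ^ 2) * (hh k φ + xx k φ)) / NN k φ
noncomputable def dd (k φ : ℝ) : ℝ := mm k φ - lam k φ / 4
noncomputable def den (k φ u : ℝ) : ℝ := Dl k φ - cos φ * (k * sin u)
noncomputable def tt (k φ u : ℝ) : ℝ := (Dl k φ * (k * sin u) - cos φ) / den k φ u

variable {k φ : ℝ}

theorem Dl_sq' (hk : k ^ 2 < 1) (φ : ℝ) : Dl k φ ^ 2 = 1 - k ^ 2 + k ^ 2 * cos φ ^ 2 := by
  rw [Dl_sq hk, cos_sq']; ring

theorem den_pos_aux (hk : k ^ 2 < 1) (φ : ℝ) {σ : ℝ} (h : σ ^ 2 ≤ k ^ 2) :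
    0 < Dl k φ - cos φ * σ := by
  have h1 := Dl_sq' hk φ
  have h2 : (cos φ * σ) ^ 2 < Dl k φ ^ 2 := by
    have := mul_le_mul_of_nonneg_left h (sq_nonneg (cos φ))
    rw [mul_pow]; linarith
  have := (abs_lt_of_sq_lt_sq' h2 (Dl_pos hk φ).le).2
  linarith

theorem den_pos (hk : k ^ 2 < 1) (φ u : ℝ) : 0 < den k φ u :=
  den_pos_aux hk φ (by
    have := mul_le_mul_of_nonneg_left (sin_sq_le_one u) (sq_nonneg k)
    rw [mul_pow]; linarith)

theorem P_pos (hk : k ^ 2 < 1) (φ : ℝ) : 0 < Dl k φ - k * cos φ := by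
  have := den_pos_aux hk φ (le_refl (k ^ 2))
  linarith

theorem Q_pos (hk : k ^ 2 < 1) (φ : ℝ) : 0 < Dl k φ + k * cos φ := by
  have := den_pos_aux hk φ (σ := -k) (by rw [neg_sq])
  linarith

theorem PQ (hk : k ^ 2 < 1) (φ : ℝ) : (Dl k φ - k * cos φ) * (Dl k φ + k * cos φ) = 1 - k ^ 2 := by
  linear_combination Dl_sq' hk φ

theorem alpha_eq (hk : k ^ 2 < 1) (φ : ℝ) :
    1 - (hh k φ + mm k φ) ^ 2 = sin φ ^ 2 * (Dl k φ - k * cos φ) ^ 2 := by
  have h1 := Dl_sq hk φ
  have h2 := sin_sq_add_cos_sq φ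
  unfold hh mm
  grind

theorem beta_eq (hk : k ^ 2 < 1) (φ : ℝ) :
    1 - (hh k φ - mm k φ) ^ 2 = sin φ ^ 2 * (Dl k φ + k * cos φ) ^ 2 := by
  have h1 := Dl_sq hk φ
  have h2 := sin_sq_add_cos_sq φ
  unfold hh mm
  grind

theorem tt_sub_a (hk : k ^ 2 < 1) (φ u : ℝ) : tt k φ u - (-mm k φ - hh k φ)
    = sin φ ^ 2 * (1 - k ^ 2) * (k * (1 + sin u)) / (den k φ u * (Dl k φ + k * cos φ)) := by
  have h1 := Dl_sq hk φ
  have h2 := sin_sq_add_cos_sq φ
  have h3 := (den_pos hk φ u).ne'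
  have h4 := (Q_pos hk φ).ne'
  unfold tt hh mm
  field_simp
  unfold den
  grind

theorem b_sub_tt (hk : k ^ 2 < 1) (φ u : ℝ) : hh k φ - mm k φ - tt k φ u
    = sin φ ^ 2 * (1 - k ^ 2) * (k * (1 - sin u)) / (den k φ u * (Dl k φ - k * cos φ)) := by
  have h1 := Dl_sq hk φ
  have h2 := sin_sq_add_cos_sq φ
  have h3 := (den_pos hk φ u).ne'
  have h4 := (P_pos hk φ).ne'
  unfold tt hh mm
  field_simp
  unfold den
  grind

theorem gap_prod (hk : k ^ 2 < 1) (φ u : ℝ) :
    (tt k φ u - (-mm k φ - hh k φ)) * (hh k φ - mm k φ - tt k φ u)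
    = (1 - k ^ 2) * (sin φ ^ 2 * k * cos u / den k φ u) ^ 2 := by
  have h2 := sin_sq_add_cos_sq u
  have h3 := (den_pos hk φ u).ne'
  have h4 := (P_pos hk φ).ne'
  have h5 := (Q_pos hk φ).ne'
  rw [tt_sub_a hk, b_sub_tt hk]
  have h6 := PQ hk φ
  generalize 1 - k ^ 2 = r at h6 ⊢
  rw [← h6]
  field_simp
  linear_combination (-sin φ ^ 4 * k ^ 2) * h2

theorem one_sub_tt (hk : k ^ 2 < 1) (φ u : ℝ) :
    1 - tt k φ u ^ 2 = (1 - k ^ 2) * (sin φ * Dl k u / den k φ u) ^ 2 := by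
  have h1 := Dl_sq hk φ
  have h1' := Dl_sq hk u
  have h2 := sin_sq_add_cos_sq φ
  have h3 := (den_pos hk φ u).ne'
  unfold tt
  field_simp
  unfold den
  grind

theorem hasDerivAt_den (k φ u : ℝ) : HasDerivAt (den k φ) (-(cos φ * (k * cos u))) u :=
  (((hasDerivAt_sin u).const_mul k).const_mul (cos φ)).const_sub _

theorem hasDerivAt_tt (hk : k ^ 2 < 1) (φ u : ℝ) :
    HasDerivAt (tt k φ) (k * cos u * sin φ ^ 2 * (1 - k ^ 2) / den k φ u ^ 2) u := by
  have h3 := (den_pos hk φ u).ne'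
  have := ((((hasDerivAt_sin u).const_mul k).const_mul (Dl k φ)).sub_const (cos φ)).div
    (hasDerivAt_den k φ u) h3
  refine this.congr_deriv ?_
  have h1 := Dl_sq hk φ
  have h2 := sin_sq_add_cos_sq φ
  congr 1
  unfold den
  grind

theorem continuous_tt (hk : k ^ 2 < 1) (φ : ℝ) : Continuous (tt k φ) :=
  continuous_iff_continuousAt.2 fun u => (hasDerivAt_tt hk φ u).continuousAt

theorem hasDerivAt_tt_phi (hk : k ^ 2 < 1) (φ u : ℝ) :
    HasDerivAt (fun φ => tt k φ u)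
      ((1 - k ^ 2) * sin φ * Dl k u ^ 2 / (Dl k φ * den k φ u ^ 2)) φ := by
  have h3 := (den_pos hk φ u).ne'
  have := (((hasDerivAt_Dl_phi hk φ).mul_const (k * sin u)).sub (hasDerivAt_cos φ)).div
    ((hasDerivAt_Dl_phi hk φ).sub ((hasDerivAt_cos φ).mul_const (k * sin u))) h3
  refine this.congr_deriv ?_
  have h1 := Dl_sq hk φ
  have h1' := Dl_sq hk u
  have h2 := sin_sq_add_cos_sq φ
  have h4 := (Dl_pos hk φ).ne'
  simp only [Pi.sub_apply]
  unfold den at h3 ⊢
  field_simp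
  grind

theorem int_sym {f : ℝ → ℝ} (hf : Continuous f) (he : ∀ u, f (-u) = f u) (a : ℝ) :
    ∫ u in (-a)..a, f u = 2 * ∫ u in (0 : ℝ)..a, f u := by
  rw [← integral_add_adjacent_intervals (b := 0) (hf.intervalIntegrable _ _)
    (hf.intervalIntegrable _ _)]
  have := integral_comp_neg (a := 0) (b := a) f
  simp only [he, neg_zero] at this
  rw [← this]; ring

theorem int_invDl (hk : k ^ 2 < 1) :
    ∫ u in (-(π / 2))..(π / 2), 1 / Dl k u = 2 * ellF k (π / 2) :=
  int_sym (continuous_invDl hk) (fun u => by rw [Dl_neg]) _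

theorem int_Dl (k : ℝ) : ∫ u in (-(π / 2))..(π / 2), Dl k u = 2 * ellE k (π / 2) :=
  int_sym (continuous_Dl k) (fun u => by rw [Dl_neg]) _

noncomputable def I1 (k φ : ℝ) : ℝ := ∫ u in (-(π / 2))..(π / 2), tt k φ u / Dl k u

theorem continuous_ttD (hk : k ^ 2 < 1) (φ : ℝ) : Continuous fun u => tt k φ u / Dl k u :=
  (continuous_tt hk φ).div (continuous_Dl k) fun u => (Dl_pos hk u).ne'

theorem int_comb (hk : k ^ 2 < 1) (φ : ℝ) {f B B' : ℝ → ℝ} {c₀ c₁ c₂ : ℝ} (hf : Continuous f)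
    (hB : ContinuousOn B (Icc (-(π / 2)) (π / 2)))
    (hB' : ∀ u ∈ Ioo (-(π / 2)) (π / 2), HasDerivAt B (B' u) u) (h1 : B (-(π / 2)) = 0)
    (h2 : B (π / 2) = 0)
    (he : ∀ u ∈ Ioo (-(π / 2)) (π / 2),
      f u = c₀ * (1 / Dl k u) + c₁ * (tt k φ u / Dl k u) + c₂ * Dl k u + B' u) :
    ∫ u in (-(π / 2))..(π / 2), f u
      = c₀ * (2 * ellF k (π / 2)) + c₁ * I1 k φ + c₂ * (2 * ellE k (π / 2)) := by
  have c1 := continuous_invDl hk
  have c2 := continuous_ttD hk φ
  have c3 := continuous_Dl k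
  have h := integral_eq_sub_of_hasDerivAt_of_le (by linarith [pi_div_two_pos]) hB
    (f' := fun u => f u - (c₀ * (1 / Dl k u) + c₁ * (tt k φ u / Dl k u) + c₂ * Dl k u))
    (fun u hu => (hB' u hu).congr_deriv (by rw [he u hu]; ring))
    (Continuous.intervalIntegrable (by fun_prop) _ _)
  rw [integral_sub (hf.intervalIntegrable _ _) (Continuous.intervalIntegrable (by fun_prop) _ _),
    integral_add (Continuous.intervalIntegrable (by fun_prop) _ _)
      (Continuous.intervalIntegrable (by fun_prop) _ _),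
    integral_add (Continuous.intervalIntegrable (by fun_prop) _ _)
      (Continuous.intervalIntegrable (by fun_prop) _ _),
    intervalIntegral.integral_const_mul, intervalIntegral.integral_const_mul,
    intervalIntegral.integral_const_mul, int_invDl hk, int_Dl, h1, h2] at h
  rw [I1]; linarith

theorem int_gap2 (hk : k ^ 2 < 1) (φ : ℝ) :
    ∫ u in (-(π / 2))..(π / 2),
      (tt k φ u - (-mm k φ - hh k φ)) * (hh k φ - mm k φ - tt k φ u) / Dl k u
      = (-sin φ ^ 2 * Dl k φ ^ 2 - mm k φ ^ 2) * (2 * ellF k (π / 2)) + -mm k φ * I1 k φ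
        + sin φ ^ 2 * (2 * ellE k (π / 2)) := by
  have c1 := continuous_tt hk φ
  have hd : ∀ u, HasDerivAt (fun u => -(sin φ ^ 2 * cos φ * k) * (cos u * Dl k u / den k φ u)) _ u :=
    fun u => (((hasDerivAt_cos u).mul (hasDerivAt_Dl_phi hk u)).div (hasDerivAt_den k φ u)
      (den_pos hk φ u).ne').const_mul _
  refine int_comb hk φ (Continuous.div (by fun_prop) (continuous_Dl k) fun u => (Dl_pos hk u).ne')
    (fun u _ => (hd u).continuousAt.continuousWithinAt) (fun u _ => hd u) (by simp) (by simp) ?_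
  intro u _
  rw [gap_prod hk]
  have h1 := Dl_sq hk φ
  have h1' := Dl_sq hk u
  have h2 := sin_sq_add_cos_sq φ
  have h2' := sin_sq_add_cos_sq u
  have h3 := (den_pos hk φ u).ne'
  have h4 := (Dl_pos hk u).ne'
  simp only [Pi.mul_apply]
  unfold tt mm
  field_simp
  unfold den
  grind

theorem I1_eq (hk : k ^ 2 < 1) (hφ : φ ∈ Ioo 0 π) :
    I1 k φ = 2 * ellF k (π / 2) * (-mm k φ - xx k φ) := by
  have hd : ∀ φ ∈ Ioo 0 π, HasDerivAt (fun φ => (I1 k φ + 2 * ellF k (π / 2) * mm k φ) / sin φ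
      + 2 * ellF k (π / 2) * Zeta k φ) 0 φ := by
    intro φ hφ
    have hs := (sin_pos_of_mem_Ioo hφ).ne'
    have h4 := (Dl_pos hk φ).ne'
    have h1 := hasDerivAt_param (f := fun φ u => tt k φ u / Dl k u)
      (f' := fun φ u => (1 - k ^ 2) * sin φ * Dl k u ^ 2 / (Dl k φ * den k φ u ^ 2) / Dl k u)
      isOpen_univ (mem_univ φ) (fun φ _ => continuous_ttD hk φ)
      (fun φ _ u => (hasDerivAt_tt_phi hk φ u).div_const _)
      (Continuous.continuousOn (by
        unfold den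
        refine Continuous.div (Continuous.div (by fun_prop) (by fun_prop) fun p => ?_)
          (by fun_prop) fun p => (Dl_pos hk _).ne'
        exact mul_ne_zero (Dl_pos hk _).ne' (pow_ne_zero _ (den_pos hk _ _).ne')))
      (-(π / 2)) (π / 2)
    have h2 : (∫ u in (-(π / 2))..(π / 2),
        (1 - k ^ 2) * sin φ * Dl k u ^ 2 / (Dl k φ * den k φ u ^ 2) / Dl k u)
        = (2 * ellF k (π / 2) * cos φ ^ 2 + mm k φ * I1 k φ
          + 2 * sin φ ^ 2 * ellE k (π / 2)) / (sin φ * Dl k φ) := by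
      have e : ∀ u, (1 - k ^ 2) * sin φ * Dl k u ^ 2 / (Dl k φ * den k φ u ^ 2) / Dl k u
          = ((tt k φ u - (-mm k φ - hh k φ)) * (hh k φ - mm k φ - tt k φ u) / Dl k u
            + (2 * mm k φ * (tt k φ u / Dl k u)
              + (1 + mm k φ ^ 2 - hh k φ ^ 2) * (1 / Dl k u))) / (sin φ * Dl k φ) := by
        intro u
        have h5 := (Dl_pos hk u).ne'
        have h6 := (den_pos hk φ u).ne'
        have h7 : (1 - k ^ 2) * sin φ * Dl k u ^ 2 / (Dl k φ * den k φ u ^ 2)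
            = (1 - tt k φ u ^ 2) / (sin φ * Dl k φ) := by
          rw [one_sub_tt hk]; field_simp
        rw [h7]; field_simp; ring
      have c1 := continuous_invDl hk
      have c2 := continuous_ttD hk φ
      have c3 := continuous_tt hk φ
      have c4 : Continuous fun u =>
          (tt k φ u - (-mm k φ - hh k φ)) * (hh k φ - mm k φ - tt k φ u) / Dl k u :=
        Continuous.div (by fun_prop) (continuous_Dl k) fun u => (Dl_pos hk u).ne'
      simp only [e]
      rw [intervalIntegral.integral_div, integral_add (c4.intervalIntegrable _ _)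
        (Continuous.intervalIntegrable (by fun_prop) _ _),
        integral_add (Continuous.intervalIntegrable (by fun_prop) _ _)
        (Continuous.intervalIntegrable (by fun_prop) _ _), intervalIntegral.integral_const_mul,
        intervalIntegral.integral_const_mul, int_gap2 hk, int_invDl hk, ← I1]
      congr 1
      have h1 := Dl_sq hk φ
      have h2 := sin_sq_add_cos_sq φ
      unfold hh mm
      grind
    rw [h2] at h1
    have h3 := ((h1.add (((hasDerivAt_cos φ).mul (hasDerivAt_Dl_phi hk φ)).const_mul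
      (2 * ellF k (π / 2)))).div (hasDerivAt_sin φ) hs).add
      ((hasDerivAt_Zeta hk φ).const_mul (2 * ellF k (π / 2)))
    refine h3.congr_deriv ?_
    have h5 := Dl_sq hk φ
    have h6 := sin_sq_add_cos_sq φ
    have h7 := (ellF_pos hk pi_div_two_pos).ne'
    simp only [Pi.add_apply, Pi.mul_apply]
    rw [← I1]
    unfold mm eta
    field_simp
    grind
  have h0 : I1 k (π / 2) = 0 := by
    have e : ∀ u, tt k (π / 2) u / Dl k u = k * sin u / Dl k u := by
      intro u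
      have := (Dl_pos hk (π / 2)).ne'
      simp only [tt, den, cos_pi_div_two, zero_mul, sub_zero]
      field_simp
    have := integral_comp_neg (a := -(π / 2)) (b := π / 2) fun u => k * sin u / Dl k u
    simp only [sin_neg, Dl_neg, mul_neg, neg_div, intervalIntegral.integral_neg, neg_neg] at this
    simp only [I1, e]
    linarith
  have hm : π / 2 ∈ Ioo 0 π := ⟨pi_div_two_pos, by linarith [pi_pos]⟩
  have key : (I1 k φ + 2 * ellF k (π / 2) * mm k φ) / sin φ + 2 * ellF k (π / 2) * Zeta k φ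
      = (I1 k (π / 2) + 2 * ellF k (π / 2) * mm k (π / 2)) / sin (π / 2)
        + 2 * ellF k (π / 2) * Zeta k (π / 2) := by
    rcases le_total φ (π / 2) with h | h
    · exact (eq_of_deriv_zero h (fun x hx => (hd x ⟨hφ.1.trans_le hx.1,
        hx.2.trans_lt hm.2⟩).continuousAt.continuousWithinAt)
        fun x hx => hd x ⟨hφ.1.trans hx.1, hx.2.trans hm.2⟩).symm
    · exact eq_of_deriv_zero h (fun x hx => (hd x ⟨hm.1.trans_le hx.1,
        hx.2.trans_lt hφ.2⟩).continuousAt.continuousWithinAt)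
        fun x hx => hd x ⟨hm.1.trans hx.1, hx.2.trans hφ.2⟩
  rw [h0, Zeta_half hk, mm, mm, cos_pi_div_two, sin_pi_div_two] at key
  have hs := (sin_pos_of_mem_Ioo hφ).ne'
  unfold mm xx
  field_simp at key
  linarith

theorem int_gapN (hk : k ^ 2 < 1) (hφ : φ ∈ Ioo 0 π) :
    ∫ u in (-(π / 2))..(π / 2),
      (tt k φ u - (-mm k φ - hh k φ)) * (hh k φ - mm k φ - tt k φ u) / Dl k u
      = 2 * ellF k (π / 2) * NN k φ := by
  rw [int_gap2 hk, I1_eq hk hφ, NN, eta]
  have h7 := (ellF_pos hk pi_div_two_pos).ne'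
  field_simp
  ring

theorem tt_mem (hk0 : 0 < k) (hk : k ^ 2 < 1) (hφ : φ ∈ Ioo 0 π) {u : ℝ}
    (hu : u ∈ Ioo (-(π / 2)) (π / 2)) :
    0 < tt k φ u - (-mm k φ - hh k φ) ∧ 0 < hh k φ - mm k φ - tt k φ u := by
  have hs := sin_pos_of_mem_Ioo hφ
  have hc := cos_pos_of_mem_Ioo hu
  have h2 := sin_sq_add_cos_sq u
  have h3 := den_pos hk φ u
  have h4 := P_pos hk φ
  have h5 := Q_pos hk φ
  have h6 : 0 < 1 - k ^ 2 := by linarith
  have h7 : 0 < 1 + sin u := by nlinarith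
  have h8 : 0 < 1 - sin u := by nlinarith
  rw [tt_sub_a hk, b_sub_tt hk]
  constructor <;> positivity

theorem int_pos {f : ℝ → ℝ} (hk : k ^ 2 < 1) (hf : Continuous f)
    (h : ∀ u ∈ Ioo (-(π / 2)) (π / 2), 0 < f u) :
    0 < ∫ u in (-(π / 2))..(π / 2), f u / Dl k u :=
  intervalIntegral_pos_of_pos_on
    ((hf.div (continuous_Dl k) fun u => (Dl_pos hk u).ne').intervalIntegrable _ _)
    (fun u hu => div_pos (h u hu) (Dl_pos hk u)) (by linarith [pi_div_two_pos])

theorem NN_pos (hk0 : 0 < k) (hk : k ^ 2 < 1) (hφ : φ ∈ Ioo 0 π) : 0 < NN k φ := by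
  have c3 := continuous_tt hk φ
  have := int_pos (f := fun u => (tt k φ u - (-mm k φ - hh k φ)) * (hh k φ - mm k φ - tt k φ u))
    hk (by fun_prop) fun u hu => mul_pos (tt_mem hk0 hk hφ hu).1 (tt_mem hk0 hk hφ hu).2
  rw [int_gapN hk hφ] at this
  exact (mul_pos_iff_of_pos_left (by linarith [ellF_pos hk pi_div_two_pos])).1 this

theorem int_tt_sub (hk : k ^ 2 < 1) (hφ : φ ∈ Ioo 0 π) (e : ℝ) :
    ∫ u in (-(π / 2))..(π / 2), (tt k φ u - e) / Dl k u
      = 2 * ellF k (π / 2) * (-mm k φ - xx k φ - e) := by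
  have c3 := continuous_tt hk φ
  have := int_comb hk φ (f := fun u => (tt k φ u - e) / Dl k u) (B := fun _ => 0)
    (B' := fun _ => 0) (c₀ := -e) (c₁ := 1) (c₂ := 0)
    (Continuous.div (by fun_prop) (continuous_Dl k) fun u => (Dl_pos hk u).ne')
    continuousOn_const (fun u _ => hasDerivAt_const _ _) rfl rfl (fun u _ => by ring)
  rw [this, I1_eq hk hφ]; ring

theorem A_pos (hk0 : 0 < k) (hk : k ^ 2 < 1) (hφ : φ ∈ Ioo 0 π) : 0 < hh k φ - xx k φ := by
  have c3 := continuous_tt hk φ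
  have := int_pos (f := fun u => tt k φ u - (-mm k φ - hh k φ))
    hk (by fun_prop) fun u hu => (tt_mem hk0 hk hφ hu).1
  rw [int_tt_sub hk hφ] at this
  have := (mul_pos_iff_of_pos_left (by linarith [ellF_pos hk pi_div_two_pos])).1 this
  linarith

theorem B_pos (hk0 : 0 < k) (hk : k ^ 2 < 1) (hφ : φ ∈ Ioo 0 π) : 0 < hh k φ + xx k φ := by
  have c3 := continuous_tt hk φ
  have := int_pos (f := fun u => -(tt k φ u - (hh k φ - mm k φ)))
    hk (by fun_prop) fun u hu => by linarith [(tt_mem hk0 hk hφ hu).2]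
  simp only [neg_div] at this
  rw [intervalIntegral.integral_neg, int_tt_sub hk hφ, ← mul_neg] at this
  have := (mul_pos_iff_of_pos_left (by linarith [ellF_pos hk pi_div_two_pos])).1 this
  linarith

theorem int_gap3 (hk0 : 0 < k) (hk : k ^ 2 < 1) (hφ : φ ∈ Ioo 0 π) (e : ℝ) :
    ∫ u in (-(π / 2))..(π / 2), (tt k φ u - e) *
      ((tt k φ u - (-mm k φ - hh k φ)) * (hh k φ - mm k φ - tt k φ u)) / Dl k u
      = 2 * ellF k (π / 2) * (NN k φ * (dd k φ - e)) := by
  have c3 := continuous_tt hk φ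
  have hs := (sin_pos_of_mem_Ioo hφ).ne'
  have hd : ∀ u, HasDerivAt
      (fun u => -(sin φ ^ 4 * (1 - k ^ 2) * k / 2) * (cos u * Dl k u / den k φ u ^ 2)) _ u :=
    fun u => (((hasDerivAt_cos u).mul (hasDerivAt_Dl_phi hk u)).div ((hasDerivAt_den k φ u).pow 2)
      (pow_ne_zero _ (den_pos hk φ u).ne')).const_mul _
  have c4 : Continuous fun u =>
      (tt k φ u - (-mm k φ - hh k φ)) * (hh k φ - mm k φ - tt k φ u) / Dl k u :=
    Continuous.div (by fun_prop) (continuous_Dl k) fun u => (Dl_pos hk u).ne'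
  have c5 : Continuous fun u => (tt k φ u - mm k φ / 2) *
      ((tt k φ u - (-mm k φ - hh k φ)) * (hh k φ - mm k φ - tt k φ u)) / Dl k u :=
    Continuous.div (by fun_prop) (continuous_Dl k) fun u => (Dl_pos hk u).ne'
  have h1 := int_comb hk φ (c₀ := mm k φ * (mm k φ ^ 2 - hh k φ ^ 2 - 1) / 2)
    (c₁ := (mm k φ ^ 2 + hh k φ ^ 2 - 1) / 2) (c₂ := 0) c5
    (fun u _ => (hd u).continuousAt.continuousWithinAt) (fun u _ => hd u) (by simp) (by simp) (by
      intro u _
      rw [gap_prod hk]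
      have h1 := Dl_sq hk φ
      have h1' := Dl_sq hk u
      have h2 := sin_sq_add_cos_sq φ
      have h2' := sin_sq_add_cos_sq u
      have h3 := (den_pos hk φ u).ne'
      have h4 := (Dl_pos hk u).ne'
      simp only [Pi.mul_apply, Pi.pow_apply]
      unfold tt mm hh
      field_simp
      unfold den
      grind)
  have e1 : ∀ u, (tt k φ u - e) *
      ((tt k φ u - (-mm k φ - hh k φ)) * (hh k φ - mm k φ - tt k φ u)) / Dl k u
      = (tt k φ u - mm k φ / 2) *
        ((tt k φ u - (-mm k φ - hh k φ)) * (hh k φ - mm k φ - tt k φ u)) / Dl k u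
        + (mm k φ / 2 - e) *
          ((tt k φ u - (-mm k φ - hh k φ)) * (hh k φ - mm k φ - tt k φ u) / Dl k u) := by
    intro u; ring
  simp only [e1]
  rw [integral_add (c5.intervalIntegrable _ _) (Continuous.intervalIntegrable (by fun_prop) _ _),
    intervalIntegral.integral_const_mul, h1, int_gapN hk hφ, I1_eq hk hφ, dd, lam]
  have := (NN_pos hk0 hk hφ).ne'
  field_simp
  ring

theorem a_sq_lt (hk : k ^ 2 < 1) (hφ : φ ∈ Ioo 0 π) : (-mm k φ - hh k φ) ^ 2 < 1 := by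
  have := alpha_eq hk φ
  have hs := sin_pos_of_mem_Ioo hφ
  have h4 := P_pos hk φ
  have : 0 < sin φ ^ 2 * (Dl k φ - k * cos φ) ^ 2 := by positivity
  linarith

theorem b_sq_lt (hk : k ^ 2 < 1) (hφ : φ ∈ Ioo 0 π) : (hh k φ - mm k φ) ^ 2 < 1 := by
  have := beta_eq hk φ
  have hs := sin_pos_of_mem_Ioo hφ
  have h4 := Q_pos hk φ
  have : 0 < sin φ ^ 2 * (Dl k φ + k * cos φ) ^ 2 := by positivity
  linarith

theorem a_lt_d (hk0 : 0 < k) (hk : k ^ 2 < 1) (hφ : φ ∈ Ioo 0 π) :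
    -mm k φ - hh k φ < dd k φ := by
  have c3 := continuous_tt hk φ
  have := int_pos (f := fun u => (tt k φ u - (-mm k φ - hh k φ)) *
      ((tt k φ u - (-mm k φ - hh k φ)) * (hh k φ - mm k φ - tt k φ u)))
    hk (by fun_prop) fun u hu => mul_pos (tt_mem hk0 hk hφ hu).1
      (mul_pos (tt_mem hk0 hk hφ hu).1 (tt_mem hk0 hk hφ hu).2)
  rw [int_gap3 hk0 hk hφ] at this
  have := (mul_pos_iff_of_pos_left (by linarith [ellF_pos hk pi_div_two_pos])).1 this
  have := (mul_pos_iff_of_pos_left (NN_pos hk0 hk hφ)).1 this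
  linarith

theorem d_lt_b (hk0 : 0 < k) (hk : k ^ 2 < 1) (hφ : φ ∈ Ioo 0 π) :
    dd k φ < hh k φ - mm k φ := by
  have c3 := continuous_tt hk φ
  have := int_pos (f := fun u => -((tt k φ u - (hh k φ - mm k φ)) *
      ((tt k φ u - (-mm k φ - hh k φ)) * (hh k φ - mm k φ - tt k φ u))))
    hk (by fun_prop) fun u hu => by
      have := mul_pos (tt_mem hk0 hk hφ hu).2
        (mul_pos (tt_mem hk0 hk hφ hu).1 (tt_mem hk0 hk hφ hu).2)
      linarith
  simp only [neg_div] at this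
  rw [intervalIntegral.integral_neg, int_gap3 hk0 hk hφ, ← mul_neg, ← mul_neg] at this
  have := (mul_pos_iff_of_pos_left (by linarith [ellF_pos hk pi_div_two_pos])).1 this
  have := (mul_pos_iff_of_pos_left (NN_pos hk0 hk hφ)).1 this
  linarith

theorem gap (hk0 : 0 < k) (hk : k ^ 2 < 1) (hφ : φ ∈ Ioo 0 π) :
    Gap (-mm k φ - hh k φ) (hh k φ - mm k φ) (-mm k φ - xx k φ) (dd k φ) := by
  have hA := A_pos hk0 hk hφ
  have hB := B_pos hk0 hk hφ
  have hs := sin_pos_of_mem_Ioo hφ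
  refine ⟨a_sq_lt hk hφ, b_sq_lt hk hφ, by linarith, by linarith, by linarith,
    (a_lt_d hk0 hk hφ).le, (d_lt_b hk0 hk hφ).le, tt k φ, fun u => 1 / (2 * sin φ) / Dl k u,
    -(π / 2), π / 2, by linarith [pi_div_two_pos], (continuous_tt hk φ).continuousOn, ?_, ?_,
    fun u hu => ?_, ?_, ?_, ?_⟩
  · have := tt_sub_a hk φ (-(π / 2))
    simp only [sin_neg, sin_pi_div_two, add_neg_cancel, mul_zero, zero_div] at this
    linarith
  · have := b_sub_tt hk φ (π / 2)
    simp only [sin_pi_div_two, sub_self, mul_zero, zero_div] at this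
    linarith
  · obtain ⟨h1, h2⟩ := tt_mem hk0 hk hφ hu
    refine ⟨by linarith, by linarith, (hasDerivAt_tt hk φ u).congr_deriv ?_⟩
    have hc := cos_pos_of_mem_Ioo hu
    have h3 := den_pos hk φ u
    have h4 := Dl_pos hk u
    have h6 : 0 < 1 - k ^ 2 := by linarith
    rw [← sqrt_mul (by linarith), mul_assoc (1 / (2 * sin φ) / Dl k u),
      ← sqrt_mul (by rw [one_sub_tt hk]; positivity)]
    have e : (1 - tt k φ u ^ 2) * (2 * (tt k φ u - (-mm k φ - hh k φ))
        * (2 * (hh k φ - mm k φ - tt k φ u)))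
        = (2 * sin φ ^ 3 * (1 - k ^ 2) * k * cos u * Dl k u / den k φ u ^ 2) ^ 2 := by
      have : 2 * (tt k φ u - (-mm k φ - hh k φ)) * (2 * (hh k φ - mm k φ - tt k φ u))
          = 4 * ((tt k φ u - (-mm k φ - hh k φ)) * (hh k φ - mm k φ - tt k φ u)) := by ring
      rw [this, gap_prod hk, one_sub_tt hk]
      field_simp
      ring
    rw [e, sqrt_sq (by positivity)]
    field_simp
  · exact (continuous_const.div (continuous_Dl k) fun u => (Dl_pos hk u).ne').continuousOn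
  · have e : ∀ u, (tt k φ u - (-mm k φ - xx k φ)) * (1 / (2 * sin φ) / Dl k u)
        = 1 / (2 * sin φ) * ((tt k φ u - (-mm k φ - xx k φ)) / Dl k u) := fun u => by ring
    simp only [e]
    rw [intervalIntegral.integral_const_mul, int_tt_sub hk hφ]; ring
  · have e : ∀ u, (tt k φ u - dd k φ) *
        ((tt k φ u - (-mm k φ - hh k φ)) * (hh k φ - mm k φ - tt k φ u))
        * (1 / (2 * sin φ) / Dl k u) = 1 / (2 * sin φ) * ((tt k φ u - dd k φ) *
        ((tt k φ u - (-mm k φ - hh k φ)) * (hh k φ - mm k φ - tt k φ u)) / Dl k u) :=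
      fun u => by ring
    simp only [e]
    rw [intervalIntegral.integral_const_mul, int_gap3 hk0 hk hφ]; ring

end Pool.Agent.Lib.MP_03314f_an
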