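import Mathlib
import Pool.Agent.Lib.MP_03314f_an.GapMom

/-! The two-parameter family of extremal functions. -/

namespace Pool.Agent.Lib.MP_03314f_an

open Set Filter Topology Real

noncomputable def GG (k φ : ℝ) : ℂ → ℂ :=
  Gf (-mm k φ - hh k φ) (hh k φ - mm k φ) (-mm k φ - xx k φ)
noncomputable def Lam (k φ : ℝ) : ℝ := (GG k φ 1).re
noncomputable def c2 (k φ : ℝ) : ℝ := hh k φ ^ 2 - 2 * mm k φ * xx k φ
noncomputable def psi0 (k φ : ℝ) : ℝ := 2 - 2 * hh k φ ^ 2 - 4 * dd k φ * mm k φ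

variable {k φ : ℝ}

theorem fam_cert (hk0 : 0 < k) (hk : k ^ 2 < 1) (hφ : φ ∈ Ioo 0 π) {L : ℝ} {g : ℂ → ℂ}
    (hg : GClass L g) : (iteratedDeriv 2 g 0 / 2).re + lam k φ / 2 * (deriv g 0).re
      ≤ c2 k φ + lam k φ * xx k φ + (L - Lam k φ) * psi0 k φ := by
  have := (gap hk0 hk hφ).main.2 L g hg
  have e : -2 * dd k φ - (-mm k φ - hh k φ) - (hh k φ - mm k φ) = lam k φ / 2 := by
    unfold dd; ring
  rw [e] at this
  refine this.trans_eq ?_
  unfold c2 psi0 Lam GG; ring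

theorem fam_jet (hk : k ^ 2 < 1) (hφ : φ ∈ Ioo 0 π) :
    deriv (GG k φ) 0 = ((2 * xx k φ : ℝ) : ℂ) ∧
    iteratedDeriv 2 (GG k φ) 0 / 2 = ((c2 k φ : ℝ) : ℂ) := by
  obtain ⟨h1, h2⟩ := jet_Gf (c := -mm k φ - xx k φ) (a_sq_lt hk hφ) (b_sq_lt hk hφ)
  unfold GG c2
  rw [h1, h2]
  constructor <;> (push_cast; ring)

theorem fam_pair {k' φ' : ℝ} (hk0 : 0 < k) (hk : k ^ 2 < 1) (hφ : φ ∈ Ioo 0 π)
    (hk0' : 0 < k') (hk' : k' ^ 2 < 1) (hφ' : φ' ∈ Ioo 0 π) :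
    c2 k' φ' + lam k φ * xx k' φ'
      ≤ c2 k φ + lam k φ * xx k φ + (Lam k' φ' - Lam k φ) * psi0 k φ := by
  have := fam_cert hk0 hk hφ (gap hk0' hk' hφ').gclass
  have h := fam_jet hk' hφ'
  unfold GG at h
  rw [h.1, h.2, Complex.ofReal_re, Complex.ofReal_re] at this
  refine Eq.trans_le ?_ this
  ring

theorem coeffVal_eq (k φ : ℝ) : coeffVal k φ = c2 k φ + 2 * xx k φ ^ 2 := by
  unfold coeffVal c2 hh mm xx; ring

theorem fam_mem (hk0 : 0 < k) (hk : k ^ 2 < 1) (hφ : φ ∈ Ioo 0 π) :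
    |coeffVal k φ| ∈ coeffSet (exp (Lam k φ)) := by
  have h := gap hk0 hk hφ
  refine ⟨_, inClass_zexp h.gclass.diff h.gclass.zero h.gclass.le h.pos, ?_⟩
  rw [a3_formula h.gclass.diff h.gclass.zero fun _ _ => rfl]
  have hj := fam_jet hk hφ
  unfold GG at hj
  rw [hj.1, hj.2, coeffVal_eq, ← Real.norm_eq_abs, ← Complex.norm_real]
  congr 1
  push_cast; ring

theorem psi0_ge (hk0 : 0 < k) (hk : k ^ 2 < 1) (hφ : φ ∈ Ioo 0 π) :
    6 * mm k φ ^ 2 < psi0 k φ := by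
  have h1 := a_lt_d hk0 hk hφ
  have h2 := d_lt_b hk0 hk hφ
  have h3 := a_sq_lt hk hφ
  have h4 := b_sq_lt hk hφ
  unfold psi0
  rcases le_total 0 (mm k φ) with h | h
  · linarith [mul_le_mul_of_nonneg_right h2.le h]
  · linarith [mul_le_mul_of_nonpos_right h1.le h]

theorem psi0_pos (hk0 : 0 < k) (hk : k ^ 2 < 1) (hφ : φ ∈ Ioo 0 π) : 0 < psi0 k φ :=
  lt_of_le_of_lt (by positivity) (psi0_ge hk0 hk hφ)

theorem abs_mm_le (k φ : ℝ) : |mm k φ| ≤ 1 := by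
  rw [mm, abs_mul, abs_of_nonneg (show 0 ≤ Dl k φ from sqrt_nonneg _)]
  exact mul_le_one₀ (abs_cos_le_one φ) (sqrt_nonneg _) (Dl_le_one k φ)

theorem abs_lam_le (hk0 : 0 < k) (hk : k ^ 2 < 1) (hφ : φ ∈ Ioo 0 π) : |lam k φ| ≤ 8 := by
  have h1 := a_lt_d hk0 hk hφ
  have h2 := d_lt_b hk0 hk hφ
  have h3 := abs_lt_of_sq_lt_sq' (show _ < (1 : ℝ) ^ 2 by simpa using a_sq_lt hk hφ) zero_le_one
  have h4 := abs_lt_of_sq_lt_sq' (show _ < (1 : ℝ) ^ 2 by simpa using b_sq_lt hk hφ) zero_le_one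
  have h5 := abs_le.1 (abs_mm_le k φ)
  unfold dd at h1 h2
  rw [abs_le]; constructor <;> linarith [h3.1, h4.2, h5.1, h5.2]

theorem Lam_bound (hk0 : 0 < k) (hk : k ^ 2 < 1) (hφ : φ ∈ Ioo 0 π) :
    0 ≤ Lam k φ ∧ Lam k φ * psi0 k φ ≤ c2 k φ + lam k φ * xx k φ := by
  constructor
  · have := (gap hk0 hk hφ).main.1 0 (Metric.mem_ball_self one_pos)
    rwa [Gf_zero] at this
  · have := fam_cert hk0 hk hφ (L := 0) (g := fun _ => 0)
      ⟨differentiableOn_const _, rfl, fun _ _ => by simp, fun _ _ => by simp⟩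
    simp at this
    linarith

theorem continuousAt_mm (k φ : ℝ) : ContinuousAt (fun p : ℝ × ℝ => mm p.1 p.2) (k, φ) := by
  unfold mm; fun_prop

theorem continuousAt_hh (k φ : ℝ) : ContinuousAt (fun p : ℝ × ℝ => hh p.1 p.2) (k, φ) := by
  unfold hh; fun_prop

theorem continuousAt_xx (hk : k ^ 2 < 1) (φ : ℝ) :
    ContinuousAt (fun p : ℝ × ℝ => xx p.1 p.2) (k, φ) := by
  have := continuousAt_Zeta2 hk φ
  unfold xx; fun_prop

theorem continuousAt_NN (hk : k ^ 2 < 1) (φ : ℝ) :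
    ContinuousAt (fun p : ℝ × ℝ => NN p.1 p.2) (k, φ) := by
  have := continuousAt_eta2 hk φ
  have := continuousAt_mm k φ
  have := continuousAt_xx hk φ
  unfold NN; fun_prop

theorem continuousAt_lam (hk0 : 0 < k) (hk : k ^ 2 < 1) (hφ : φ ∈ Ioo 0 π) :
    ContinuousAt (fun p : ℝ × ℝ => lam p.1 p.2) (k, φ) := by
  have := continuousAt_mm k φ
  have := continuousAt_hh k φ
  have := continuousAt_xx hk φ
  have := continuousAt_NN hk φ
  have := (NN_pos hk0 hk hφ).ne'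
  unfold lam; fun_prop (disch := assumption)

theorem continuousAt_psi0 (hk0 : 0 < k) (hk : k ^ 2 < 1) (hφ : φ ∈ Ioo 0 π) :
    ContinuousAt (fun p : ℝ × ℝ => psi0 p.1 p.2) (k, φ) := by
  have := continuousAt_mm k φ
  have := continuousAt_hh k φ
  have := continuousAt_lam hk0 hk hφ
  unfold psi0 dd; fun_prop

theorem hasDerivAt_Lam_phi (hk0 : 0 < k) (hk : k ^ 2 < 1) (hφ : φ ∈ Ioo 0 π) :
    HasDerivAt (Lam k) (2 * (Zeta k φ / Dl k φ)) φ := by
  have dm : HasDerivAt (mm k) _ φ := (hasDerivAt_cos φ).mul (hasDerivAt_Dl_phi hk φ)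
  have dh : HasDerivAt (hh k) _ φ := ((hasDerivAt_sin φ).pow 2).const_mul k
  have dx : HasDerivAt (xx k) _ φ := (hasDerivAt_sin φ).mul (hasDerivAt_Zeta hk φ)
  have dc : HasDerivAt (c2 k) _ φ := (dh.pow 2).sub ((dm.const_mul 2).mul dx)
  have := hasDerivAt_envelope (Λ := Lam k) (lam := lam k) (ψ := psi0 k) dc dx
    ((continuousAt_lam hk0 hk hφ).comp (f := fun φ => (k, φ)) (by fun_prop))
    ((continuousAt_psi0 hk0 hk hφ).comp (f := fun φ => (k, φ)) (by fun_prop))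
    (psi0_pos hk0 hk hφ)
    (by filter_upwards [isOpen_Ioo.mem_nhds hφ] with s hs using fam_pair hk0 hk hφ hk0 hk hs)
    (by filter_upwards [isOpen_Ioo.mem_nhds hφ] with s hs using fam_pair hk0 hk hs hk0 hk hφ)
  refine this.congr_deriv ?_
  rw [div_eq_iff (psi0_pos hk0 hk hφ).ne']
  have h1 := Dl_sq hk φ
  have h2 := sin_sq_add_cos_sq φ
  have h3 := (NN_pos hk0 hk hφ).ne'
  have h4 := (Dl_pos hk φ).ne'
  unfold psi0 dd lam
  field_simp
  unfold NN mm hh xx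
  grind

noncomputable def Lk (k φ : ℝ) : ℝ :=
  ((hh k φ - xx k φ) ^ 2 * (Dl k φ + k * cos φ) + (hh k φ + xx k φ) ^ 2 * (Dl k φ - k * cos φ))
    / (2 * hh k φ * Dl k φ * (1 - k ^ 2))

theorem eventually_k (hk0 : 0 < k) (hk : k ^ 2 < 1) : ∀ᶠ t in 𝓝 k, 0 < t ∧ t ^ 2 < 1 :=
  (lt_mem_nhds hk0).and (isOpen_sq_lt.mem_nhds hk)

theorem hasDerivAt_Lam_k (hk0 : 0 < k) (hk : k ^ 2 < 1) (hφ : φ ∈ Ioo 0 π) :
    HasDerivAt (fun k => Lam k φ) (Lk k φ) k := by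
  have dm : HasDerivAt (fun k => mm k φ) _ k := (hasDerivAt_Dl_k hk φ).const_mul (cos φ)
  have dh : HasDerivAt (fun k => hh k φ) _ k := (hasDerivAt_id k).mul_const (sin φ ^ 2)
  have dx : HasDerivAt (fun k => xx k φ) _ k :=
    (hasDerivAt_Zeta_k hk hk0.ne' φ).const_mul (sin φ)
  have dc : HasDerivAt (fun k => c2 k φ) _ k := (dh.pow 2).sub ((dm.const_mul 2).mul dx)
  have := hasDerivAt_envelope (Λ := fun k => Lam k φ) (lam := fun k => lam k φ)
    (ψ := fun k => psi0 k φ) dc dx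
    ((continuousAt_lam hk0 hk hφ).comp (f := fun k => (k, φ)) (by fun_prop))
    ((continuousAt_psi0 hk0 hk hφ).comp (f := fun k => (k, φ)) (by fun_prop))
    (psi0_pos hk0 hk hφ)
    (by filter_upwards [eventually_k hk0 hk] with s hs using fam_pair hk0 hk hφ hs.1 hs.2 hφ)
    (by filter_upwards [eventually_k hk0 hk] with s hs using fam_pair hs.1 hs.2 hφ hk0 hk hφ)
  refine this.congr_deriv ?_
  rw [div_eq_iff (psi0_pos hk0 hk hφ).ne']
  have h1 := Dl_sq hk φ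
  have h2 := sin_sq_add_cos_sq φ
  have h3 := (NN_pos hk0 hk hφ).ne'
  have h4 := (Dl_pos hk φ).ne'
  have h5 := (sin_pos_of_mem_Ioo hφ).ne'
  have h6 : 1 - k ^ 2 ≠ 0 := by linarith
  have h7 := hk0.ne'
  unfold psi0 dd lam Lk Zk hh
  field_simp
  unfold NN mm xx
  grind

theorem const_of_deriv_zero {f : ℝ → ℝ} {a b : ℝ} (hd : ∀ x ∈ Ioo a b, HasDerivAt f 0 x)
    (hl : Tendsto f (𝓝[>] a) (𝓝 0)) : ∀ x ∈ Ioo a b, f x = 0 := by
  intro x hx
  have : f =ᶠ[𝓝[>] a] fun _ => f x := by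
    filter_upwards [Ioo_mem_nhdsGT hx.1] with y hy
    exact (eq_of_deriv_zero hy.2.le (fun z hz => (hd z ⟨hy.1.trans_le hz.1,
      hz.2.trans_lt hx.2⟩).continuousAt.continuousWithinAt)
      fun z hz => hd z ⟨hy.1.trans hz.1, hz.2.trans hx.2⟩).symm
  exact tendsto_nhds_unique tendsto_const_nhds (hl.congr' this)

theorem Lam_eq (hk0 : 0 < k) (hk : k ^ 2 < 1) (hφ : φ ∈ Ioo 0 π) : Lam k φ = logBound k φ := by
  have h := const_of_deriv_zero (f := fun φ => Lam k φ - logBound k φ) (a := 0) (b := π)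
    (fun x hx => ((hasDerivAt_Lam_phi hk0 hk hx).sub (hasDerivAt_logBound hk x)).congr_deriv
      (sub_self _)) ?_ φ hφ
  · linarith
  have h1 : Tendsto (logBound k) (𝓝[>] 0) (𝓝 0) := by
    have := (continuous_logBound hk).tendsto 0
    rw [logBound_zero] at this
    exact this.mono_left nhdsWithin_le_nhds
  have h2 : Tendsto (Lam k) (𝓝[>] 0) (𝓝 0) := by
    have cZ := continuous_Zeta hk
    have hc : ContinuousAt (fun φ => (|c2 k φ| + 8 * |xx k φ|) / (6 * mm k φ ^ 2)) 0 := by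
      unfold c2 xx mm hh
      fun_prop (disch := simp [Dl_zero])
    have h3 := hc.tendsto.mono_left (nhdsWithin_le_nhds (s := Ioi 0))
    have e : (|c2 k 0| + 8 * |xx k 0|) / (6 * mm k 0 ^ 2) = 0 := by simp [c2, xx, hh]
    rw [e] at h3
    refine tendsto_of_tendsto_of_tendsto_of_le_of_le' tendsto_const_nhds h3 ?_ ?_
    · filter_upwards [Ioo_mem_nhdsGT pi_pos] with x hx using (Lam_bound hk0 hk hx).1
    · filter_upwards [Ioo_mem_nhdsGT pi_div_two_pos] with x hx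
      have hx' : x ∈ Ioo 0 π := ⟨hx.1, by linarith [hx.2, pi_pos]⟩
      obtain ⟨b1, b2⟩ := Lam_bound hk0 hk hx'
      have hm : 0 < mm k x :=
        mul_pos (cos_pos_of_mem_Ioo ⟨by linarith [hx.1, pi_pos], hx.2⟩) (Dl_pos hk x)
      rw [le_div_iff₀ (by positivity)]
      have b3 := mul_le_mul_of_nonneg_left (psi0_ge hk0 hk hx').le b1
      have b4 : lam k x * xx k x ≤ 8 * |xx k x| := by
        refine (le_abs_self _).trans ?_
        rw [abs_mul]
        exact mul_le_mul_of_nonneg_right (abs_lam_le hk0 hk hx') (abs_nonneg _)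
      linarith [le_abs_self (c2 k x)]
  simpa using h2.sub h1

theorem hasDerivAt_logBound_k (hk0 : 0 < k) (hk : k ^ 2 < 1) (hφ : φ ∈ Ioo 0 π) :
    HasDerivAt (fun k => logBound k φ) (Lk k φ) k := by
  refine (hasDerivAt_Lam_k hk0 hk hφ).congr_of_eventuallyEq ?_
  filter_upwards [eventually_k hk0 hk] with t ht using (Lam_eq ht.1 ht.2 hφ).symm

theorem half_mem : π / 2 ∈ Ioo 0 π := ⟨pi_div_two_pos, by linarith [pi_pos]⟩

theorem logBound_half (hk0 : 0 < k) (hk : k ^ 2 < 1) :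
    logBound k (π / 2) = -log (1 - k ^ 2) / 2 := by
  have hsq : ∀ x ∈ Ioo (0 : ℝ) 1, x ^ 2 < 1 := fun x hx => by nlinarith [hx.1, hx.2]
  have h := const_of_deriv_zero (f := fun k => logBound k (π / 2) + log (1 - k ^ 2) / 2)
    (a := 0) (b := 1) (fun x hx => ?_) ?_ k ⟨hk0, by nlinarith⟩
  · linarith
  · have h1 := hsq x hx
    have h6 : 1 - x ^ 2 ≠ 0 := by linarith
    refine ((hasDerivAt_logBound_k hx.1 h1 half_mem).add
      (((((hasDerivAt_id x).pow 2).const_sub 1).log h6).div_const 2)).congr_deriv ?_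
    have h4 := (Dl_pos h1 (π / 2)).ne'
    have h7 := hx.1.ne'
    simp only [Lk, hh, xx, Zeta_half h1, sin_pi_div_two, cos_pi_div_two, id, Pi.pow_apply]
    field_simp
    ring
  have h1 : Tendsto (fun k : ℝ => log (1 - k ^ 2) / 2) (𝓝[>] 0) (𝓝 0) := by
    have hc : ContinuousAt (fun k : ℝ => log (1 - k ^ 2) / 2) 0 := by fun_prop (disch := simp)
    simpa using hc.tendsto.mono_left (nhdsWithin_le_nhds (s := Ioi 0))
  have h2 : Tendsto (fun k => logBound k (π / 2)) (𝓝[>] 0) (𝓝 0) := by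
    have hc : ContinuousAt (fun k : ℝ => k ^ 2 / (2 - 2 * k ^ 2)) 0 := by fun_prop (disch := simp)
    have h3 := hc.tendsto.mono_left (nhdsWithin_le_nhds (s := Ioi 0))
    simp only [ne_eq, OfNat.ofNat_ne_zero, not_false_eq_true, zero_pow, zero_div] at h3
    refine tendsto_of_tendsto_of_tendsto_of_le_of_le' tendsto_const_nhds h3 ?_ ?_
    · filter_upwards [Ioo_mem_nhdsGT (zero_lt_one' ℝ)] with x hx
      rw [← Lam_eq hx.1 (hsq x hx) half_mem]
      exact (Lam_bound hx.1 (hsq x hx) half_mem).1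
    · filter_upwards [Ioo_mem_nhdsGT (zero_lt_one' ℝ)] with x hx
      have h1 := hsq x hx
      rw [← Lam_eq hx.1 h1 half_mem, le_div_iff₀ (by linarith)]
      have := (Lam_bound hx.1 h1 half_mem).2
      simpa [psi0, c2, xx, mm, hh, Zeta_half h1] using this
  simpa using h2.add h1

theorem hasFDerivAt_logBound (hk0 : 0 < k) (hk : k ^ 2 < 1) (hφ : φ ∈ Ioo 0 π) :
    ∃ L' : ℝ × ℝ →L[ℝ] ℝ, HasFDerivAt (fun p : ℝ × ℝ => logBound p.1 p.2) L' (k, φ) ∧
      ∀ x y, L' (x, y) = Lk k φ * x + 2 * (Zeta k φ / Dl k φ) * y := by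
  have hev : ∀ᶠ v : ℝ × ℝ in 𝓝 (k, φ), (0 < v.1 ∧ v.1 ^ 2 < 1) ∧ v.2 ∈ Ioo 0 π :=
    ((continuousAt_fst (p := (k, φ))).eventually (eventually_k hk0 hk)).and
      ((continuousAt_snd (p := (k, φ))).eventually (isOpen_Ioo.mem_nhds hφ))
  have c1 := continuousAt_hh k φ
  have c2 := continuousAt_xx hk φ
  have c3 := continuousAt_Zeta2 hk φ
  have h4 := (Dl_pos hk φ).ne'
  have h5 : 2 * hh k φ * Dl k φ * (1 - k ^ 2) ≠ 0 := by
    have h5 := sin_pos_of_mem_Ioo hφ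
    have h6 : 0 < 1 - k ^ 2 := by linarith
    have h4 := Dl_pos hk φ
    unfold hh; positivity
  exact hasFDerivAt_of_partials (f := logBound) (f₁ := Lk)
    (f₂ := fun k φ => 2 * (Zeta k φ / Dl k φ)) (u := (k, φ))
    (hev.mono fun v hv => hasDerivAt_logBound_k hv.1.1 hv.1.2 hv.2)
    (hev.mono fun v hv => hasDerivAt_logBound hv.1.2 _)
    (by unfold Lk; fun_prop (disch := assumption))
    (by fun_prop (disch := assumption))

end Pool.Agent.Lib.MP_03314f_an
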