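import Mathlib
import Pool.Agent.Lib.MP_03314f_an.Check

/-! One more polynomial inequality. -/

namespace Pool.Agent.Lib.MP_03314f_an

noncomputable def qeta (u : ℝ) : ℝ := -(697 / 200) * u ^ 4 + (2291 / 500) * u ^ 3 - (2307 / 1000) * u ^ 2 - (87 / 250) * u + (289 / 500)

def i_qeta_P : P3 := [[[92929976870939236761600, 83650319971841491337216, -5094229302235952578560, 40753054061500039168, 2182935059680460800, -17068359300415488, -448145991401472, 805003370496, 40285589760, 157365585]]]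

def i_qeta_T : Tr := (Tr.X 32 (Tr.X 16 Tr.L (Tr.X 8 Tr.L Tr.L)) (Tr.X 16 Tr.L (Tr.X 8 Tr.L Tr.L)))

theorem i_qeta_chk : chk i_qeta_T 64 0 0 i_qeta_P = true := by decide +kernel

theorem i_qeta (s : ℝ) (hs0 : (4 / 13 : ℝ) ≤ s) (hs1 : s ≤ (1 : ℝ)) :
    0 < s ^ 2 - (39 / 100 : ℝ) - s * qeta ((1 - s ^ 2) / (153 / 169 : ℝ)) := by
  have h := chk_sound _ _ _ _ _ i_qeta_chk ((s - (4 / 13 : ℝ)) * (832 / 9 : ℝ)) (0 : ℝ) (0 : ℝ)
    (by linarith) (by push_cast; linarith) (le_refl _) (by norm_num) (le_refl _) (by norm_num)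
  have e : ev3 ((s - (4 / 13 : ℝ)) * (832 / 9 : ℝ)) (0 : ℝ) (0 : ℝ) i_qeta_P = (14957301039227362869248000 : ℝ) * (s ^ 2 - (39 / 100 : ℝ) - s * qeta ((1 - s ^ 2) / (153 / 169 : ℝ))) := by
    simp only [i_qeta_P, ev3, ev2, ev1, leval, qeta]
    push_cast
    ring
  rw [e] at h
  exact (mul_pos_iff_of_pos_left (by norm_num)).1 h

end Pool.Agent.Lib.MP_03314f_an
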