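import Mathlib
import Pool.Agent.Lib.MP_03314f_an.Family
import Pool.Agent.Lib.MP_03314f_an.Ineq
import Pool.Agent.Lib.MP_03314f_an.Ineq2

/-! Inequalities for elliptic integrals. -/

namespace Pool.Agent.Lib.MP_03314f_an

open Set Filter Topology Real intervalIntegral

variable {k φ : ℝ}

theorem Dl_anti (hk0 : 0 < k) {x y : ℝ} (hx : 0 ≤ x) (hxy : x < y) (hy : y ≤ π / 2) :
    1 - k ^ 2 * sin y ^ 2 < 1 - k ^ 2 * sin x ^ 2 := by
  have h1 : sin x < sin y := sin_lt_sin_of_lt_of_le_pi_div_two (by linarith [pi_pos]) hy hxy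
  have h2 : 0 ≤ sin x := sin_nonneg_of_nonneg_of_le_pi hx (by linarith [pi_pos])
  have h3 : sin x ^ 2 < sin y ^ 2 := by nlinarith
  have := mul_lt_mul_of_pos_left h3 (pow_pos hk0 2)
  linarith

theorem Dl_anti' (hk0 : 0 < k) {x y : ℝ} (hx : 0 ≤ x) (hxy : x ≤ y) (hy : y ≤ π / 2) :
    Dl k y ≤ Dl k x := by
  rcases eq_or_lt_of_le hxy with rfl | h
  · exact le_rfl
  · exact sqrt_le_sqrt (Dl_anti hk0 hx h hy).le

theorem Zeta_pos (hk0 : 0 < k) (hk : k ^ 2 < 1) (hφ : φ ∈ Ioo 0 (π / 2)) : 0 < Zeta k φ := by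
  have := unimodal_strict (u := Zeta k) (u' := fun φ => Dl k φ - eta k / Dl k φ)
    (continuous_Zeta hk).continuousOn (fun x _ => hasDerivAt_Zeta hk x)
    (fun x hx y hy hxy h => by
      have h1 := Dl_anti hk0 hx.1.le hxy hy.2.le
      rw [← Dl_sq hk, ← Dl_sq hk] at h1
      rw [sub_nonpos, le_div_iff₀ (Dl_pos hk x)] at h
      rw [sub_neg, lt_div_iff₀ (Dl_pos hk y)]
      linarith)
    (by rw [Zeta_zero, Zeta_half hk]) φ hφ
  rwa [Zeta_zero] at this

theorem Zeta_nonneg (hk0 : 0 < k) (hk : k ^ 2 < 1) (hφ : φ ∈ Icc 0 (π / 2)) : 0 ≤ Zeta k φ := by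
  rcases eq_or_lt_of_le hφ.1 with h | h
  · rw [← h, Zeta_zero]
  rcases eq_or_lt_of_le hφ.2 with h' | h'
  · rw [h', Zeta_half hk]
  exact (Zeta_pos hk0 hk ⟨h, h'⟩).le

theorem kp_pos (hk : k ^ 2 < 1) : 0 < √(1 - k ^ 2) := sqrt_pos.2 (by linarith)

theorem kp_sq (hk : k ^ 2 < 1) : √(1 - k ^ 2) ^ 2 = 1 - k ^ 2 := sq_sqrt (by linarith)

theorem kp_le_one (k : ℝ) : √(1 - k ^ 2) ≤ 1 := sqrt_le_one.2 (by linarith [sq_nonneg k])

theorem hasDerivAt_I2 (hk : k ^ 2 < 1) (φ : ℝ) :
    HasDerivAt (fun φ => k ^ 2 * sin φ * cos φ / (√(1 - k ^ 2) + Dl k φ) - Zeta k φ)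
      ((eta k - √(1 - k ^ 2) * (1 + √(1 - k ^ 2) * Dl k φ) / (√(1 - k ^ 2) + Dl k φ))
        / Dl k φ) φ := by
  have h0 := kp_pos hk
  have h4 := Dl_pos hk φ
  have h5 : √(1 - k ^ 2) + Dl k φ ≠ 0 := by positivity
  have := ((((hasDerivAt_sin φ).const_mul (k ^ 2)).mul (hasDerivAt_cos φ)).div
    ((hasDerivAt_Dl_phi hk φ).const_add √(1 - k ^ 2)) h5).sub (hasDerivAt_Zeta hk φ)
  refine this.congr_deriv ?_
  have h1 := Dl_sq hk φ
  have h2 := sin_sq_add_cos_sq φ
  have h3 := kp_sq hk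
  simp only [Pi.mul_apply]
  generalize √(1 - k ^ 2) = r at *
  field_simp
  grind

theorem Zeta_le (hk0 : 0 < k) (hk : k ^ 2 < 1) (hφ : φ ∈ Icc 0 (π / 2)) :
    Zeta k φ ≤ k ^ 2 * sin φ * cos φ / (√(1 - k ^ 2) + Dl k φ) := by
  have h0 := kp_pos hk
  have := unimodal (fun x _ => (hasDerivAt_I2 hk x).continuousAt.continuousWithinAt)
    (fun x _ => hasDerivAt_I2 hk x)
    (fun x hx y hy hxy h => by
      have h1 := Dl_anti' hk0 hx.1.le hxy hy.2.le
      have h2 := Dl_pos hk x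
      have h3 := Dl_pos hk y
      have h4 := kp_le_one k
      refine div_nonpos_of_nonpos_of_nonneg ?_ h3.le
      have h5 := (div_neg_iff.1 h).resolve_left (fun h => by linarith [h.2])
      generalize √(1 - k ^ 2) = r at *
      have : r * (1 + r * Dl k x) / (r + Dl k x) ≤ r * (1 + r * Dl k y) / (r + Dl k y) := by
        rw [div_le_div_iff₀ (by positivity) (by positivity)]
        have := mul_nonneg (mul_nonneg h0.le (sub_nonneg.2 h1))
          (mul_nonneg (sub_nonneg.2 h4) (show 0 ≤ 1 + r by linarith))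
        linarith
      linarith [h5.1])
    (by simp [Zeta_zero, Zeta_half hk]) φ hφ
  simp only [sin_zero, mul_zero, zero_mul, zero_div, Zeta_zero, sub_zero] at this
  linarith

theorem kp_le_eta (hk : k ^ 2 < 1) : √(1 - k ^ 2) ≤ eta k := by
  by_contra hlt
  push Not at hlt
  have h0 := kp_pos hk
  have := gt_of_deriv_neg pi_div_two_pos
    (fun x _ => (hasDerivAt_I2 hk x).continuousAt.continuousWithinAt)
    (fun x _ => hasDerivAt_I2 hk x) (fun x _ => by
      have h2 := Dl_pos hk x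
      have h3 := Dl_le_one k x
      have h4 := kp_le_one k
      refine div_neg_of_neg_of_pos ?_ h2
      generalize √(1 - k ^ 2) = r at *
      have : r ≤ r * (1 + r * Dl k x) / (r + Dl k x) := by
        rw [le_div_iff₀ (by positivity)]
        have := mul_nonneg h0.le (mul_nonneg (sub_nonneg.2 h4) (sub_nonneg.2 h3))
        linarith
      linarith)
  simp [Zeta_zero, Zeta_half hk] at this

theorem I2 (hk0 : 0 < k) (hk : k ^ 2 < 1) (hφ : φ ∈ Icc 0 (π / 2)) :
    (Dl k φ - k * cos φ) * (hh k φ + xx k φ) ^ 2 ≤ (Dl k φ + k * cos φ) * (hh k φ - xx k φ) ^ 2 := by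
  have h0 := kp_pos hk
  have h1 := Zeta_le hk0 hk hφ
  have h2 := Zeta_nonneg hk0 hk hφ
  have h3 := kp_sq hk
  have h4 := Dl_pos hk φ
  have hP := P_pos hk φ
  have hQ := Q_pos hk φ
  have h5 := PQ hk φ
  have hs : 0 ≤ sin φ := sin_nonneg_of_nonneg_of_le_pi hφ.1 (by linarith [hφ.2, pi_pos])
  rw [le_div_iff₀ (by positivity)] at h1
  generalize √(1 - k ^ 2) = r at *
  set P := Dl k φ - k * cos φ with hPd
  set Q := Dl k φ + k * cos φ with hQd
  have h6 : (hh k φ + xx k φ) * (r + P) ≤ (hh k φ - xx k φ) * (r + Q) := by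
    have := mul_le_mul_of_nonneg_left h1 hs
    unfold hh xx; rw [hPd, hQd]; linarith
  have h7 : 0 ≤ (hh k φ + xx k φ) * (r + P) := by unfold hh xx; positivity
  have h8 := mul_le_mul_of_nonneg_left (pow_le_pow_left₀ h7 h6 2) hQ.le
  have h9 : Q * (r + P) ^ 2 = P * (r + Q) ^ 2 := by linear_combination (Q - P) * (h3 - h5)
  have h10 : P * (hh k φ + xx k φ) ^ 2 * (r + Q) ^ 2 ≤ Q * (hh k φ - xx k φ) ^ 2 * (r + Q) ^ 2 := by
    calc P * (hh k φ + xx k φ) ^ 2 * (r + Q) ^ 2
        = Q * ((hh k φ + xx k φ) * (r + P)) ^ 2 := by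
          linear_combination (-(hh k φ + xx k φ) ^ 2) * h9
      _ ≤ _ := h8.trans_eq (by ring)
  exact le_of_mul_le_mul_right h10 (by positivity)

theorem wallis (n : ℕ) : ∫ x in (0 : ℝ)..π / 2, sin x ^ (n + 2)
    = (n + 1) / (n + 2) * ∫ x in (0 : ℝ)..π / 2, sin x ^ n := by
  rw [integral_sin_pow]; simp

theorem int_poly (c0 c1 c2 c3 c4 c5 c6 c7 : ℝ) :
    ∫ x in (0 : ℝ)..π / 2, (c0 * sin x ^ 0 + c1 * sin x ^ 2 + c2 * sin x ^ 4 + c3 * sin x ^ 6
      + c4 * sin x ^ 8 + c5 * sin x ^ 10 + c6 * sin x ^ 12 + c7 * sin x ^ 14)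
    = π / 2 * (c0 + c1 / 2 + c2 * (3 / 8) + c3 * (5 / 16) + c4 * (35 / 128) + c5 * (63 / 256)
      + c6 * (231 / 1024) + c7 * (429 / 2048)) := by
  have hi : ∀ (c : ℝ) (n : ℕ), IntervalIntegrable (fun x => c * sin x ^ n) MeasureTheory.volume
      0 (π / 2) := fun c n => Continuous.intervalIntegrable (by fun_prop) _ _
  have w0 : ∫ x in (0 : ℝ)..π / 2, sin x ^ 0 = π / 2 := by simp
  have w2 := wallis 0
  have w4 := wallis 2
  have w6 := wallis 4
  have w8 := wallis 6
  have w10 := wallis 8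
  have w12 := wallis 10
  have w14 := wallis 12
  repeat rw [integral_add (Continuous.intervalIntegrable (by fun_prop) _ _) (hi _ _)]
  simp only [intervalIntegral.integral_const_mul]
  norm_num at w2 w4 w6 w8 w10 w12 w14
  rw [w14, w12, w10, w8, w6, w4, w0, integral_sin_sq]
  simp
  ring

theorem eta_sub (hk : k ^ 2 < 1) (c : ℝ) : ∫ x in (0 : ℝ)..π / 2, (Dl k x - c * (1 / Dl k x))
    = ellF k (π / 2) * (eta k - c) := by
  have c1 := continuous_invDl hk
  rw [integral_sub ((continuous_Dl k).intervalIntegrable _ _)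
    (Continuous.intervalIntegrable (by fun_prop) _ _),
    intervalIntegral.integral_const_mul, eta]
  have := (ellF_pos hk pi_div_two_pos).ne'
  rw [← ellE, ← ellF]
  field_simp

theorem eta_le_num (hk : k ^ 2 = 13509 / 15625) : eta k ≤ 3638219 / 7812500 := by
  have hk1 : k ^ 2 < 1 := by rw [hk]; norm_num
  have h1 := eta_sub hk1 (3638219 / 7812500)
  have h2 := int_poly (26751 / 50000) (-(2082 / 3125)) (22161 / 50000) (-(256571 / 50000))
    (1754599 / 100000) (-(199059 / 6250)) (2834801 / 100000) (-(252977 / 25000))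
  have c1 := continuous_invDl hk1
  have h3 : ellF k (π / 2) * (eta k - 3638219 / 7812500) ≤ 0 := by
    rw [← h1]
    refine (integral_mono_on pi_div_two_pos.le (Continuous.intervalIntegrable (by fun_prop) _ _)
      (Continuous.intervalIntegrable (by fun_prop) _ _) fun x _ => ?_).trans (h2.trans_le ?_)
    · have h4 := Dl_pos hk1 x
      have h5 : 46 / 125 ≤ Dl k x := by
        refine le_trans ?_ (kp_le_Dl k x)
        rw [hk]
        exact le_sqrt_of_sq_le (by norm_num)
      have h6 := i_peta _ h5 (Dl_le_one k x)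
      have h7 : (1 - Dl k x ^ 2) / (13509 / 15625) = sin x ^ 2 := by
        rw [Dl_sq hk1, hk]; ring
      rw [h7] at h6
      have h8 : Dl k x - 3638219 / 7812500 * (1 / Dl k x) ≤ peta (sin x ^ 2) := by
        have : Dl k x - 3638219 / 7812500 * (1 / Dl k x)
            = (Dl k x ^ 2 - 3638219 / 7812500) / Dl k x := by field_simp
        rw [this, div_le_iff₀ h4]; linarith
      refine h8.trans_eq ?_
      unfold peta; ring
    · exact mul_nonpos_of_nonneg_of_nonpos pi_div_two_pos.le (by norm_num)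
  by_contra h
  linarith [mul_pos (ellF_pos hk1 pi_div_two_pos) (sub_pos.2 (not_le.1 h))]

theorem eta_ge_num (hk : k ^ 2 = 153 / 169) : 39 / 100 ≤ eta k := by
  have hk1 : k ^ 2 < 1 := by rw [hk]; norm_num
  have h1 := eta_sub hk1 (39 / 100)
  have h2 := int_poly (289 / 500) (-(87 / 250)) (-(2307 / 1000)) (2291 / 500) (-(697 / 200)) 0 0 0
  have c1 := continuous_invDl hk1
  have h3 : 0 ≤ ellF k (π / 2) * (eta k - 39 / 100) := by
    rw [← h1]
    refine le_trans (le_of_le_of_eq ?_ h2.symm) (integral_mono_on pi_div_two_pos.le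
      (Continuous.intervalIntegrable (by fun_prop) _ _)
      (Continuous.intervalIntegrable (by fun_prop) _ _) fun x _ => ?_)
    · exact mul_nonneg pi_div_two_pos.le (by norm_num)
    · have h4 := Dl_pos hk1 x
      have h5 : 4 / 13 ≤ Dl k x := by
        refine le_trans ?_ (kp_le_Dl k x)
        rw [hk]
        exact le_sqrt_of_sq_le (by norm_num)
      have h6 := i_qeta _ h5 (Dl_le_one k x)
      have h7 : (1 - Dl k x ^ 2) / (153 / 169) = sin x ^ 2 := by
        rw [Dl_sq hk1, hk]; ring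
      rw [h7] at h6
      have h8 : qeta (sin x ^ 2) ≤ Dl k x - 39 / 100 * (1 / Dl k x) := by
        have : Dl k x - 39 / 100 * (1 / Dl k x) = (Dl k x ^ 2 - 39 / 100) / Dl k x := by
          field_simp
        rw [this, le_div_iff₀ h4]; linarith
      refine Eq.trans_le ?_ h8
      unfold qeta; ring
  have := (mul_nonneg_iff_of_pos_left (ellF_pos hk1 pi_div_two_pos)).1 h3
  linarith

theorem eta_le (hk0 : 0 < k) (hk : k ^ 2 < 1) (h : 13509 / 15625 ≤ k ^ 2) :
    eta k ≤ 1 - k ^ 2 + 191 / 500 * k ^ 2 := by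
  set k₀ := √(13509 / 15625 : ℝ) with hk₀
  have h1 : k₀ ^ 2 = 13509 / 15625 := sq_sqrt (by norm_num)
  have h2 : 0 < k₀ := sqrt_pos.2 (by norm_num)
  have h3 : k₀ ≤ k := sqrt_le_iff.2 ⟨hk0.le, h⟩
  have hd : ∀ x ∈ Icc k₀ k, HasDerivAt (fun x => (eta x - (1 - x ^ 2)) / x ^ 2)
      ((1 - eta x ^ 2 / (1 - x ^ 2)) / x ^ 3) x := by
    intro x hx
    have hx0 : 0 < x := h2.trans_le hx.1
    have hx1 : x ^ 2 < 1 := (pow_le_pow_left₀ hx0.le hx.2 2).trans_lt hk
    have := ((hasDerivAt_eta hx1 hx0.ne').sub (((hasDerivAt_id x).pow 2).const_sub 1)).div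
      ((hasDerivAt_id x).pow 2) (pow_ne_zero 2 hx0.ne')
    refine this.congr_deriv ?_
    have : 1 - x ^ 2 ≠ 0 := by linarith
    simp only [id, Pi.pow_apply, Pi.sub_apply]
    field_simp
    ring
  have h4 := ge_of_deriv_nonpos h3 (fun x hx => (hd x hx).continuousAt.continuousWithinAt)
    (fun x hx => hd x (Ioo_subset_Icc_self hx)) (fun x hx => by
      have hx0 : 0 < x := h2.trans hx.1
      have hx1 : x ^ 2 < 1 := (pow_le_pow_left₀ hx0.le hx.2.le 2).trans_lt hk
      refine div_nonpos_of_nonpos_of_nonneg ?_ (by positivity)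
      rw [sub_nonpos, le_div_iff₀ (by linarith), one_mul, ← kp_sq hx1]
      exact pow_le_pow_left₀ (kp_pos hx1).le (kp_le_eta hx1) 2)
  have h5 := eta_le_num h1
  rw [h1, div_le_iff₀ (by positivity)] at h4
  have h6 : (eta k₀ - (1 - 13509 / 15625)) / (13509 / 15625) ≤ 191 / 500 := by
    rw [div_le_iff₀ (by norm_num)]; linarith
  linarith [mul_le_mul_of_nonneg_right h6 (sq_nonneg k)]

theorem e1_nonneg (hk : k ^ 2 < 1) (hφ : 0 ≤ φ) : 0 ≤ ellE k φ - k * sin φ := by
  have hd : ∀ x, HasDerivAt (fun x => ellE k x - k * sin x) (Dl k x - k * cos x) x := fun x =>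
    (hasDerivAt_ellE k x).sub ((hasDerivAt_sin x).const_mul k)
  have := le_of_deriv_nonneg hφ (fun x _ => (hd x).continuousAt.continuousWithinAt)
    (fun x _ => hd x) fun x _ => (P_pos hk x).le
  simpa [ellE_zero] using this

theorem e1_le (hk0 : 0 < k) (hk : k ^ 2 < 1) (hφ : φ ∈ Icc 0 (π / 2)) :
    ellE k φ - k * sin φ ≤ ellF k φ * (Dl k φ * (Dl k φ - k * cos φ)) := by
  have hd : ∀ x, HasDerivAt (fun x => ellF k x * (Dl k φ * (Dl k φ - k * cos φ))
      - (ellE k x - k * sin x))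
      (1 / Dl k x * (Dl k φ * (Dl k φ - k * cos φ)) - (Dl k x - k * cos x)) x := fun x =>
    ((hasDerivAt_ellF hk x).mul_const _).sub
      ((hasDerivAt_ellE k x).sub ((hasDerivAt_sin x).const_mul k))
  have := le_of_deriv_nonneg hφ.1 (fun x _ => (hd x).continuousAt.continuousWithinAt)
    (fun x _ => hd x) fun x hx => by
      have h1 := Dl_pos hk x
      have h2 := Dl_pos hk φ
      have h3 : 0 ≤ cos φ := cos_nonneg_of_mem_Icc ⟨by linarith [hφ.1, pi_pos], hφ.2⟩
      have h4 : cos φ ≤ cos x :=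
        cos_le_cos_of_nonneg_of_le_pi hx.1.le (by linarith [hφ.2, pi_pos]) hx.2.le
      have h5 : Dl k x * cos φ ≤ Dl k φ * cos x := by
        apply abs_le_of_sq_le_sq' _ (mul_nonneg h2.le (h3.trans h4)) |>.2
        rw [mul_pow, mul_pow, Dl_sq' hk, Dl_sq' hk]
        have := mul_le_mul_of_nonneg_left (pow_le_pow_left₀ h3 h4 2)
          (show 0 ≤ 1 - k ^ 2 by linarith)
        linarith
      have q1 := Q_pos hk x
      have q2 := Q_pos hk φ
      have e1 : Dl k x - k * cos x = (1 - k ^ 2) / (Dl k x + k * cos x) := by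
        rw [eq_div_iff q1.ne', PQ hk]
      have e2 : Dl k φ - k * cos φ = (1 - k ^ 2) / (Dl k φ + k * cos φ) := by
        rw [eq_div_iff q2.ne', PQ hk]
      rw [sub_nonneg, e1, e2, one_div, inv_mul_eq_div, le_div_iff₀ h1, div_mul_eq_mul_div,
        mul_div_assoc', div_le_div_iff₀ q1 q2]
      have := mul_le_mul_of_nonneg_left h5 (mul_nonneg hk0.le (show 0 ≤ 1 - k ^ 2 by linarith))
      linarith
  simp only [ellF_zero, ellE_zero, sin_zero] at this
  linarith

theorem F_ge_psi (hk : k ^ 2 < 1) (hφ : φ ∈ Icc 0 (π / 2)) :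
    k * sin φ * psi ((k * sin φ) ^ 2) ≤ ellF k φ := by
  have hp : ∀ σ : ℝ, HasDerivAt (fun σ : ℝ => σ * psi (σ ^ 2))
      (∑ j ∈ Finset.range 12, (σ ^ 2) ^ j) σ := by
    intro σ
    have e : (fun σ : ℝ => σ * psi (σ ^ 2))
        = fun σ : ℝ => ∑ j ∈ Finset.range 12, σ ^ (2 * j + 1) / (2 * (j : ℝ) + 1) := by
      ext σ; simp [Finset.sum_range_succ, psi]; ring
    rw [e]
    refine HasDerivAt.fun_sum fun j _ => ?_
    refine ((hasDerivAt_pow (2 * j + 1) σ).div_const _).congr_deriv ?_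
    have : (2 * j + 1 : ℝ) ≠ 0 := by positivity
    rw [← pow_mul]; push_cast; field_simp
  have hd : ∀ x, HasDerivAt (fun x => ellF k x - k * sin x * psi ((k * sin x) ^ 2))
      (1 / Dl k x - (∑ j ∈ Finset.range 12, ((k * sin x) ^ 2) ^ j) * (k * cos x)) x := by
    intro x
    have := (hp (k * sin x)).comp x ((hasDerivAt_sin x).const_mul k)
    exact (hasDerivAt_ellF hk x).sub this
  have := le_of_deriv_nonneg hφ.1 (fun x _ => (hd x).continuousAt.continuousWithinAt)
    (fun x _ => hd x) fun x hx => by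
      have h1 := Dl_pos hk x
      have h3 : 0 ≤ cos x :=
        cos_nonneg_of_mem_Icc ⟨by linarith [hx.1, pi_pos], hx.2.le.trans hφ.2⟩
      have h4 : (∑ j ∈ Finset.range 12, ((k * sin x) ^ 2) ^ j) * Dl k x ^ 2 ≤ 1 := by
        rw [Dl_sq hk, ← mul_pow, mul_comm, mul_neg_geom_sum]
        have : 0 ≤ ((k * sin x) ^ 2) ^ 12 := by positivity
        linarith
      have h5 : 0 ≤ ∑ j ∈ Finset.range 12, ((k * sin x) ^ 2) ^ j := by positivity
      have h6 := mul_le_mul_of_nonneg_left (show k * cos x ≤ Dl k x by linarith [P_pos hk x])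
        (mul_nonneg h5 h1.le)
      rw [sub_nonneg, le_div_iff₀ h1]
      linarith
  simp only [ellF_zero, sin_zero, mul_zero, zero_mul, sub_zero] at this
  linarith

noncomputable def ath (u : ℝ) : ℝ := (log (1 + u) - log (1 - u)) / 2

theorem hasDerivAt_ath {u : ℝ} (hu : u ^ 2 < 1) : HasDerivAt ath (1 / (1 - u ^ 2)) u := by
  have h1 : 1 + u ≠ 0 := by intro h; nlinarith
  have h2 : 1 - u ≠ 0 := by intro h; nlinarith
  have := ((((hasDerivAt_id u).const_add 1).log h1).sub
    (((hasDerivAt_id u).const_sub 1).log h2)).div_const 2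
  refine this.congr_deriv ?_
  have : 1 - u ^ 2 = (1 + u) * (1 - u) := by ring
  rw [this]; simp only [id]; field_simp; ring

theorem ath_zero : ath 0 = 0 := by simp [ath]

theorem ath_le_F (hk : k ^ 2 < 1) (hφ : 0 ≤ φ) : ath (k * sin φ) ≤ ellF k φ := by
  have hd : ∀ x, HasDerivAt (fun x => ellF k x - ath (k * sin x))
      (1 / Dl k x - 1 / (1 - (k * sin x) ^ 2) * (k * cos x)) x := fun x =>
    (hasDerivAt_ellF hk x).sub ((hasDerivAt_ath (by
      rw [mul_pow]; linarith [Dl_arg_pos hk x])).comp x ((hasDerivAt_sin x).const_mul k))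
  have := le_of_deriv_nonneg hφ (fun x _ => (hd x).continuousAt.continuousWithinAt)
    (fun x _ => hd x) fun x _ => by
      have h1 := Dl_pos hk x
      have e : 1 / Dl k x - 1 / (1 - (k * sin x) ^ 2) * (k * cos x)
          = (Dl k x - k * cos x) / Dl k x ^ 2 := by
        rw [mul_pow, ← Dl_sq hk]; field_simp
      rw [e]
      exact div_nonneg (P_pos hk x).le (by positivity)
  simp only [ellF_zero, sin_zero, mul_zero, ath_zero] at this
  linarith

theorem F_le_ath (hk : k ^ 2 < 1) (hφ : φ ∈ Ico 0 (π / 2)) : ellF k φ ≤ ath (sin φ) := by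
  have hc : ∀ x ∈ Icc 0 φ, 0 < cos x := fun x hx =>
    cos_pos_of_mem_Ioo ⟨by linarith [hx.1, pi_pos], hx.2.trans_lt hφ.2⟩
  have hd : ∀ x ∈ Icc 0 φ, HasDerivAt (fun x => ath (sin x) - ellF k x)
      (1 / (1 - sin x ^ 2) * cos x - 1 / Dl k x) x := fun x hx =>
    ((hasDerivAt_ath (by
      have := pow_pos (hc x hx) 2
      linarith [sin_sq_add_cos_sq x])).comp x (hasDerivAt_sin x)).sub (hasDerivAt_ellF hk x)
  have := le_of_deriv_nonneg hφ.1 (fun x hx => (hd x hx).continuousAt.continuousWithinAt)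
    (fun x hx => hd x (Ioo_subset_Icc_self hx)) fun x hx => by
      have h1 := Dl_pos hk x
      have h2 := hc x (Ioo_subset_Icc_self hx)
      have h3 : cos x ≤ Dl k x := by
        apply le_sqrt_of_sq_le
        have := mul_le_mul_of_nonneg_right hk.le (sq_nonneg (sin x))
        linarith [sin_sq_add_cos_sq x]
      rw [← cos_sq', sub_nonneg]
      have e : 1 / cos x ^ 2 * cos x = 1 / cos x := by field_simp
      rw [e]
      exact one_div_le_one_div_of_le h2 h3
  simp only [ellF_zero, sin_zero, ath_zero] at this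
  linarith

theorem hasDerivAt_logQ (hk : k ^ 2 < 1) (x : ℝ) :
    HasDerivAt (fun x => -2 * log (Dl k x + k * cos x)) (2 * (k * sin x / Dl k x)) x := by
  have h1 := Q_pos hk x
  have h2 := Dl_pos hk x
  have := (((hasDerivAt_Dl_phi hk x).add ((hasDerivAt_cos x).const_mul k)).log h1.ne').const_mul (-2)
  refine this.congr_deriv ?_
  simp only [Pi.add_apply]
  field_simp
  ring

theorem logBound_le (hk0 : 0 < k) (hk : k ^ 2 < 1) (hφ : φ ∈ Icc 0 π) :
    logBound k φ ≤ 2 * log (1 + k) - 2 * log (Dl k φ + k * cos φ) := by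
  have hd := fun x => (hasDerivAt_logQ hk x).sub (hasDerivAt_logBound hk x)
  have := le_of_deriv_nonneg hφ.1 (fun x _ => (hd x).continuousAt.continuousWithinAt)
    (fun x _ => hd x) fun x hx => by
      have h1 := Dl_pos hk x
      have hx' : x ∈ Ioo 0 π := ⟨hx.1, hx.2.trans_le hφ.2⟩
      have h2 := A_pos hk0 hk hx'
      have h3 := sin_pos_of_mem_Ioo hx'
      have h4 : Zeta k x ≤ k * sin x := by
        refine le_of_mul_le_mul_left ?_ h3
        unfold hh xx at h2; linarith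
      linarith [div_le_div_of_nonneg_right h4 h1.le]
  simp only [Pi.sub_apply, logBound_zero, Dl_zero, cos_zero, mul_one] at this
  linarith

theorem logBound_ge (hk : k ^ 2 < 1) (hφ : 0 ≤ φ) :
    2 * log (1 + k) - 2 * log (Dl k φ + k * cos φ) - eta k * ellF k φ ^ 2 ≤ logBound k φ := by
  have hd := fun x => ((hasDerivAt_logBound hk x).sub (hasDerivAt_logQ hk x)).add
    (((hasDerivAt_ellF hk x).pow 2).const_mul (eta k))
  have := le_of_deriv_nonneg hφ (fun x _ => (hd x).continuousAt.continuousWithinAt)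
    (fun x _ => hd x) fun x hx => by
      have h1 := Dl_pos hk x
      have h2 := div_nonneg (e1_nonneg hk hx.1.le) h1.le
      refine (mul_nonneg zero_le_two h2).trans_eq ?_
      simp only [Zeta]; push_cast; ring
  simp only [Pi.sub_apply, Pi.add_apply, Pi.pow_apply, logBound_zero, Dl_zero, cos_zero, mul_one,
    ellF_zero] at this
  linarith

theorem logBound_lt (hk0 : 0 < k) (hk : k ^ 2 < 1) {x y : ℝ} (hx : 0 ≤ x) (hxy : x < y)
    (hy : y ≤ π / 2) : logBound k x < logBound k y :=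
  lt_of_deriv_pos hxy (continuous_logBound hk).continuousOn (fun z _ => hasDerivAt_logBound hk z)
    fun z hz => mul_pos two_pos (div_pos (Zeta_pos hk0 hk ⟨hx.trans_lt hz.1, hz.2.trans_le hy⟩)
      (Dl_pos hk z))

theorem tendsto_eta : Tendsto eta (𝓝[<] 1) (𝓝 0) := by
  have h1 : Tendsto ath (𝓝[<] 1) atTop := by
    have h2 : Tendsto (fun u : ℝ => 1 - u) (𝓝[<] 1) (𝓝[>] 0) := by
      apply tendsto_nhdsWithin_of_tendsto_nhds_of_eventually_within
      · have : Continuous fun u : ℝ => 1 - u := by fun_prop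
        simpa using (this.tendsto 1).mono_left nhdsWithin_le_nhds
      · filter_upwards [self_mem_nhdsWithin] with u hu using sub_pos.2 (show u < 1 from hu)
    have h3 := tendsto_neg_atBot_atTop.comp (tendsto_log_nhdsGT_zero.comp h2)
    refine tendsto_atTop_mono' _ ?_ (h3.atTop_div_const two_pos)
    filter_upwards [Ioo_mem_nhdsLT (zero_lt_one' ℝ)] with u hu
    have := log_nonneg (show 1 ≤ 1 + u by linarith [hu.1])
    simp only [Function.comp, ath]
    linarith
  have h2 : Tendsto (fun u => π / 2 / ath u) (𝓝[<] 1) (𝓝 0) := tendsto_const_nhds.div_atTop h1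
  refine tendsto_of_tendsto_of_tendsto_of_le_of_le' tendsto_const_nhds h2 ?_ ?_
  · filter_upwards [Ioo_mem_nhdsLT (zero_lt_one' ℝ)] with u hu
    exact (eta_pos (by nlinarith [hu.1, hu.2])).le
  · filter_upwards [Ioo_mem_nhdsLT (zero_lt_one' ℝ), h1.eventually_gt_atTop 0] with u hu h
    have hu2 : u ^ 2 < 1 := by nlinarith [hu.1, hu.2]
    have h3 := ath_le_F hu2 pi_div_two_pos.le
    rw [sin_pi_div_two, mul_one] at h3
    have h4 : ellE u (π / 2) ≤ π / 2 := by
      have := integral_mono_on pi_div_two_pos.le ((continuous_Dl u).intervalIntegrable _ _)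
        (continuous_const.intervalIntegrable (μ := MeasureTheory.volume) _ _)
        fun x _ => Dl_le_one u x
      simpa [ellE] using this
    exact div_le_div₀ pi_div_two_pos.le h4 h h3

end Pool.Agent.Lib.MP_03314f_an
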