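import Mathlib
import Pool.Agent.Lib.MP_03314f_an.Ineq

/-! The algebraic heart: where `K ≤ 4` and `D ≤ 0`, the quantity `K` increases. -/

namespace Pool.Agent.Lib.MP_03314f_an

noncomputable def KKp (U s n y : ℝ) : ℝ :=
  (1 - y) * ((1 + y) * n ^ 2 * k00 n y + n * k01 n y * s + k02 n y * s ^ 2)
    + U * (n * k10 n y + y * k11 n y * s) + U ^ 2 * (1 - y) * n * y ^ 2 * k20 n y

noncomputable def totp (U s n y : ℝ) : ℝ :=
  (1 - y) ^ 3 * ((1 + y) * n ^ 3 * y * t00 n y + n ^ 2 * t01 n y * s + n * t02 n y * s ^ 2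
      + t03 n y * s ^ 3)
    + U * (n ^ 2 * y * t10 n y + n * t11 n y * s + y * t12 n y * s ^ 2)
    + U ^ 2 * (1 - y) * (n * y * t20 n y + y ^ 2 * t21 n y * s)
    + U ^ 3 * (1 - y) ^ 2 * n * y ^ 3 * t30 n y

theorem k20_nonpos {n y : ℝ} (hn : 0 ≤ n) : k20 n y ≤ 0 := by
  unfold k20; nlinarith [mul_nonneg hn (sq_nonneg y)]

theorem t30_nonpos {n y : ℝ} (hn : 0 ≤ n) : t30 n y ≤ 0 := by
  have : -t30 n y = 2048 * n ^ 3 * y ^ 2 + 896 * n ^ 2 * y ^ 4 + 8960 * n ^ 2 * y ^ 2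
      + 4480 * n ^ 2 + 7680 * n * y ^ 2 + 10752 * n + 6144 := by unfold t30; ring
  have h : 0 ≤ -t30 n y := by rw [this]; positivity
  linarith

theorem key_R1 {U s n y : ℝ} (hn0 : 0 < n) (hn : n ≤ 191 / 500) (hy0 : 0 < y) (hy : y ≤ 1 / 2)
    (hU0 : 0 ≤ U) (hU : U ≤ n ^ 2 * (1 - y)) (hs : 0 ≤ s) (hK : 0 ≤ KKp U s n y) :
    0 < totp U s n y := by
  have hA : 0 < 1 - y := by linarith
  have hk10 := i_k10 n y hn0.le hn hy0.le hy
  have hk01 := i_k01 n y hn0.le hn hy0.le hy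
  have hk01a := i_k01a n y hn0.le hn hy0.le hy
  have hq5 := i_q5 n y hn0.le hn hy0.le hy
  have ht20 := i_t20 n y hn0.le hn hy0.le hy
  have ht03 := i_t03 n y hn0.le hn hy0.le hy
  have ht10n := i_t10n n y hn0.le hn hy0.le hy
  have ht10y := i_t10y y hy0.le hy
  have hT := i_T0b n y hn0.le hn hy0.le hy
  have ht30 : t30 n y ≤ 0 := t30_nonpos hn0.le
  have hk20 : k20 n y ≤ 0 := k20_nonpos hn0.le
  have ht10 : t10 n y ≤ 0 := by
    have : t10 n y = n * t10n n y + y * t10y y := by unfold t10 t10n t10y; ring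
    rw [this]; linarith [mul_pos hn0 ht10n, mul_pos hy0 ht10y]
  have hk02 : k02 n y ≤ 0 := by
    unfold k02; linarith [mul_le_mul_of_nonneg_left hy hn0.le]
  have hcross : (1 - y) * n * k01 n y + U * y * k11 n y ≤ 0 := by
    rcases le_total (k11 n y) 0 with h | h
    · have h1 : (1 - y) * n * k01 n y ≤ 0 :=
        mul_nonpos_of_nonneg_of_nonpos (by positivity) (by linarith)
      have h2 : U * y * k11 n y ≤ 0 := mul_nonpos_of_nonneg_of_nonpos (by positivity) h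
      linarith
    · have h2 : U * (y * k11 n y) ≤ n ^ 2 * (1 - y) * (y * k11 n y) :=
        mul_le_mul_of_nonneg_right hU (by positivity)
      have h3 : (1 - y) * n * (k01 n y + n * y * k11 n y) ≤ 0 :=
        mul_nonpos_of_nonneg_of_nonpos (by positivity) (by linarith)
      linarith
  set den := -k10 n y with hden
  have hnum : U * den ≤ (1 - y) * (1 + y) * n * k00 n y := by
    have h1 : s * ((1 - y) * n * k01 n y + U * y * k11 n y) ≤ 0 :=
      mul_nonpos_of_nonneg_of_nonpos hs hcross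
    have h2 : (1 - y) * s ^ 2 * k02 n y ≤ 0 := mul_nonpos_of_nonneg_of_nonpos (by positivity) hk02
    have h3 : U ^ 2 * (1 - y) * n * y ^ 2 * k20 n y ≤ 0 :=
      mul_nonpos_of_nonneg_of_nonpos (by positivity) hk20
    have h4 : 0 ≤ n * ((1 - y) * (1 + y) * n * k00 n y - U * den) := by
      have e : KKp U s n y = n * ((1 - y) * (1 + y) * n * k00 n y - U * den)
          + s * ((1 - y) * n * k01 n y + U * y * k11 n y) + (1 - y) * s ^ 2 * k02 n y
          + U ^ 2 * (1 - y) * n * y ^ 2 * k20 n y := by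
        rw [hden]; unfold KKp; ring
      linarith
    have := (mul_nonneg_iff_of_pos_left hn0).1 h4
    linarith
  set Ub := (1 - y) * (1 + y) * n * k00 n y / den with hUb
  have hUUb : U ≤ Ub := by rw [hUb, le_div_iff₀ hk10]; exact hnum
  have hU2 : U ≤ n ^ 2 * (1 - y) ^ 2 := by
    have e : n * (1 - y) * den - (1 + y) * k00 n y = y * q5 n y := by
      rw [hden]; unfold k10 k00 q5; ring
    have h1 : (1 + y) * k00 n y ≤ n * (1 - y) * den := by linarith [mul_pos hy0 hq5]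
    have h2 : U * den ≤ n ^ 2 * (1 - y) ^ 2 * den := by
      have := mul_le_mul_of_nonneg_left h1 (show 0 ≤ (1 - y) * n by positivity)
      linarith
    exact le_of_mul_le_mul_right h2 hk10
  -- the part without `s`
  have hT0 : 0 < (1 - y) ^ 3 * (1 + y) * n ^ 2 * t00 n y + U * n * t10 n y
      + U ^ 2 * (1 - y) * t20 n y + U ^ 3 * (1 - y) ^ 2 * y ^ 2 * t30 n y := by
    have hb : 0 < (1 - y) ^ 3 * (1 + y) * n ^ 2 * t00 n y + Ub * n * t10 n y
        + Ub ^ 2 * (1 - y) * t20 n y + Ub ^ 3 * (1 - y) ^ 2 * y ^ 2 * t30 n y := by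
      have e : (1 - y) ^ 3 * (1 + y) * n ^ 2 * t00 n y + Ub * n * t10 n y
          + Ub ^ 2 * (1 - y) * t20 n y + Ub ^ 3 * (1 - y) ^ 2 * y ^ 2 * t30 n y
          = (1 - y) * (1 + y) * n ^ 2 / den ^ 3 * ((1 - y) ^ 2 * t00 n y * den ^ 3
            + t10 n y * k00 n y * den ^ 2 + (1 - y) ^ 2 * (1 + y) * t20 n y * k00 n y ^ 2 * den
            + (1 - y) ^ 4 * (1 + y) ^ 2 * y ^ 2 * n * t30 n y * k00 n y ^ 3) := by
        rw [hUb]; field_simp
      rw [e]; positivity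
    have h1 : Ub * (n * t10 n y) ≤ U * (n * t10 n y) :=
      mul_le_mul_of_nonpos_right hUUb (mul_nonpos_of_nonneg_of_nonpos hn0.le ht10)
    have h2 : Ub ^ 2 * ((1 - y) * t20 n y) ≤ U ^ 2 * ((1 - y) * t20 n y) :=
      mul_le_mul_of_nonpos_right (pow_le_pow_left₀ hU0 hUUb 2)
        (mul_nonpos_of_nonneg_of_nonpos hA.le (by linarith))
    have h3 : Ub ^ 3 * ((1 - y) ^ 2 * y ^ 2 * t30 n y) ≤ U ^ 3 * ((1 - y) ^ 2 * y ^ 2 * t30 n y) :=
      mul_le_mul_of_nonpos_right (pow_le_pow_left₀ hU0 hUUb 3)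
        (mul_nonpos_of_nonneg_of_nonpos (by positivity) ht30)
    linarith
  -- the part with `s`
  set u := U / (n ^ 2 * (1 - y) ^ 2) with hu
  have hpos : 0 < n ^ 2 * (1 - y) ^ 2 := by positivity
  have hu0 : 0 ≤ u := by positivity
  have hu1 : u ≤ 1 := by rw [hu, div_le_one hpos]; exact hU2
  have hUu : U = n ^ 2 * (1 - y) ^ 2 * u := by rw [hu]; field_simp
  have hq6 := i_q6 n y u hn0.le hn hy0.le hy hu0 hu1
  have hq7 := i_q7 n y u hn0.le hn hy0.le hy hu0 hu1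
  have e : totp U s n y = n * y * ((1 - y) ^ 3 * (1 + y) * n ^ 2 * t00 n y + U * n * t10 n y
      + U ^ 2 * (1 - y) * t20 n y + U ^ 3 * (1 - y) ^ 2 * y ^ 2 * t30 n y)
      + s * (n ^ 2 * (1 - y) ^ 2 * ((1 - y) * t01 n y + u * n * t11 n y
          + u ^ 2 * n ^ 2 * (1 - y) ^ 3 * y ^ 2 * t21 n y)
        + s * (n * (1 - y) ^ 2 * ((1 - y) * t02 n y + u * n * y * t12 n y))
        + s ^ 2 * ((1 - y) ^ 3 * t03 n y)) := by
    unfold totp
    have : U * (n * t11 n y * s) + U * (y * t12 n y * s ^ 2)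
        + U ^ 2 * (1 - y) * (y ^ 2 * t21 n y * s)
        = (n ^ 2 * (1 - y) ^ 2 * u) * (n * t11 n y * s)
          + (n ^ 2 * (1 - y) ^ 2 * u) * (y * t12 n y * s ^ 2)
          + (n ^ 2 * (1 - y) ^ 2 * u) ^ 2 * (1 - y) * (y ^ 2 * t21 n y * s) := by
      rw [← hUu]
    linear_combination this
  rw [e]
  positivity

theorem key_R2 {U V s n y : ℝ} (hn0 : 0 < n) (hn : n ≤ 191 / 500) (hy0 : 1 / 2 ≤ y) (hy : y < 1)
    (hU0 : 0 ≤ U) (hU : U ≤ n ^ 2 * (1 - y)) (hs : 0 ≤ s) (hs1 : s ≤ 47 / 10)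
    (hV : V * (1 + y) * (2 + n * (1 + y)) = U * (1 - y) * (2 + n * (1 - y)) + 8 * n * y + s)
    (hb : n * (1 + y) ≤ 47 / 100 + 5 / 16 * (V * (1 + y) ^ 2) / 4
      + 109 / 4 * (U * (1 - y) ^ 2) / 4) :
    KKp U s n y < 0 := by
  have hA : 0 < 1 - y := by linarith
  set u := U / (1 - y) with hu
  have hu0 : 0 ≤ u := by positivity
  have hu1 : u ≤ n ^ 2 := by rw [hu, div_le_iff₀ hA]; exact hU
  have hUu : U = (1 - y) * u := by rw [hu]; field_simp
  have hk01 := i_k01b n y hn0.le hn hy0 hy.le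
  have hk11 := i_k11b n y hn0.le hn hy0 hy.le
  have hk10n := i_k10n n y hn0.le hn (by linarith) hy.le
  have hk10 : k10 n y ≤ 0 := by
    have : k10 n y = -(64 * (1 - y ^ 2)) - n * k10n n y := by unfold k10 k10n; ring
    rw [this]; linarith [mul_pos hn0 hk10n, mul_pos hA (show 0 < 1 + y by linarith)]
  have hk20 : k20 n y ≤ 0 := k20_nonpos hn0.le
  have h20 : u ^ 2 * (1 - y) ^ 2 * n * y ^ 2 * k20 n y ≤ 0 :=
    mul_nonpos_of_nonneg_of_nonpos (by positivity) hk20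
  have e : KKp U s n y = (1 - y) * ((1 + y) * n ^ 2 * k00 n y
      + s * (n * k01 n y + k02 n y * s + u * (y * k11 n y)) + u * (n * k10 n y)
      + u ^ 2 * (1 - y) ^ 2 * n * y ^ 2 * k20 n y) := by
    unfold KKp; rw [hUu]; ring
  rw [e]
  apply mul_neg_of_pos_of_neg hA
  have hk02 : k02 n y ≤ 6 * n - 2 := by
    unfold k02; linarith [mul_pos hn0 hA]
  have hu17 : u * (y * k11 n y) ≤ n ^ 2 * 17 := by
    have : u * (y * k11 n y) ≤ u * 17 := mul_le_mul_of_nonneg_left (by linarith) hu0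
    linarith
  rcases le_total n (7 / 20) with h35 | h35
  · have hk00 := i_k00a n y hn0.le h35 hy0 hy.le
    have h1 : (1 + y) * n ^ 2 * k00 n y < 0 := mul_neg_of_pos_of_neg (by positivity) (by linarith)
    have h2 : k02 n y * s ≤ 3 / 10 * n * (47 / 10) := by
      have : k02 n y * s ≤ (3 / 10 * n) * s := mul_le_mul_of_nonneg_right (by linarith) hs
      linarith [mul_le_mul_of_nonneg_left hs1 hn0.le]
    have h3 : n * k01 n y + k02 n y * s + u * (y * k11 n y) ≤ 0 := by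
      linarith [mul_pos hn0 hk01, mul_le_mul_of_nonneg_left h35 hn0.le]
    have h4 : s * (n * k01 n y + k02 n y * s + u * (y * k11 n y)) ≤ 0 :=
      mul_nonpos_of_nonneg_of_nonpos hs h3
    have h5 : u * (n * k10 n y) ≤ 0 :=
      mul_nonpos_of_nonneg_of_nonpos hu0 (mul_nonpos_of_nonneg_of_nonpos hn0.le hk10)
    linarith
  · have hG00 := i_G00 n y h35 hn hy0 hy.le
    have hG10 := i_G10 n y h35 hn hy0 hy.le
    have hG01 := i_G01 n y h35 hn hy0 hy.le
    have hp : 0 < 2 + n * (1 + y) := by positivity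
    have hE : 0 ≤ (47 / 100 - n * (1 + y)) * (2 + n * (1 + y))
        + 5 / 16 * (1 + y) * (u * (1 - y) ^ 2 * (2 + n * (1 - y)) + 8 * n * y + s) / 4
        + 109 / 4 * (u * (1 - y) ^ 3) * (2 + n * (1 + y)) / 4 := by
      have h1 := mul_nonneg (sub_nonneg.2 hb) hp.le
      have e2 : (47 / 100 + 5 / 16 * (V * (1 + y) ^ 2) / 4 + 109 / 4 * (U * (1 - y) ^ 2) / 4
          - n * (1 + y)) * (2 + n * (1 + y))
          = (47 / 100 - n * (1 + y)) * (2 + n * (1 + y))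
            + 5 / 16 * (1 + y) * (V * (1 + y) * (2 + n * (1 + y))) / 4
            + 109 / 4 * (U * (1 - y) ^ 2) * (2 + n * (1 + y)) / 4 := by ring
      rw [e2, hV, hUu] at h1
      refine h1.trans_eq ?_
      ring
    have h2 : k02 n y * s ≤ 47 / 10 * (3 / 10) := by
      have : k02 n y * s ≤ (3 / 10) * s := mul_le_mul_of_nonneg_right (by linarith) hs
      linarith
    have h3 : u * (y * k11 n y) ≤ 146 / 1000 * 17 := by
      linarith [mul_le_mul_of_nonneg_left hn hn0.le]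
    have h4 : s * (n * k01 n y + k02 n y * s + u * (y * k11 n y)
        + 15 * (5 / 16 * (1 + y) / 4)) ≤ 0 :=
      mul_nonpos_of_nonneg_of_nonpos hs (by linarith)
    have h5 : u * (n * k10 n y + 15 * (5 / 16 * (1 + y) * (1 - y) ^ 2 * (2 + n * (1 - y)) / 4
        + 109 / 4 * (1 - y) ^ 3 * (2 + n * (1 + y)) / 4)) ≤ 0 :=
      mul_nonpos_of_nonneg_of_nonpos hu0 (by linarith)
    linarith

end Pool.Agent.Lib.MP_03314f_an
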