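import Mathlib
import Pool.Agent.Lib.MP_03314f_an.Key

/-! The differential system along a level curve, in normalised variables. -/

namespace Pool.Agent.Lib.MP_03314f_an

noncomputable def KN (U V n y : ℝ) : ℝ :=
  8 * n * ((1 + y) * U + (1 - y) * V)
    + (3 * n * (V * (1 + y) ^ 2 - U * (1 - y) ^ 2) - 2 * (V * (1 + y) - U * (1 - y)))
      * ((1 + y) * U - (1 - y) * V)

noncomputable def Kf (U V n y : ℝ) : ℝ := KN U V n y / (4 * n ^ 3 * (1 - y) * (1 + y))

noncomputable def slf (U V n y : ℝ) : ℝ :=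
  V * (1 + y) * (2 + n * (1 + y)) - U * (1 - y) * (2 + n * (1 - y)) - 8 * n * y

theorem KN_KKp (U V n y : ℝ) :
    (16 * n ^ 3 * (1 - y) * (1 + y) - KN U V n y) * ((1 + y) * (2 + n * (1 + y)) ^ 2)
      = KKp U (slf U V n y) n y := by
  unfold KN KKp slf k00 k01 k02 k10 k11 k20
  ring

noncomputable def KU (U V n y : ℝ) : ℝ :=
  8 * n * (1 + y) + (-3 * n * (1 - y) ^ 2 + 2 * (1 - y)) * ((1 + y) * U - (1 - y) * V)
    + (3 * n * (V * (1 + y) ^ 2 - U * (1 - y) ^ 2) - 2 * (V * (1 + y) - U * (1 - y))) * (1 + y)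

noncomputable def KV (U V n y : ℝ) : ℝ :=
  8 * n * (1 - y) + (3 * n * (1 + y) ^ 2 - 2 * (1 + y)) * ((1 + y) * U - (1 - y) * V)
    - (3 * n * (V * (1 + y) ^ 2 - U * (1 - y) ^ 2) - 2 * (V * (1 + y) - U * (1 - y))) * (1 - y)

noncomputable def Kn (U V y : ℝ) : ℝ :=
  8 * ((1 + y) * U + (1 - y) * V)
    + 3 * (V * (1 + y) ^ 2 - U * (1 - y) ^ 2) * ((1 + y) * U - (1 - y) * V)

noncomputable def Ky (U V n y : ℝ) : ℝ :=
  8 * n * (U - V) + (6 * n * (V * (1 + y) + U * (1 - y)) - 2 * (V + U))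
      * ((1 + y) * U - (1 - y) * V)
    + (3 * n * (V * (1 + y) ^ 2 - U * (1 - y) ^ 2) - 2 * (V * (1 + y) - U * (1 - y))) * (U + V)

theorem hasDerivAt_KN {U V n y : ℝ → ℝ} {U' V' n' y' t : ℝ} (hU : HasDerivAt U U' t)
    (hV : HasDerivAt V V' t) (hn : HasDerivAt n n' t) (hy : HasDerivAt y y' t) :
    HasDerivAt (fun t => KN (U t) (V t) (n t) (y t))
      (KU (U t) (V t) (n t) (y t) * U' + KV (U t) (V t) (n t) (y t) * V'
        + Kn (U t) (V t) (y t) * n' + Ky (U t) (V t) (n t) (y t) * y') t := by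
  have hA := hy.const_sub 1
  have hB := hy.const_add 1
  have := ((hn.const_mul 8).mul ((hB.mul hU).add (hA.mul hV))).add
    ((((hn.const_mul 3).mul ((hV.mul (hB.pow 2)).sub (hU.mul (hA.pow 2)))).sub
      (((hV.mul hB).sub (hU.mul hA)).const_mul 2)).mul ((hB.mul hU).sub (hA.mul hV)))
  refine this.congr_deriv ?_
  simp only [Pi.mul_apply, Pi.add_apply, Pi.sub_apply, Pi.pow_apply]
  unfold KU KV Kn Ky
  push_cast
  ring

/-- Numerators of the derivatives over the common denominator `(1 - y)² (1 + y)²`. -/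
noncomputable def fU (U V n y : ℝ) : ℝ :=
  2 * U * (2 * (-((V * (1 + y) ^ 2 - U * (1 - y) ^ 2) / 4) - 1) - (U - V - 2 * n) * (1 - y))
    * (1 + y) ^ 2
noncomputable def fV (U V n y : ℝ) : ℝ :=
  2 * V * (2 * (1 - (V * (1 + y) ^ 2 - U * (1 - y) ^ 2) / 4) - (U - V + 2 * n) * (1 + y))
    * (1 - y) ^ 2
noncomputable def fn (U V n y : ℝ) : ℝ :=
  (U * (1 + y) * (1 - n * (3 - y) / 2) - V * (1 - y) * (1 - n * (3 + y) / 2)) * ((1 - y) * (1 + y))
noncomputable def fy (U V n y : ℝ) : ℝ := (2 * n + y * (V - U)) * ((1 - y) ^ 2 * (1 + y) ^ 2)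

theorem tot_eq (U V n y : ℝ) :
    2 * ((KU U V n y * fU U V n y + KV U V n y * fV U V n y + Kn U V y * fn U V n y
      + Ky U V n y * fy U V n y) * (n * (1 - y) * (1 + y))
      - KN U V n y * (3 * fn U V n y * ((1 - y) * (1 + y)) - 2 * n * y * fy U V n y))
      * ((1 + y) * (2 + n * (1 + y)) ^ 3)
    = (1 - y) * (1 + y) * totp U (slf U V n y) n y := by
  unfold KN KU KV Kn Ky fU fV fn fy totp slf t00 t01 t02 t03 t10 t11 t12 t20 t21 t30
  ring

theorem hasDerivAt_Kf {U V n y : ℝ → ℝ} {τ t : ℝ} (hn0 : 0 < n t) (hy0 : 0 < y t) (hy1 : y t < 1)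
    (hU : HasDerivAt U (τ * fU (U t) (V t) (n t) (y t)) t)
    (hV : HasDerivAt V (τ * fV (U t) (V t) (n t) (y t)) t)
    (hn : HasDerivAt n (τ * fn (U t) (V t) (n t) (y t)) t)
    (hy : HasDerivAt y (τ * fy (U t) (V t) (n t) (y t)) t) :
    HasDerivAt (fun t => Kf (U t) (V t) (n t) (y t))
      (τ * totp (U t) (slf (U t) (V t) (n t) (y t)) (n t) (y t)
        / (8 * n t ^ 4 * (1 - y t) * (1 + y t) ^ 2 * (2 + n t * (1 + y t)) ^ 3)) t := by
  have hA : 1 - y t ≠ 0 := by linarith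
  have hB : 1 + y t ≠ 0 := by linarith
  have hC : 2 + n t * (1 + y t) ≠ 0 := by positivity
  have := (hasDerivAt_KN hU hV hn hy).div
    ((((hn.pow 3).const_mul 4).mul (hy.const_sub 1)).mul (hy.const_add 1))
    (mul_ne_zero (mul_ne_zero (mul_ne_zero four_ne_zero (pow_ne_zero 3 hn0.ne')) hA) hB)
  refine this.congr_deriv ?_
  have h := tot_eq (U t) (V t) (n t) (y t)
  simp only [Pi.mul_apply, Pi.pow_apply]
  generalize totp (U t) (slf (U t) (V t) (n t) (y t)) (n t) (y t) = T at h ⊢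
  generalize KU (U t) (V t) (n t) (y t) = a1 at h ⊢
  generalize KV (U t) (V t) (n t) (y t) = a2 at h ⊢
  generalize Kn (U t) (V t) (y t) = a3 at h ⊢
  generalize Ky (U t) (V t) (n t) (y t) = a4 at h ⊢
  generalize KN (U t) (V t) (n t) (y t) = a5 at h ⊢
  generalize fU (U t) (V t) (n t) (y t) = b1 at h ⊢
  generalize fV (U t) (V t) (n t) (y t) = b2 at h ⊢
  generalize fn (U t) (V t) (n t) (y t) = b3 at h ⊢
  generalize fy (U t) (V t) (n t) (y t) = b4 at h ⊢
  have := hn0.ne'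
  rw [div_eq_div_iff (by positivity) (by positivity)]
  push_cast
  linear_combination (16 * τ * n t ^ 6 * (1 - y t) * (1 + y t)) * h

/-- From the raw system to the normalised system. -/
theorem flow_norm {m h x N : ℝ → ℝ} {w t : ℝ} (h0 : h t ≠ 0) (hA : h t - x t ≠ 0)
    (hB : h t + x t ≠ 0) (hN : N t ≠ 0)
    (dm : HasDerivAt m (w * ((1 - (h t + m t) ^ 2) * (h t + x t) ^ 2
      + (1 - (h t - m t) ^ 2) * (h t - x t) ^ 2)) t)
    (dh : HasDerivAt h (w * ((1 - (h t + m t) ^ 2) * (h t + x t) ^ 2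
      - (1 - (h t - m t) ^ 2) * (h t - x t) ^ 2)) t)
    (dx : HasDerivAt x (w * (2 * N t * (h t - x t) * (h t + x t))) t)
    (dN : HasDerivAt N (w * ((1 - (h t + m t) ^ 2) * (h t + x t) ^ 3
      - (1 - (h t - m t) ^ 2) * (h t - x t) ^ 3 - 4 * x t * N t ^ 2
      - 2 * m t * N t * (h t - x t) * (h t + x t))) t) :
    let U := fun t => (1 - (h t + m t) ^ 2) / (h t - x t) ^ 2
    let V := fun t => (1 - (h t - m t) ^ 2) / (h t + x t) ^ 2
    let n := fun t => N t / ((h t - x t) * (h t + x t))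
    let y := fun t => x t / h t
    HasDerivAt U (w * h t ^ 3 * fU (U t) (V t) (n t) (y t)) t ∧
    HasDerivAt V (w * h t ^ 3 * fV (U t) (V t) (n t) (y t)) t ∧
    HasDerivAt n (w * h t ^ 3 * fn (U t) (V t) (n t) (y t)) t ∧
    HasDerivAt y (w * h t ^ 3 * fy (U t) (V t) (n t) (y t)) t ∧
    HasDerivAt (fun t => 2 * m t + ((1 - (h t - m t) ^ 2) * (h t - x t)
        - (1 - (h t + m t) ^ 2) * (h t + x t)) / N t)
      (Kf (U t) (V t) (n t) (y t) * (w * (2 * N t * (h t - x t) * (h t + x t)))) t := by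
  intro U V n y
  have eA : 1 - y t = (h t - x t) / h t := by simp only [y]; field_simp
  have eB : 1 + y t = (h t + x t) / h t := by simp only [y]; field_simp
  have dα := ((dh.add dm).pow 2).const_sub 1
  have dβ := ((dh.sub dm).pow 2).const_sub 1
  refine ⟨?_, ?_, ?_, ?_, ?_⟩
  · refine (dα.div ((dh.sub dx).pow 2) (pow_ne_zero 2 hA)).congr_deriv ?_
    rw [fU, eA, eB]
    simp only [Pi.add_apply, Pi.sub_apply, Pi.pow_apply, U, V, n]
    field_simp
    ring
  · refine (dβ.div ((dh.add dx).pow 2) (pow_ne_zero 2 hB)).congr_deriv ?_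
    rw [fV, eA, eB]
    simp only [Pi.add_apply, Pi.sub_apply, Pi.pow_apply, U, V, n]
    field_simp
    ring
  · refine (dN.div ((dh.sub dx).mul (dh.add dx)) (mul_ne_zero hA hB)).congr_deriv ?_
    rw [fn, eA, eB]
    simp only [Pi.add_apply, Pi.sub_apply, Pi.mul_apply, U, V, n, y]
    field_simp
    ring
  · refine (dx.div dh h0).congr_deriv ?_
    rw [fy, eA, eB]
    simp only [U, V, n, y]
    field_simp
    ring
  · refine ((dm.const_mul 2).add (((dβ.mul (dh.sub dx)).sub (dα.mul (dh.add dx))).div dN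
      hN)).congr_deriv ?_
    rw [Kf, KN, eA, eB]
    simp only [Pi.add_apply, Pi.sub_apply, Pi.mul_apply, Pi.pow_apply, U, V, n]
    field_simp
    ring

end Pool.Agent.Lib.MP_03314f_an
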