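import Mathlib
import Pool.Agent.Lib.MP_03314f_an.Facts
import Pool.Agent.Lib.MP_03314f_an.Flow

/-! The level curve `logBound k φ = log M`. -/

namespace Pool.Agent.Lib.MP_03314f_an

open Set Filter Topology Real

noncomputable def kM (M : ℝ) : ℝ := √(1 - 1 / M ^ 2)

noncomputable def ph (M k : ℝ) : ℝ := Function.invFunOn (logBound k) (Icc 0 (π / 2)) (log M)

variable {M k φ : ℝ}

theorem kM_sq (hM : 1 < M) : kM M ^ 2 = 1 - 1 / M ^ 2 :=
  sq_sqrt (by rw [sub_nonneg, div_le_one (by positivity)]; nlinarith)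

theorem kM_pos (hM : 1 < M) : 0 < kM M :=
  sqrt_pos.2 (by rw [sub_pos, div_lt_one (by positivity)]; nlinarith)

theorem kM_lt_one (hM : 1 < M) : kM M < 1 := by
  have h := kM_sq hM
  have : 0 < 1 / M ^ 2 := by positivity
  nlinarith [kM_pos hM]

theorem k_good (hM : 1 < M) (hk : k ∈ Ico (kM M) 1) : 0 < k ∧ k ^ 2 < 1 :=
  ⟨(kM_pos hM).trans_le hk.1, by nlinarith [(kM_pos hM).trans_le hk.1, hk.2]⟩

theorem log_kM (hM : 1 < M) : -log (1 - kM M ^ 2) / 2 = log M := by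
  rw [kM_sq hM, sub_sub_cancel, one_div, log_inv, log_pow]; push_cast; ring

theorem logBound_half_lt_iff (hM : 1 < M) (hk0 : 0 < k) (hk : k ^ 2 < 1) :
    log M < logBound k (π / 2) ↔ kM M < k := by
  have h1 : 0 < 1 - kM M ^ 2 := by rw [kM_sq hM, sub_sub_cancel]; positivity
  rw [logBound_half hk0 hk, ← log_kM hM, div_lt_div_iff_of_pos_right two_pos, neg_lt_neg_iff,
    log_lt_log_iff (by linarith) h1, sub_lt_sub_iff_left,
    pow_lt_pow_iff_left₀ (kM_pos hM).le hk0.le two_ne_zero]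

theorem logBound_kM (hM : 1 < M) : logBound (kM M) (π / 2) = log M := by
  rw [logBound_half (kM_pos hM) (k_good hM ⟨le_rfl, kM_lt_one hM⟩).2, log_kM hM]

theorem ph_spec (hM : 1 < M) (hk : k ∈ Ico (kM M) 1) :
    ph M k ∈ Ioc 0 (π / 2) ∧ logBound k (ph M k) = log M := by
  obtain ⟨hk0, hk1⟩ := k_good hM hk
  have h1 : log M ≤ logBound k (π / 2) := by
    rcases eq_or_lt_of_le hk.1 with h | h
    · rw [← h, logBound_kM hM]
    · exact ((logBound_half_lt_iff hM hk0 hk1).2 h).le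
  have h2 := intermediate_value_Icc pi_div_two_pos.le (continuous_logBound hk1).continuousOn
    (show log M ∈ _ from ⟨by rw [logBound_zero]; exact (log_pos hM).le, h1⟩)
  have h3 := Function.invFunOn_pos h2
  refine ⟨⟨lt_of_le_of_ne h3.1.1 fun h => ?_, h3.1.2⟩, h3.2⟩
  have h4 : logBound k (ph M k) = log M := h3.2
  rw [← h, logBound_zero] at h4
  exact (log_pos hM).ne h4

theorem logBound_lt_iff (hk0 : 0 < k) (hk : k ^ 2 < 1) {x y : ℝ} (hx : x ∈ Icc 0 (π / 2))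
    (hy : y ∈ Icc 0 (π / 2)) : logBound k x < logBound k y ↔ x < y :=
  StrictMonoOn.lt_iff_lt (fun _ ha _ hb h => logBound_lt hk0 hk ha.1 h hb.2) hx hy

theorem lt_ph_iff (hM : 1 < M) (hk : k ∈ Ico (kM M) 1) (hφ : φ ∈ Icc 0 (π / 2)) :
    φ < ph M k ↔ logBound k φ < log M := by
  obtain ⟨h1, h2⟩ := ph_spec hM hk
  rw [← h2, logBound_lt_iff (k_good hM hk).1 (k_good hM hk).2 hφ (Ioc_subset_Icc_self h1)]

theorem ph_lt_iff (hM : 1 < M) (hk : k ∈ Ico (kM M) 1) (hφ : φ ∈ Icc 0 (π / 2)) :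
    ph M k < φ ↔ log M < logBound k φ := by
  obtain ⟨h1, h2⟩ := ph_spec hM hk
  rw [← h2, logBound_lt_iff (k_good hM hk).1 (k_good hM hk).2 (Ioc_subset_Icc_self h1) hφ]

theorem ph_unique (hM : 1 < M) (hk : k ∈ Ico (kM M) 1) (hφ : φ ∈ Icc 0 (π / 2))
    (h : logBound k φ = log M) : ph M k = φ := by
  rcases lt_trichotomy (ph M k) φ with h' | h' | h'
  · exact absurd ((ph_lt_iff hM hk hφ).1 h') (by rw [h]; exact lt_irrefl _)
  · exact h'
  · exact absurd ((lt_ph_iff hM hk hφ).1 h') (by rw [h]; exact lt_irrefl _)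

theorem half_Icc : π / 2 ∈ Icc 0 (π / 2) := ⟨pi_div_two_pos.le, le_rfl⟩

theorem ph_kM (hM : 1 < M) : ph M (kM M) = π / 2 :=
  ph_unique hM ⟨le_rfl, kM_lt_one hM⟩ half_Icc (logBound_kM hM)

theorem ph_mem (hM : 1 < M) (hk : k ∈ Ioo (kM M) 1) : ph M k ∈ Ioo 0 (π / 2) := by
  have hk' := Ioo_subset_Ico_self hk
  exact ⟨(ph_spec hM hk').1.1, (ph_lt_iff hM hk' half_Icc).2
    ((logBound_half_lt_iff hM (k_good hM hk').1 (k_good hM hk').2).2 hk.1)⟩

theorem ph_mem_pi (hM : 1 < M) (hk : k ∈ Ico (kM M) 1) : ph M k ∈ Ioo 0 π :=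
  ⟨(ph_spec hM hk).1.1, by linarith [(ph_spec hM hk).1.2, pi_pos]⟩

theorem continuousOn_ph (hM : 1 < M) : ContinuousOn (ph M) (Ico (kM M) 1) := by
  intro k hk
  obtain ⟨hk0, hk1⟩ := k_good hM hk
  obtain ⟨h1, h2⟩ := ph_spec hM hk
  have hc : ∀ φ ∈ Ioc 0 (π / 2), Tendsto (fun t => logBound t φ) (𝓝[Ico (kM M) 1] k)
      (𝓝 (logBound k φ)) := fun φ hφ =>
    (hasDerivAt_logBound_k hk0 hk1 ⟨hφ.1, by linarith [hφ.2, pi_pos]⟩).continuousAt.tendsto.mono_left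
      nhdsWithin_le_nhds
  rw [ContinuousWithinAt, tendsto_order]
  constructor
  · intro a ha
    have h3 : max a (ph M k / 2) < ph M k := max_lt ha (by linarith [h1.1])
    have h4 : max a (ph M k / 2) ∈ Ioc 0 (π / 2) :=
      ⟨lt_max_of_lt_right (by linarith [h1.1]), h3.le.trans h1.2⟩
    have h5 := (lt_ph_iff hM hk (Ioc_subset_Icc_self h4)).1 h3
    filter_upwards [(hc _ h4).eventually (gt_mem_nhds h5), self_mem_nhdsWithin] with t ht ht'
    exact (le_max_left _ _).trans_lt ((lt_ph_iff hM ht' (Ioc_subset_Icc_self h4)).2 ht)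
  · intro b hb
    rcases lt_or_ge (π / 2) b with h | h
    · filter_upwards [self_mem_nhdsWithin] with t ht using (ph_spec hM ht).1.2.trans_lt h
    · have h4 : b ∈ Ioc 0 (π / 2) := ⟨h1.1.trans hb, h⟩
      have h5 := (ph_lt_iff hM hk (Ioc_subset_Icc_self h4)).1 hb
      filter_upwards [(hc _ h4).eventually (lt_mem_nhds h5), self_mem_nhdsWithin] with t ht ht'
      exact (ph_lt_iff hM ht' (Ioc_subset_Icc_self h4)).2 ht

theorem hasDerivAt_ph (hM : 1 < M) (hk : k ∈ Ioo (kM M) 1) :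
    HasDerivAt (ph M) (-Lk k (ph M k) / (2 * (Zeta k (ph M k) / Dl k (ph M k)))) k := by
  have hk' := Ioo_subset_Ico_self hk
  obtain ⟨hk0, hk1⟩ := k_good hM hk'
  obtain ⟨L', h1, h2⟩ := hasFDerivAt_logBound hk0 hk1 (ph_mem_pi hM hk')
  have hn : Ico (kM M) 1 ∈ 𝓝 k := mem_of_superset (isOpen_Ioo.mem_nhds hk) Ioo_subset_Ico_self
  refine hasDerivAt_implicit (l := log M) h1 h2
    (mul_pos two_pos (div_pos (Zeta_pos hk0 hk1 (ph_mem hM hk)) (Dl_pos hk1 _))).ne'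
    ((continuousOn_ph hM k hk').continuousAt hn) ?_
  filter_upwards [hn] with t ht using (ph_spec hM ht).2

noncomputable def ww (k φ : ℝ) : ℝ := 1 / (4 * hh k φ * xx k φ * (1 - k ^ 2))

theorem flow_raw {ψ : ℝ → ℝ} (hk0 : 0 < k) (hk : k ^ 2 < 1) (hφ : ψ k ∈ Ioo 0 (π / 2))
    (hψ : HasDerivAt ψ (-Lk k (ψ k) / (2 * (Zeta k (ψ k) / Dl k (ψ k)))) k) :
    let m := fun t => mm t (ψ t)
    let h := fun t => hh t (ψ t)
    let x := fun t => xx t (ψ t)
    let N := fun t => NN t (ψ t)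
    let w := ww k (ψ k)
    HasDerivAt m (w * ((1 - (h k + m k) ^ 2) * (h k + x k) ^ 2
      + (1 - (h k - m k) ^ 2) * (h k - x k) ^ 2)) k ∧
    HasDerivAt h (w * ((1 - (h k + m k) ^ 2) * (h k + x k) ^ 2
      - (1 - (h k - m k) ^ 2) * (h k - x k) ^ 2)) k ∧
    HasDerivAt x (w * (2 * N k * (h k - x k) * (h k + x k))) k ∧
    HasDerivAt N (w * ((1 - (h k + m k) ^ 2) * (h k + x k) ^ 3
      - (1 - (h k - m k) ^ 2) * (h k - x k) ^ 3 - 4 * x k * N k ^ 2
      - 2 * m k * N k * (h k - x k) * (h k + x k))) k := by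
  intro m h x N w
  have dD := hasDerivAt_Dl (hasDerivAt_id k) hψ hk
  have dm : HasDerivAt m _ k := hψ.cos.mul dD
  have dh : HasDerivAt h _ k := (hasDerivAt_id k).mul (hψ.sin.pow 2)
  have dx : HasDerivAt x _ k := hψ.sin.mul (hasDerivAt_Zeta_curve hk hk0.ne' hψ)
  have dN : HasDerivAt N _ k := (dm.mul dx).add
    ((hψ.sin.pow 2).mul ((hasDerivAt_eta hk hk0.ne').sub (dD.pow 2)))
  have h1 := Dl_sq hk (ψ k)
  have h2 := sin_sq_add_cos_sq (ψ k)
  have h3 := (Zeta_pos hk0 hk hφ).ne'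
  have h4 := (Dl_pos hk (ψ k)).ne'
  have h5 := (sin_pos_of_pos_of_lt_pi hφ.1 (by linarith [hφ.2, pi_pos])).ne'
  have h6 : 1 - k ^ 2 ≠ 0 := by linarith
  have h7 := hk0.ne'
  refine ⟨dm.congr_deriv ?_, dh.congr_deriv ?_, dx.congr_deriv ?_, dN.congr_deriv ?_⟩
  · simp only [m, h, x, w, id, ww, Lk, mm, hh, xx]
    field_simp
    grind
  · simp only [m, h, x, w, id, ww, Lk, mm, hh, xx]
    field_simp
    grind
  · simp only [h, x, N, w, ww, Lk, Zk, NN, mm, hh, xx]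
    field_simp
    grind
  · simp only [m, h, x, N, w, id, ww, Lk, Zk, NN, mm, hh, xx, Pi.pow_apply]
    field_simp
    grind

end Pool.Agent.Lib.MP_03314f_an
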