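import Mathlib
import Pool.Agent.Lib.MP_03314f_an.Calc
import Pool.Agent.Lib.MP_03314f_an.Starlike

/-! The one-dimensional argument. -/

namespace Pool.Agent.Lib.MP_03314f_an

open Set Filter Topology

theorem exists_first {f : ℝ → ℝ} {a b c : ℝ} (hab : a ≤ b) (hf : ContinuousOn f (Icc a b))
    (hb : f b ≤ c) : ∃ t ∈ Icc a b, f t ≤ c ∧ ∀ s ∈ Ico a t, c < f s := by
  have hcl : IsClosed (Icc a b ∩ f ⁻¹' Iic c) :=
    hf.preimage_isClosed_of_isClosed isClosed_Icc isClosed_Iic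
  have hco : IsCompact (Icc a b ∩ f ⁻¹' Iic c) :=
    isCompact_Icc.of_isClosed_subset hcl inter_subset_left
  obtain ⟨t, ht, hm⟩ := hco.exists_isLeast ⟨b, ⟨hab, le_rfl⟩, hb⟩
  refine ⟨t, ht.1, ht.2, fun s hs => ?_⟩
  by_contra h
  exact hs.2.not_ge (hm ⟨⟨hs.1, hs.2.le.trans ht.1.2⟩, not_lt.1 h⟩)

theorem stays_le {n n' : ℝ → ℝ} {a b c e : ℝ} (hce : c < e) (hc : ContinuousOn n (Ico a b))
    (hd : ∀ t ∈ Ioo a b, HasDerivAt n (n' t) t) (hs : ∀ t ∈ Ioo a b, n t ≤ e → n' t ≤ 0)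
    (ha : n a ≤ c) : ∀ t ∈ Ico a b, n t ≤ c := by
  intro t ht
  have hsub : Icc a t ⊆ Ico a b := fun s hs => ⟨hs.1, hs.2.trans_lt ht.2⟩
  by_cases h : ∀ s ∈ Icc a t, n s < e
  · exact (ge_of_deriv_nonpos ht.1 (hc.mono hsub) (fun s hs => hd s ⟨hs.1, hs.2.trans ht.2⟩)
      fun s hs' => hs s ⟨hs'.1, hs'.2.trans ht.2⟩ (h s (Ioo_subset_Icc_self hs')).le).trans ha
  push Not at h
  obtain ⟨s, hs', h⟩ := h
  obtain ⟨r, hr, h1, h2⟩ := exists_first (f := -n) (c := -e) hs'.1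
    ((hc.mono hsub).mono (Icc_subset_Icc_right hs'.2)).neg (by simpa using h)
  have hrb : r < b := hr.2.trans_lt (hs'.2.trans_lt ht.2)
  have := ge_of_deriv_nonpos hr.1 (hc.mono fun s hs => ⟨hs.1, hs.2.trans_lt hrb⟩)
    (fun s hs => hd s ⟨hs.1, hs.2.trans hrb⟩)
    fun s hs'' => hs s ⟨hs''.1, hs''.2.trans hrb⟩ (by
      have := h2 s (Ioo_subset_Ico_self hs'')
      simp only [Pi.neg_apply, neg_lt_neg_iff] at this
      exact this.le)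
  simp only [Pi.neg_apply, neg_le_neg_iff] at h1
  linarith

structure Sys (a b : ℝ) (D K K' v : ℝ → ℝ) : Prop where
  cD : ContinuousOn D (Ico a b)
  cK : ContinuousOn K (Ico a b)
  dD : ∀ t ∈ Ioo a b, HasDerivAt D ((4 - K t) * v t) t
  dK : ∀ t ∈ Ioo a b, HasDerivAt K (K' t) t
  pos : ∀ t ∈ Ioo a b, 0 < v t
  key : ∀ t ∈ Ioo a b, D t ≤ 0 → K t ≤ 4 → 0 < K' t

variable {a b : ℝ} {D K K' v : ℝ → ℝ}

theorem Sys.left (h : Sys a b D K K' v) {t : ℝ} (ht : t ∈ Ioo a b) (h1 : D t ≤ 0) (h2 : K t ≤ 4) :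
    ∀ᶠ s in 𝓝[<] t, K s < 4 := by
  have := eventually_gt_of_deriv_neg (h.dK t ht).neg (neg_lt_zero.2 (h.key t ht h1 h2))
  filter_upwards [this] with s hs
  simp only [Pi.neg_apply, neg_lt_neg_iff] at hs
  linarith

theorem Sys.persist (h : Sys a b D K K' v) {t₀ : ℝ} (ht₀ : t₀ ∈ Ico a b) (h1 : D t₀ ≤ 0)
    (h2 : 4 < K t₀) : StrictAntiOn D (Ico t₀ b) := by
  have hK : ∀ t ∈ Ico t₀ b, 4 < K t := by
    intro t ht
    by_contra hn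
    have hsub : Icc t₀ t ⊆ Ico a b := fun s hs => ⟨ht₀.1.trans hs.1, hs.2.trans_lt ht.2⟩
    obtain ⟨r, hr, h3, h4⟩ := exists_first ht.1 (h.cK.mono hsub) (not_lt.1 hn)
    have hr0 : t₀ < r := lt_of_le_of_ne hr.1 (by rintro rfl; linarith)
    have hrb : r < b := hr.2.trans_lt ht.2
    have hin : ∀ s ∈ Ioo t₀ r, s ∈ Ioo a b := fun s hs => ⟨ht₀.1.trans_lt hs.1, hs.2.trans hrb⟩
    have h5 : D r ≤ D t₀ := ge_of_deriv_nonpos hr.1
      (h.cD.mono fun s hs => ⟨ht₀.1.trans hs.1, hs.2.trans_lt hrb⟩)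
      (fun s hs => h.dD s (hin s hs)) fun s hs => mul_nonpos_of_nonpos_of_nonneg
        (by linarith [h4 s (Ioo_subset_Ico_self hs)]) (h.pos s (hin s hs)).le
    obtain ⟨s, h6, h7⟩ := ((h.left ⟨ht₀.1.trans_lt hr0, hrb⟩ (h5.trans h1) h3).and
      (Ioo_mem_nhdsLT hr0)).exists
    linarith [h4 s (Ioo_subset_Ico_self h7)]
  intro s hs t ht hst
  have hin : ∀ r ∈ Ioo s t, r ∈ Ioo a b := fun r hr =>
    ⟨(ht₀.1.trans hs.1).trans_lt hr.1, hr.2.trans ht.2⟩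
  exact gt_of_deriv_neg hst
    (h.cD.mono fun r hr => ⟨(ht₀.1.trans hs.1).trans hr.1, hr.2.trans_lt ht.2⟩)
    (fun r hr => h.dD r (hin r hr)) fun r hr => mul_neg_of_neg_of_pos
      (by linarith [hK r ⟨hs.1.trans hr.1.le, hr.2.trans ht.2⟩]) (h.pos r (hin r hr))

theorem Sys.cases (h : Sys a b D K K' v) (hab : a < b) (h1 : D a = 0) (h2 : K a < 4) :
    (∀ t ∈ Ioo a b, 0 < D t) ∨ ∃ r ∈ Ioo a b, D r = 0 ∧ (∀ t ∈ Ioo a r, 0 < D t) ∧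
      StrictAntiOn D (Ico r b) := by
  by_cases hp : ∀ t ∈ Ioo a b, 0 < D t
  · exact Or.inl hp
  right
  push Not at hp
  obtain ⟨t, ht, hDt⟩ := hp
  have hev : ∀ᶠ s in 𝓝[≥] a, K s < 4 := by
    have := (h.cK a ⟨le_rfl, hab⟩).eventually (gt_mem_nhds h2)
    rwa [nhdsWithin_Ico_eq_nhdsGE hab] at this
  obtain ⟨u, hu, hsub⟩ := mem_nhdsGE_iff_exists_Icc_subset.1 (hev.and (Ico_mem_nhdsGE ht.1))
  have hut : u < t := (hsub ⟨hu.le, le_rfl⟩).2.2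
  have hpos : ∀ s ∈ Ioc a u, 0 < D s := by
    intro s hs
    have hsb : s < b := hs.2.trans_lt (hut.trans ht.2)
    rw [← h1]
    exact lt_of_deriv_pos hs.1 (h.cD.mono fun r hr => ⟨hr.1, hr.2.trans_lt hsb⟩)
      (fun r hr => h.dD r ⟨hr.1, hr.2.trans hsb⟩) fun r hr => mul_pos
        (by linarith [(hsub ⟨hr.1.le, hr.2.le.trans hs.2⟩).1]) (h.pos r ⟨hr.1, hr.2.trans hsb⟩)
  obtain ⟨r, hr, h3, h4⟩ := exists_first hut.le
    (h.cD.mono fun s hs => ⟨hu.le.trans hs.1, hs.2.trans_lt ht.2⟩) hDt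
  have hur : u < r := lt_of_le_of_ne hr.1 (by rintro rfl; linarith [hpos u ⟨hu, le_rfl⟩])
  have hrm : r ∈ Ioo a b := ⟨hu.trans hur, hr.2.trans_lt ht.2⟩
  have hall : ∀ s ∈ Ioo a r, 0 < D s := by
    intro s hs
    rcases le_total s u with h' | h'
    · exact hpos s ⟨hs.1, h'⟩
    · exact h4 s ⟨h', hs.2⟩
  have hD0 : D r = 0 := by
    refine le_antisymm h3 (ge_of_tendsto
      ((h.dD r hrm).continuousAt.tendsto.mono_left (nhdsWithin_le_nhds (s := Iio r))) ?_)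
    filter_upwards [Ioo_mem_nhdsLT hrm.1] with s hs using (hall s hs).le
  refine ⟨r, hrm, hD0, hall, h.persist (Ioo_subset_Ico_self hrm) h3 ?_⟩
  by_contra hn
  obtain ⟨l, hl, hsub'⟩ := mem_nhdsLT_iff_exists_Ico_subset.1
    ((h.left hrm h3 (not_lt.1 hn)).and (Ioo_mem_nhdsLT hrm.1))
  have hl' : l < r := hl
  have hla : a < l := (hsub' ⟨le_rfl, hl'⟩).2.1
  have := lt_of_deriv_pos hl' (h.cD.mono fun s hs => ⟨hla.le.trans hs.1, hs.2.trans_lt hrm.2⟩)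
    (fun s hs => h.dD s ⟨hla.trans hs.1, hs.2.trans hrm.2⟩) fun s hs => mul_pos
      (by linarith [(hsub' (Ioo_subset_Ico_self hs)).1])
      (h.pos s ⟨hla.trans hs.1, hs.2.trans hrm.2⟩)
  linarith [hall l ⟨hla, hl'⟩]

theorem lim_neg {r l : ℝ} (hr : r < b) (h0 : D r ≤ 0) (h : StrictAntiOn D (Ico r b))
    (hl : Tendsto D (𝓝[<] b) (𝓝 l)) : l < 0 := by
  obtain ⟨s, h1, h2⟩ := exists_between hr
  have h3 := h ⟨le_rfl, hr⟩ ⟨h1.le, h2⟩ h1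
  refine lt_of_le_of_lt (le_of_tendsto hl ?_) (h3.trans_le h0)
  filter_upwards [Ioo_mem_nhdsLT h2] with t ht
  exact (h ⟨h1.le, h2⟩ ⟨h1.le.trans ht.1.le, ht.2⟩ ht.1).le

end Pool.Agent.Lib.MP_03314f_an
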