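import Mathlib
import Pool.Agent.Lib.MP_03314f_an.Curve
import Pool.Agent.Lib.MP_03314f_an.OneD

/-! The normalised quantities and the key implication along a level curve. -/

namespace Pool.Agent.Lib.MP_03314f_an

open Set Filter Topology Real

noncomputable def UU (k φ : ℝ) : ℝ := (1 - (hh k φ + mm k φ) ^ 2) / (hh k φ - xx k φ) ^ 2
noncomputable def VV (k φ : ℝ) : ℝ := (1 - (hh k φ - mm k φ) ^ 2) / (hh k φ + xx k φ) ^ 2
noncomputable def nn (k φ : ℝ) : ℝ := NN k φ / ((hh k φ - xx k φ) * (hh k φ + xx k φ))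
noncomputable def yy (k φ : ℝ) : ℝ := xx k φ / hh k φ
noncomputable def KK (k φ : ℝ) : ℝ := Kf (UU k φ) (VV k φ) (nn k φ) (yy k φ)
noncomputable def DD (k φ : ℝ) : ℝ := 4 * xx k φ - lam k φ

variable {M k φ : ℝ}

theorem fn_nonpos {U V n y : ℝ} (hV : 0 ≤ V) (hn : n ≤ 1 / 2) (hn0 : 0 ≤ n) (hy0 : 0 < y)
    (hy : y < 1) (h : U * (1 + y) ^ 2 ≤ V * (1 - y) ^ 2) : fn U V n y ≤ 0 := by
  have hA : 0 < 1 - y := by linarith
  have h1 : 0 ≤ 1 - n * (3 - y) / 2 := by nlinarith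
  have h2 := mul_le_mul_of_nonneg_right h h1
  have h3 : 0 ≤ V * (1 - y) * (2 * y * (1 - 2 * n)) :=
    mul_nonneg (mul_nonneg hV hA.le) (mul_nonneg (by linarith) (by linarith))
  have h4 : (U * (1 + y) * (1 - n * (3 - y) / 2) - V * (1 - y) * (1 - n * (3 + y) / 2)) * (1 + y)
      ≤ 0 := by linarith
  unfold fn
  linarith [mul_nonpos_of_nonpos_of_nonneg h4 hA.le]

theorem U_le {U V n y δ : ℝ} (hn0 : 0 < n) (hy0 : 0 < y) (hy : y < 1) (hU : 0 ≤ U)
    (h : U * (1 + y) ^ 2 ≤ V * (1 - y) ^ 2) (hδ : δ ≤ 1)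
    (e : 3 * n * (V * (1 + y) ^ 2 - U * (1 - y) ^ 2) - 2 * (V * (1 + y) - U * (1 - y)) = 8 * n * δ)
    (hK : Kf U V n y ≤ 4) : U ≤ n ^ 2 * (1 - y) := by
  have hA : 0 < 1 - y := by linarith
  rw [Kf, div_le_iff₀ (by positivity), KN, e] at hK
  have h1 : (1 + y) * U ≤ (1 - y) * V := by
    refine le_of_mul_le_mul_right ?_ hA
    linarith [mul_nonneg hU (mul_nonneg hy0.le (show 0 ≤ 1 + y by linarith))]
  have h2 := mul_nonneg hn0.le (mul_nonneg (sub_nonneg.2 hδ) (sub_nonneg.2 h1))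
  refine le_of_mul_le_mul_left ?_ (show 0 < 16 * n * (1 + y) by positivity)
  linarith

theorem point_pos (hk0 : 0 < k) (hk : k ^ 2 < 1) (hφ : φ ∈ Ioo 0 (π / 2)) :
    0 < hh k φ ∧ 0 < xx k φ ∧ 0 < yy k φ ∧ yy k φ < 1 ∧ 0 < nn k φ ∧ 0 ≤ UU k φ ∧ 0 ≤ VV k φ ∧
    UU k φ * (1 - yy k φ) ^ 2 = ((Dl k φ - k * cos φ) / (k * sin φ)) ^ 2 ∧
    VV k φ * (1 + yy k φ) ^ 2 = ((Dl k φ + k * cos φ) / (k * sin φ)) ^ 2 ∧
    UU k φ * (1 + yy k φ) ^ 2 ≤ VV k φ * (1 - yy k φ) ^ 2 := by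
  have hφ' : φ ∈ Ioo 0 π := ⟨hφ.1, by linarith [hφ.2, pi_pos]⟩
  have hs := sin_pos_of_mem_Ioo hφ'
  have hA := A_pos hk0 hk hφ'
  have hB := B_pos hk0 hk hφ'
  have hN := NN_pos hk0 hk hφ'
  have hh0 : 0 < hh k φ := by unfold hh; positivity
  have hx0 : 0 < xx k φ := mul_pos hs (Zeta_pos hk0 hk hφ)
  have eA : 1 - yy k φ = (hh k φ - xx k φ) / hh k φ := by rw [yy]; field_simp
  have eB : 1 + yy k φ = (hh k φ + xx k φ) / hh k φ := by rw [yy]; field_simp
  refine ⟨hh0, hx0, div_pos hx0 hh0, by rw [yy, div_lt_one hh0]; linarith,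
    div_pos hN (mul_pos hA hB), by rw [UU, alpha_eq hk]; positivity,
    by rw [VV, beta_eq hk]; positivity, ?_, ?_, ?_⟩
  · rw [UU, eA, alpha_eq hk]
    generalize hh k φ - xx k φ = A at *
    unfold hh; field_simp
  · rw [VV, eB, beta_eq hk]
    generalize hh k φ + xx k φ = A at *
    unfold hh; field_simp
  · have h1 := pow_le_pow_left₀ (mul_nonneg (P_pos hk φ).le (sq_nonneg _))
      (I2 hk0 hk (Ioo_subset_Icc_self hφ)) 2
    rw [UU, VV, eA, eB, alpha_eq hk, beta_eq hk, div_pow, div_pow, div_mul_div_comm,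
      div_mul_div_comm, div_le_div_iff₀ (by positivity) (by positivity)]
    linarith [mul_le_mul_of_nonneg_left h1 (show 0 ≤ sin φ ^ 2 * hh k φ ^ 2 by positivity)]

theorem key_point (hM : 125 / 46 ≤ M) (hk0 : 0 < k) (hk : k ^ 2 < 1) (hφ : φ ∈ Ioo 0 (π / 2))
    (hL : logBound k φ = log M) (hn : nn k φ ≤ 191 / 500) (hD : DD k φ ≤ 0) (hK : KK k φ ≤ 4) :
    0 < totp (UU k φ) (slf (UU k φ) (VV k φ) (nn k φ) (yy k φ)) (nn k φ) (yy k φ) := by
  obtain ⟨hh0, hx0, hy0, hy1, hn0, hU, hV, eU, eV, hI⟩ := point_pos hk0 hk hφ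
  have hφ' : φ ∈ Ioo 0 π := ⟨hφ.1, by linarith [hφ.2, pi_pos]⟩
  have hs := sin_pos_of_mem_Ioo hφ'
  have hA := A_pos hk0 hk hφ'
  have hB := B_pos hk0 hk hφ'
  have hN := NN_pos hk0 hk hφ'
  have hP := P_pos hk φ
  have hQ := Q_pos hk φ
  have hsl : 0 ≤ slf (UU k φ) (VV k φ) (nn k φ) (yy k φ) := by
    have e : hh k φ * slf (UU k φ) (VV k φ) (nn k φ) (yy k φ) = 2 * nn k φ * -DD k φ := by
      unfold slf UU VV nn yy DD lam
      field_simp
      ring
    have : 0 ≤ hh k φ * slf (UU k φ) (VV k φ) (nn k φ) (yy k φ) := by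
      rw [e]; exact mul_nonneg (by positivity) (by linarith)
    exact (mul_nonneg_iff_of_pos_left hh0).1 this
  have hUle : UU k φ ≤ nn k φ ^ 2 * (1 - yy k φ) := by
    refine U_le (δ := (dd k φ + mm k φ) / hh k φ) hn0 hy0 hy1 hU hI ?_ ?_ hK
    · rw [div_le_one hh0]; linarith [d_lt_b hk0 hk hφ']
    · unfold UU VV nn yy dd lam
      field_simp
      ring
  have hKK : 0 ≤ KKp (UU k φ) (slf (UU k φ) (VV k φ) (nn k φ) (yy k φ)) (nn k φ) (yy k φ) := by
    rw [← KN_KKp]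
    have : 0 < 1 - yy k φ := by linarith
    rw [KK, Kf, div_le_iff₀ (by positivity)] at hK
    exact mul_nonneg (by linarith) (by positivity)
  rcases le_total (yy k φ) (1 / 2) with hy | hy
  · exact key_R1 hn0 hn hy0 hy hU hUle hsl hKK
  exfalso
  set σ := k * sin φ with hσ
  have hσ0 : 0 < σ := by positivity
  have hD2 : Dl k φ ^ 2 = 1 - σ ^ 2 := by rw [Dl_sq hk, hσ, mul_pow]
  have hDp := Dl_pos hk φ
  have hσ1 : σ ^ 2 ≤ 1 := by linarith [sq_nonneg (Dl k φ)]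
  set P := Dl k φ - k * cos φ with hPd
  set Q := Dl k φ + k * cos φ with hQd
  have hDPQ : Dl k φ = (P + Q) / 2 := by rw [hPd, hQd]; ring
  refine (key_R2 (V := VV k φ) hn0 hn hy hy1 hU hUle hsl ?_ (by unfold slf; ring) ?_).not_ge hKK
  · have h1 := logBound_le hk0 hk (Ioo_subset_Icc_self hφ')
    rw [hL] at h1
    have hM0 : 0 < M := by linarith
    have h2 : M * Q ^ 2 ≤ (1 + k) ^ 2 := by
      rw [← log_le_log_iff (by positivity) (by positivity), log_mul hM0.ne' (by positivity),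
        log_pow, log_pow]
      push_cast; linarith
    have hk1 : k < 1 := by nlinarith
    have h3 : Q ^ 2 ≤ 184 / 125 := by
      have : (1 + k) ^ 2 ≤ 4 := by nlinarith
      linarith [mul_le_mul_of_nonneg_right hM (sq_nonneg Q)]
    have h4 : 9 * P ≤ Q := by
      have i2 := I2 hk0 hk (Ioo_subset_Icc_self hφ)
      rw [yy, le_div_iff₀ hh0] at hy
      have h5 : (3 * (hh k φ - xx k φ)) ^ 2 ≤ (hh k φ + xx k φ) ^ 2 :=
        pow_le_pow_left₀ (by positivity) (by linarith) 2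
      refine le_of_mul_le_mul_right ?_ (pow_pos hA 2)
      linarith [mul_le_mul_of_nonneg_left h5 hP.le]
    have h5 : Dl k φ ^ 2 ≤ (5 / 9 * Q) ^ 2 := pow_le_pow_left₀ hDp.le (by linarith) 2
    have h6 : (Q / σ) ^ 2 ≤ 27 / 10 := by
      rw [div_pow, div_le_iff₀ (by positivity)]; linarith
    rw [← eV] at h6
    have h7 : VV k φ * (1 + yy k φ) ≤ 9 / 5 := by
      linarith [mul_le_mul_of_nonneg_left hy (show 0 ≤ VV k φ * (1 + yy k φ) by positivity)]
    have h8 : 0 ≤ UU k φ * (1 - yy k φ) * (2 + nn k φ * (1 - yy k φ)) := by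
      have : 0 < 1 - yy k φ := by linarith
      positivity
    have h9 := mul_le_mul hn h6 (by positivity) (by norm_num)
    unfold slf
    linarith [mul_pos hn0 hy0]
  · have hF := ellF_pos hk hφ.1
    have h1 := e1_le hk0 hk (Ioo_subset_Icc_self hφ)
    have h2 := F_ge_psi hk (Ioo_subset_Icc_self hφ)
    have h3 := i_psi (σ ^ 2) (sq_nonneg _) hσ1
    have h4 : NN k φ * ellF k φ
        ≤ sin φ * (hh k φ - xx k φ) - mm k φ * (hh k φ - xx k φ) * ellF k φ := by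
      have := mul_le_mul_of_nonneg_left h1 (sq_nonneg (sin φ))
      simp only [NN, hh, xx, mm, Zeta] at this ⊢
      linarith
    have h5 : nn k φ * (1 + yy k φ) + mm k φ / hh k φ ≤ 1 / (σ * ellF k φ) := by
      have e1 : nn k φ * (1 + yy k φ) + mm k φ / hh k φ
          = (NN k φ + mm k φ * (hh k φ - xx k φ)) / ((hh k φ - xx k φ) * hh k φ) := by
        unfold nn yy; field_simp
      rw [e1, div_le_div_iff₀ (by positivity) (by positivity)]
      have e2 : hh k φ = σ * sin φ := by rw [hσ, hh]; ring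
      have := mul_le_mul_of_nonneg_left h4 hσ0.le
      nth_rewrite 3 [e2]
      linarith
    have h6 : 1 / (σ * ellF k φ) ≤ 47 / 100 + 5 / 4 * (Dl k φ / σ) ^ 2 := by
      have e1 : 47 / 100 + 5 / 4 * (Dl k φ / σ) ^ 2
          = (47 / 100 * σ ^ 2 + 5 / 4 * (1 - σ ^ 2)) / σ ^ 2 := by
        rw [div_pow, hD2]; field_simp
      rw [e1, div_le_div_iff₀ (by positivity) (by positivity)]
      have h7 : 0 ≤ 47 / 100 * σ ^ 2 + 5 / 4 * (1 - σ ^ 2) := by linarith [sq_nonneg σ]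
      have h8 := mul_le_mul_of_nonneg_left h2 (mul_nonneg hσ0.le h7)
      have h9 := mul_pos (pow_pos hσ0 2) h3
      linarith
    have h7 : mm k φ / hh k φ = ((Q / σ) ^ 2 - (P / σ) ^ 2) / 4 := by
      rw [hPd, hQd, hσ, mm, hh]; field_simp; ring
    have h8 : Dl k φ / σ = (P / σ + Q / σ) / 2 := by rw [hDPQ]; ring
    rw [eU, eV]
    rw [h8] at h6
    linarith [sq_nonneg (Q / σ - 20 * (P / σ))]

theorem at_half (hk0 : 0 < k) (hk : k ^ 2 < 1) :
    xx k (π / 2) = 0 ∧ coeffVal k (π / 2) = k ^ 2 ∧ DD k (π / 2) = 0 ∧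
    nn k (π / 2) = (eta k - (1 - k ^ 2)) / k ^ 2 ∧
    KK k (π / 2) = 4 * (k * √(1 - k ^ 2) / (eta k - (1 - k ^ 2))) ^ 2 ∧
    0 < eta k - (1 - k ^ 2) := by
  have hx : xx k (π / 2) = 0 := by simp [xx, Zeta_half hk]
  have hm : mm k (π / 2) = 0 := by simp [mm]
  have hh' : hh k (π / 2) = k := by simp [hh]
  have hN : NN k (π / 2) = eta k - (1 - k ^ 2) := by simp [NN, hm, Dl_sq hk]
  have hN0 := NN_pos hk0 hk half_mem
  rw [hN] at hN0
  refine ⟨hx, by simp [coeffVal, Zeta_half hk], by simp [DD, lam, hx, hm], ?_, ?_, hN0⟩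
  · rw [nn, hN, hx, hh']; ring
  · rw [KK, Kf, KN, UU, VV, nn, yy, hN, hx, hh', hm, div_pow (k * _), mul_pow, kp_sq hk]
    generalize eta k - (1 - k ^ 2) = N at hN0
    simp only [sub_zero, add_zero, zero_div]
    field_simp
    ring

theorem along {f : ℝ × ℝ → ℝ} (hM : 1 < M)
    (hf : ∀ k φ, 0 < k → k ^ 2 < 1 → φ ∈ Ioo 0 π → ContinuousAt f (k, φ)) :
    ContinuousOn (fun k => f (k, ph M k)) (Ico (kM M) 1) := fun k hk =>
  ContinuousAt.comp_continuousWithinAt (f := fun k => (k, ph M k))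
    (hf k _ (k_good hM hk).1 (k_good hM hk).2 (ph_mem_pi hM hk))
    (continuousWithinAt_id.prodMk (continuousOn_ph hM k hk))

theorem continuousOn_xx (hM : 1 < M) : ContinuousOn (fun k => xx k (ph M k)) (Ico (kM M) 1) :=
  along (f := fun p => xx p.1 p.2) hM fun _ φ _ h _ => continuousAt_xx h φ

theorem continuousOn_DD (hM : 1 < M) : ContinuousOn (fun k => DD k (ph M k)) (Ico (kM M) 1) :=
  along (f := fun p => DD p.1 p.2) hM fun _ φ h0 h hφ =>
    (continuousAt_const.mul (continuousAt_xx h φ)).sub (continuousAt_lam h0 h hφ)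

theorem continuousOn_coeffVal (hM : 1 < M) :
    ContinuousOn (fun k => coeffVal k (ph M k)) (Ico (kM M) 1) :=
  along (f := fun p => coeffVal p.1 p.2) hM fun k φ _ h _ => by
    have := continuousAt_Zeta2 h φ
    unfold coeffVal; fun_prop

theorem continuousAt_nn (hk0 : 0 < k) (hk : k ^ 2 < 1) (hφ : φ ∈ Ioo 0 π) :
    ContinuousAt (fun p : ℝ × ℝ => nn p.1 p.2) (k, φ) := by
  have := continuousAt_hh k φ
  have := continuousAt_xx hk φ
  have := continuousAt_NN hk φ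
  have := mul_ne_zero (A_pos hk0 hk hφ).ne' (B_pos hk0 hk hφ).ne'
  unfold nn; fun_prop (disch := assumption)

theorem continuousAt_KK (hk0 : 0 < k) (hk : k ^ 2 < 1) (hφ : φ ∈ Ioo 0 π) :
    ContinuousAt (fun p : ℝ × ℝ => KK p.1 p.2) (k, φ) := by
  have := continuousAt_hh k φ
  have := continuousAt_mm k φ
  have := continuousAt_xx hk φ
  have hA := A_pos hk0 hk hφ
  have hB := B_pos hk0 hk hφ
  have := pow_ne_zero 2 hA.ne'
  have := pow_ne_zero 2 hB.ne'
  have h0 : 0 < hh k φ := by linarith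
  have := h0.ne'
  have : ContinuousAt (fun p : ℝ × ℝ => UU p.1 p.2) (k, φ) := by
    unfold UU; fun_prop (disch := assumption)
  have : ContinuousAt (fun p : ℝ × ℝ => VV p.1 p.2) (k, φ) := by
    unfold VV; fun_prop (disch := assumption)
  have : ContinuousAt (fun p : ℝ × ℝ => yy p.1 p.2) (k, φ) := by
    unfold yy; fun_prop (disch := assumption)
  have := continuousAt_nn hk0 hk hφ
  have : 4 * nn k φ ^ 3 * (1 - yy k φ) * (1 + yy k φ) ≠ 0 := by
    have eA : 1 - yy k φ = (hh k φ - xx k φ) / hh k φ := by rw [yy]; field_simp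
    have eB : 1 + yy k φ = (hh k φ + xx k φ) / hh k φ := by rw [yy]; field_simp
    have := NN_pos hk0 hk hφ
    rw [eA, eB, nn]; positivity
  unfold KK Kf KN; fun_prop (disch := assumption)

theorem flow_all (hM : 1 < M) (hk : k ∈ Ioo (kM M) 1) :
    let φ := ph M k
    let τ := ww k φ * hh k φ ^ 3
    let v := ww k φ * (2 * NN k φ * (hh k φ - xx k φ) * (hh k φ + xx k φ))
    0 < τ ∧ 0 < v ∧
    HasDerivAt (fun k => nn k (ph M k)) (τ * fn (UU k φ) (VV k φ) (nn k φ) (yy k φ)) k ∧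
    HasDerivAt (fun k => DD k (ph M k)) ((4 - KK k φ) * v) k ∧
    HasDerivAt (fun k => KK k (ph M k))
      (τ * totp (UU k φ) (slf (UU k φ) (VV k φ) (nn k φ) (yy k φ)) (nn k φ) (yy k φ)
        / (8 * nn k φ ^ 4 * (1 - yy k φ) * (1 + yy k φ) ^ 2 * (2 + nn k φ * (1 + yy k φ)) ^ 3)) k ∧
    HasDerivAt (fun k => coeffVal k (ph M k)) (DD k φ * v) k := by
  intro φ τ v
  have hk' := Ioo_subset_Ico_self hk
  obtain ⟨hk0, hk1⟩ := k_good hM hk'
  have hφ := ph_mem hM hk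
  have hφ' := ph_mem_pi hM hk'
  obtain ⟨hh0, hx0, hy0, hy1, hn0, -⟩ := point_pos hk0 hk1 hφ
  have hA := A_pos hk0 hk1 hφ'
  have hB := B_pos hk0 hk1 hφ'
  have hN := NN_pos hk0 hk1 hφ'
  have hw : 0 < ww k φ := by
    have : 0 < 1 - k ^ 2 := by linarith
    unfold ww; positivity
  obtain ⟨dm, dh, dx, dN⟩ := flow_raw hk0 hk1 hφ (hasDerivAt_ph hM hk)
  obtain ⟨dU, dV, dn, dy, dl⟩ := flow_norm (m := fun t => mm t (ph M t))
    (h := fun t => hh t (ph M t)) (x := fun t => xx t (ph M t)) (N := fun t => NN t (ph M t))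
    (t := k) hh0.ne' hA.ne' hB.ne' hN.ne' dm dh dx dN
  refine ⟨by positivity, by positivity, dn, ?_, hasDerivAt_Kf hn0 hy0 hy1 dU dV dn dy, ?_⟩
  · exact ((dx.const_mul 4).sub dl).congr_deriv (by simp only [v, KK, UU, VV, nn, yy, φ]; ring)
  · have := ((dh.pow 2).sub ((dm.const_mul 2).mul dx)).add ((dx.pow 2).const_mul 2)
    simp only [coeffVal_eq]
    refine this.congr_deriv ?_
    simp only [v, DD, lam, φ]
    field_simp
    ring

theorem nn_le (hM : 125 / 46 ≤ M) : ∀ k ∈ Ico (kM M) 1, nn k (ph M k) ≤ 191 / 500 := by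
  have hM1 : 1 < M := by linarith
  refine stays_le (e := 1 / 2) (by norm_num)
    (along (f := fun p => nn p.1 p.2) hM1 fun _ _ => continuousAt_nn)
    (fun k hk => (flow_all hM1 hk).2.2.1) (fun k hk h => ?_) ?_
  · obtain ⟨hk0, hk1⟩ := k_good hM1 (Ioo_subset_Ico_self hk)
    obtain ⟨-, -, hy0, hy1, hn0, -, hV, -, -, hI⟩ := point_pos hk0 hk1 (ph_mem hM1 hk)
    exact mul_nonpos_of_nonneg_of_nonpos (flow_all hM1 hk).1.le (fn_nonpos hV h hn0.le hy0 hy1 hI)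
  · obtain ⟨hk0, hk1⟩ := k_good hM1 ⟨le_rfl, kM_lt_one hM1⟩
    simp only [ph_kM hM1]
    rw [(at_half hk0 hk1).2.2.2.1, div_le_iff₀ (by positivity)]
    have := eta_le hk0 hk1 (by
      rw [kM_sq hM1]
      have : 1 / M ^ 2 ≤ 1 / (125 / 46) ^ 2 :=
        one_div_le_one_div_of_le (by norm_num) (pow_le_pow_left₀ (by norm_num) hM 2)
      linarith)
    linarith

theorem sys (hM : 125 / 46 ≤ M) : ∃ K' v, Sys (kM M) 1 (fun k => DD k (ph M k))
    (fun k => KK k (ph M k)) K' v ∧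
    ∀ k ∈ Ioo (kM M) 1, HasDerivAt (fun k => coeffVal k (ph M k)) (DD k (ph M k) * v k) k := by
  have hM1 : 1 < M := by linarith
  refine ⟨_, _, ⟨continuousOn_DD hM1,
    along (f := fun p => KK p.1 p.2) hM1 fun _ _ => continuousAt_KK,
    fun k hk => (flow_all hM1 hk).2.2.2.1, fun k hk => (flow_all hM1 hk).2.2.2.2.1,
    fun k hk => (flow_all hM1 hk).2.1, fun k hk h1 h2 => ?_⟩,
    fun k hk => (flow_all hM1 hk).2.2.2.2.2⟩
  have hk' := Ioo_subset_Ico_self hk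
  obtain ⟨hk0, hk1⟩ := k_good hM1 hk'
  obtain ⟨-, -, hy0, hy1, hn0, -⟩ := point_pos hk0 hk1 (ph_mem hM1 hk)
  have h3 := key_point hM hk0 hk1 (ph_mem hM1 hk) (ph_spec hM1 hk').2 (nn_le hM k hk') h1 h2
  have h4 := (flow_all hM1 hk).1
  have : 0 < 1 - yy k (ph M k) := by linarith
  exact div_pos (mul_pos h4 h3) (by positivity)

end Pool.Agent.Lib.MP_03314f_an
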