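import Mathlib
import Pool.Agent.Lib.MP_03314f_an.State

/-! The limit `k → 1` along a level curve. -/

namespace Pool.Agent.Lib.MP_03314f_an

open Set Filter Topology Real

variable {M φ : ℝ}

theorem ev_good : ∀ᶠ t in 𝓝[<] (1 : ℝ), 0 < t ∧ t ^ 2 < 1 := by
  filter_upwards [Ioo_mem_nhdsLT (zero_lt_one' ℝ)] with t ht
  exact ⟨ht.1, by nlinarith [ht.1, ht.2]⟩

theorem tendsto_one : Tendsto (fun t : ℝ => t) (𝓝[<] 1) (𝓝 1) := nhdsWithin_le_nhds

theorem tendsto_Dl {ψ : ℝ → ℝ} (h : Tendsto ψ (𝓝[<] 1) (𝓝 φ)) (hc : 0 ≤ cos φ) :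
    Tendsto (fun t => Dl t (ψ t)) (𝓝[<] 1) (𝓝 (cos φ)) := by
  have h1 : Continuous fun p : ℝ × ℝ => Dl p.1 p.2 := by fun_prop
  have := (h1.tendsto (1, φ)).comp (tendsto_one.prodMk_nhds h)
  have e : Dl 1 φ = cos φ := by rw [Dl, one_pow, one_mul, ← cos_sq', sqrt_sq hc]
  rwa [e] at this

theorem tendsto_logBound (hφ : φ ∈ Ioo 0 (π / 2)) :
    Tendsto (fun t => logBound t φ) (𝓝[<] 1) (𝓝 (-2 * log (cos φ))) := by
  have hc : 0 < cos φ := cos_pos_of_mem_Ioo ⟨by linarith [hφ.1, pi_pos], hφ.2⟩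
  have h1 : Tendsto (fun t => 2 * log (1 + t) - 2 * log (Dl t φ + t * cos φ)) (𝓝[<] 1)
      (𝓝 (-2 * log (cos φ))) := by
    have := (((tendsto_one.const_add 1).log (by norm_num)).const_mul 2).sub
      ((((tendsto_Dl (φ := φ) tendsto_const_nhds hc.le).add
        (tendsto_one.mul_const (cos φ))).log (by positivity)).const_mul 2)
    convert this using 2
    rw [show cos φ + 1 * cos φ = (1 + 1) * cos φ by ring, log_mul (by norm_num) hc.ne']
    ring
  have h2 := h1.sub (tendsto_eta.mul_const (ath (sin φ) ^ 2))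
  rw [zero_mul, sub_zero] at h2
  refine tendsto_of_tendsto_of_tendsto_of_le_of_le' h2 h1 ?_ ?_
  · filter_upwards [ev_good] with t ht
    have h3 := logBound_ge ht.2 hφ.1.le
    have h4 := pow_le_pow_left₀ (ellF_pos ht.2 hφ.1).le (F_le_ath ht.2 (Ioo_subset_Ico_self hφ)) 2
    linarith [mul_le_mul_of_nonneg_left h4 (eta_pos ht.2).le]
  · filter_upwards [ev_good] with t ht
    exact logBound_le ht.1 ht.2 ⟨hφ.1.le, by linarith [hφ.2, pi_pos]⟩

noncomputable def phI (M : ℝ) : ℝ := arccos (1 / √M)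

theorem phI_spec (hM : 1 < M) : phI M ∈ Ioo 0 (π / 2) ∧ cos (phI M) = 1 / √M ∧
    cos (phI M) ^ 2 = 1 / M ∧ sin (phI M) ^ 2 = 1 - 1 / M := by
  have h1 : 1 < √M := lt_sqrt_of_sq_lt (by simpa using hM)
  have h2 : 0 < 1 / √M := by positivity
  have h3 : 1 / √M < 1 := by rw [div_lt_one (by linarith)]; exact h1
  have h4 : cos (phI M) = 1 / √M := cos_arccos (by linarith) h3.le
  have h5 : cos (phI M) ^ 2 = 1 / M := by rw [h4, div_pow, sq_sqrt (by linarith), one_pow]
  exact ⟨⟨arccos_pos.2 h3, arccos_lt_pi_div_two.2 h2⟩, h4, h5, by rw [sin_sq, h5]⟩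

theorem ev_curve (hM : 1 < M) : ∀ᶠ t in 𝓝[<] (1 : ℝ), t ∈ Ioo (kM M) 1 :=
  Ioo_mem_nhdsLT (kM_lt_one hM)

theorem tendsto_ph (hM : 1 < M) : Tendsto (ph M) (𝓝[<] 1) (𝓝 (phI M)) := by
  obtain ⟨h1, h2, h3, -⟩ := phI_spec hM
  have hc : ∀ x ∈ Ioo 0 (π / 2), 0 < cos x := fun x hx =>
    cos_pos_of_mem_Ioo ⟨by linarith [hx.1, pi_pos], hx.2⟩
  have hl : log M = -2 * log (cos (phI M)) := by
    have := congrArg log h3
    rw [log_pow, one_div, log_inv] at this
    push_cast at this; linarith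
  have hmono : ∀ x ∈ Ioo 0 (π / 2), ∀ y ∈ Ioo 0 (π / 2), x < y →
      -2 * log (cos x) < -2 * log (cos y) := by
    intro x hx y hy hxy
    have := log_lt_log (hc y hy)
      (cos_lt_cos_of_nonneg_of_le_pi hx.1.le (by linarith [hy.2, pi_pos]) hxy)
    linarith
  rw [tendsto_order]
  constructor
  · intro a ha
    obtain ⟨x, h4, h5⟩ := exists_between (max_lt ha h1.1)
    have h6 : x ∈ Ioo 0 (π / 2) := ⟨(le_max_right _ _).trans_lt h4, h5.trans h1.2⟩
    filter_upwards [(tendsto_logBound h6).eventually (gt_mem_nhds (hmono x h6 _ h1 h5)),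
      ev_curve hM] with t ht ht'
    exact ((le_max_left _ _).trans_lt h4).trans
      ((lt_ph_iff hM (Ioo_subset_Ico_self ht') (Ioo_subset_Icc_self h6)).2 (hl ▸ ht))
  · intro a ha
    obtain ⟨x, h4, h5⟩ := exists_between (lt_min ha h1.2)
    have h6 : x ∈ Ioo 0 (π / 2) := ⟨h1.1.trans h4, h5.trans_le (min_le_right _ _)⟩
    filter_upwards [(tendsto_logBound h6).eventually (lt_mem_nhds (hmono _ h1 x h6 h4)),
      ev_curve hM] with t ht ht'
    exact ((ph_lt_iff hM (Ioo_subset_Ico_self ht') (Ioo_subset_Icc_self h6)).2 (hl ▸ ht)).trans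
      (h5.trans_le (min_le_left _ _))

theorem ath_lt {s : ℝ} (h0 : 0 < s) (h1 : s ^ 2 < 1) : (1 - s ^ 2) * ath s < s := by
  have hsq : ∀ u ∈ Icc 0 s, u ^ 2 < 1 := fun u hu => (pow_le_pow_left₀ hu.1 hu.2 2).trans_lt h1
  have hd : ∀ u ∈ Icc 0 s, HasDerivAt (fun u => u / (1 - u ^ 2) - ath u)
      (2 * u ^ 2 / (1 - u ^ 2) ^ 2) u := by
    intro u hu
    have h2 : 1 - u ^ 2 ≠ 0 := by linarith [hsq u hu]
    refine (((hasDerivAt_id u).div (((hasDerivAt_id u).pow 2).const_sub 1) h2).sub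
      (hasDerivAt_ath (hsq u hu))).congr_deriv ?_
    simp only [id, Pi.pow_apply]
    field_simp
    ring
  have := lt_of_deriv_pos h0 (fun u hu => (hd u hu).continuousAt.continuousWithinAt)
    (fun u hu => hd u (Ioo_subset_Icc_self hu)) fun u hu => by
      have h2 : 0 < 1 - u ^ 2 := by linarith [hsq u (Ioo_subset_Icc_self hu)]
      have := hu.1
      positivity
  simp only [zero_div, ath_zero, sub_zero, sub_pos] at this
  rw [lt_div_iff₀ (by linarith)] at this
  linarith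

noncomputable def GM (M : ℝ) : ℝ :=
  (2 * M - 3) * √(M * (M - 1)) - (4 * M - 5) * log (√M + √(M - 1))

theorem limits (hM : 1 < M) :
    Tendsto (fun k => xx k (ph M k)) (𝓝[<] 1) (𝓝 (1 - 1 / M)) ∧
    Tendsto (fun k => coeffVal k (ph M k)) (𝓝[<] 1) (𝓝 (3 - 8 / M + 5 / M ^ 2)) ∧
    ∃ c, 0 < c ∧ Tendsto (fun k => DD k (ph M k)) (𝓝[<] 1) (𝓝 (c * GM M)) := by
  obtain ⟨h1, h2, h3, h4⟩ := phI_spec hM
  have hM0 : 0 < M := by linarith
  have tφ := tendsto_ph hM
  have hC : 0 < cos (phI M) := cos_pos_of_mem_Ioo ⟨by linarith [h1.1, pi_pos], h1.2⟩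
  have hs : 0 < sin (phI M) := sin_pos_of_pos_of_lt_pi h1.1 (by linarith [h1.2, pi_pos])
  have hs1 : sin (phI M) ^ 2 < 1 := by rw [h4]; linarith [one_div_pos.2 hM0]
  have ts := (continuous_sin.tendsto _).comp tφ
  have tC := (continuous_cos.tendsto _).comp tφ
  have tD := tendsto_Dl tφ hC.le
  set s := sin (phI M) with hsd
  set C := cos (phI M) with hCd
  have ca := (hasDerivAt_ath hs1).continuousAt.tendsto
  have tF : Tendsto (fun k => ellF k (ph M k)) (𝓝[<] 1) (𝓝 (ath s)) := by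
    have t1 := tendsto_one.mul ts
    rw [one_mul] at t1
    refine tendsto_of_tendsto_of_tendsto_of_le_of_le' (ca.comp t1) (ca.comp ts) ?_ ?_
    · filter_upwards [ev_good, ev_curve hM] with t ht ht' using ath_le_F ht.2 (ph_mem hM ht').1.le
    · filter_upwards [ev_good, ev_curve hM] with t ht ht'
        using F_le_ath ht.2 (Ioo_subset_Ico_self (ph_mem hM ht'))
  have tP := tD.sub (tendsto_one.mul tC)
  have tQ := tD.add (tendsto_one.mul tC)
  have tPe : Tendsto (fun k => (Dl k (ph M k) - k * cos (ph M k)) / eta k) (𝓝[<] 1) (𝓝 0) := by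
    have t1 := (((tendsto_one.pow 2).const_sub 1).sqrt).div tQ (by positivity)
    simp only [one_pow, sub_self, sqrt_zero, zero_div] at t1
    refine tendsto_of_tendsto_of_tendsto_of_le_of_le' tendsto_const_nhds t1 ?_ ?_
    · filter_upwards [ev_good] with t ht using div_nonneg (P_pos ht.2 _).le (eta_pos ht.2).le
    · filter_upwards [ev_good] with t ht
      simp only [Pi.div_apply, Function.comp]
      rw [div_le_div_iff₀ (eta_pos ht.2) (Q_pos ht.2 _), PQ ht.2]
      linarith [kp_sq ht.2, mul_le_mul_of_nonneg_left (kp_le_eta ht.2) (kp_pos ht.2).le]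
  have te : Tendsto (fun k => (ellE k (ph M k) - k * sin (ph M k)) / eta k) (𝓝[<] 1) (𝓝 0) := by
    have t1 := tF.mul (tD.mul tPe)
    simp only [mul_zero] at t1
    refine tendsto_of_tendsto_of_tendsto_of_le_of_le' tendsto_const_nhds t1 ?_ ?_
    · filter_upwards [ev_good, ev_curve hM] with t ht ht'
        using div_nonneg (e1_nonneg ht.2 (ph_mem hM ht').1.le) (eta_pos ht.2).le
    · filter_upwards [ev_good, ev_curve hM] with t ht ht'
      rw [← mul_div_assoc, ← mul_div_assoc]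
      exact div_le_div_of_nonneg_right (e1_le ht.1 ht.2 (Ioo_subset_Icc_self (ph_mem hM ht')))
        (eta_pos ht.2).le
  have tZ : Tendsto (fun k => Zeta k (ph M k)) (𝓝[<] 1) (𝓝 s) := by
    have t1 := (tendsto_one.mul ts).add (tendsto_eta.mul (te.sub tF))
    simp only [one_mul, zero_mul, add_zero] at t1
    refine t1.congr' ?_
    filter_upwards [ev_good] with t ht
    have := (eta_pos ht.2).ne'
    simp only [Function.comp, Zeta]
    field_simp
    ring
  have tx : Tendsto (fun k => xx k (ph M k)) (𝓝[<] 1) (𝓝 (s * s)) := ts.mul tZ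
  have tm : Tendsto (fun k => mm k (ph M k)) (𝓝[<] 1) (𝓝 (C * C)) := tC.mul tD
  have th : Tendsto (fun k => hh k (ph M k)) (𝓝[<] 1) (𝓝 (1 * s ^ 2)) :=
    tendsto_one.mul (ts.pow 2)
  refine ⟨by rwa [← sq, h4] at tx, ?_, ?_⟩
  · have := ((th.pow 2).sub ((tm.const_mul 2).mul tx)).add ((tx.pow 2).const_mul 2)
    simp only [coeffVal_eq, c2]
    convert this using 2
    rw [← sq s, ← sq C, h4, h3]; ring
  have hden : 0 < s - C ^ 2 * ath s := by
    have := ath_lt hs hs1
    rw [h3]; rw [h4] at this; linarith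
  have tA := ts.mul (tF.sub te)
  have tN := ((ts.pow 2).sub (tm.mul tA)).sub (((ts.pow 2).mul tD).mul tPe)
  have hden' : s ^ 2 - C * C * (s * (ath s - 0)) - s ^ 2 * C * 0 ≠ 0 := by
    have := mul_pos hs hden
    intro h; linarith
  have tl := (tx.const_mul 4).sub ((tm.const_mul 2).add
    (((((ts.pow 2).mul (tQ.pow 2)).mul tA).sub
      ((((ts.pow 2).mul tP).mul tPe).mul (th.add tx))).div tN hden'))
  refine ⟨2 / (M ^ 2 * (s - C ^ 2 * ath s)), by positivity, ?_⟩
  have e1 : √(M * (M - 1)) = M * s := by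
    rw [← sqrt_sq (show 0 ≤ M * s by positivity), mul_pow, h4]
    congr 1; field_simp
  have e2 : log (√M + √(M - 1)) = ath s := by
    have hr : 0 < √M := sqrt_pos.2 hM0
    have e3 : √(M - 1) = √M * s := by
      rw [← sqrt_sq (show 0 ≤ √M * s by positivity), mul_pow, h4, sq_sqrt hM0.le]
      congr 1; field_simp
    have h5 : 0 < 1 - s := by nlinarith
    have e4 : log (1 + s) + log (1 - s) = -log M := by
      rw [← log_mul (by positivity) h5.ne', ← log_inv]
      congr 1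
      rw [← one_div]; linarith
    rw [e3, show √M + √M * s = √M * (1 + s) by ring, log_mul hr.ne' (by positivity),
      log_sqrt hM0.le, ath]
    linarith
  have e3 : 2 / (M ^ 2 * (s - C ^ 2 * ath s)) * GM M = 4 * (s * s) - (2 * (C * C) +
      (s ^ 2 * (C + 1 * C) ^ 2 * (s * (ath s - 0)) - s ^ 2 * (C - 1 * C) * 0 * (1 * s ^ 2 + s * s))
        / (s ^ 2 - C * C * (s * (ath s - 0)) - s ^ 2 * C * 0)) := by
    rw [GM, e1, e2]
    have h5 : M * C ^ 2 = 1 := by rw [h3]; field_simp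
    have h6 : s ^ 2 + C ^ 2 = 1 := by rw [h3, h4]; ring
    have h7 : s ^ 2 - C * C * (s * (ath s - 0)) - s ^ 2 * C * 0 = s * (s - C ^ 2 * ath s) := by ring
    rw [h7]
    have := hden.ne'
    field_simp
    grind
  rw [e3]
  refine tl.congr' ?_
  filter_upwards [ev_good] with t ht
  have h5 := (eta_pos ht.2).ne'
  have e4 : sin (ph M t) * (ellF t (ph M t) - (ellE t (ph M t) - t * sin (ph M t)) / eta t)
      = (hh t (ph M t) - xx t (ph M t)) / eta t := by
    unfold hh xx Zeta; field_simp; ring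
  have e5 : sin (ph M t) ^ 2 - mm t (ph M t) * ((hh t (ph M t) - xx t (ph M t)) / eta t)
      - sin (ph M t) ^ 2 * Dl t (ph M t) * ((Dl t (ph M t) - t * cos (ph M t)) / eta t)
      = NN t (ph M t) / eta t := by
    unfold NN hh mm; field_simp; ring
  simp only [Function.comp, Pi.div_apply, DD, lam]
  rw [e4, e5, alpha_eq ht.2, beta_eq ht.2]
  congr 2
  rw [← div_div_div_cancel_right₀ h5 _ (NN t (ph M t))]
  congr 1
  ring

end Pool.Agent.Lib.MP_03314f_an
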