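import Mathlib
import Pool.Agent.Lib.MP_03314f_an.Sqrt

/-! The bound for the second coefficient. -/

namespace Pool.Agent.Lib.MP_03314f_an

open Metric Set Filter Topology Complex intervalIntegral
open scoped Real

theorem one_add_ci (θ : ℝ) : 1 + ci θ = ((2 * Real.cos (θ / 2) : ℝ) : ℂ) * ci (θ / 2) := by
  have h : ((Real.sin (θ / 2) : ℝ) : ℂ) ^ 2 + ((Real.cos (θ / 2) : ℝ) : ℂ) ^ 2 = 1 := by
    exact_mod_cast Real.sin_sq_add_cos_sq (θ / 2)
  rw [← ci_half θ, ci_eq (θ / 2), ofReal_mul]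
  generalize ((Real.sin (θ / 2) : ℝ) : ℂ) = s at h ⊢
  generalize ((Real.cos (θ / 2) : ℝ) : ℂ) = c at h ⊢
  push_cast
  linear_combination (-1 : ℂ) * h + s ^ 2 * I_sq

theorem one_sub_ci (θ : ℝ) :
    1 - ci θ = ((2 * Real.sin (θ / 2) : ℝ) : ℂ) * (-I * ci (θ / 2)) := by
  have h : ((Real.sin (θ / 2) : ℝ) : ℂ) ^ 2 + ((Real.cos (θ / 2) : ℝ) : ℂ) ^ 2 = 1 := by
    exact_mod_cast Real.sin_sq_add_cos_sq (θ / 2)
  rw [← ci_half θ, ci_eq (θ / 2), ofReal_mul]
  generalize ((Real.sin (θ / 2) : ℝ) : ℂ) = s at h ⊢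
  generalize ((Real.cos (θ / 2) : ℝ) : ℂ) = c at h ⊢
  push_cast
  linear_combination (-1 : ℂ) * h + s ^ 2 * I_sq

theorem pick_bound {M : ℝ} (hM : 1 < M) {g : ℂ → ℂ} (hg : GClass (Real.log M) g) :
    (deriv g 0).re ≤ 2 - 2 / M := by
  set b : ℝ := 1 - 2 / M with hb
  have hM0 : 0 < M := by linarith
  have hb1 : b < 1 := by rw [hb]; linarith [div_pos two_pos hM0]
  have hb2 : -1 < b := by
    have : 2 / M < 2 := by rw [div_lt_iff₀ hM0]; linarith
    rw [hb]; linarith
  have hbb : b ^ 2 < 1 := by nlinarith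
  let u : ℂ → ℂ := fun z => (1 - z + Sq b z) / 2
  have hu : ∀ z ∈ closedBall (0 : ℂ) 1, 0 < (u z).re := by
    intro z hz
    have h1 := Sq_re_nonneg b z
    have h2 : z.re ≤ 1 := (re_le_norm z).trans (mem_closedBall_zero_iff.1 hz)
    have e : (u z).re = (1 - z.re + (Sq b z).re) / 2 := by simp [u]
    rw [e]
    rcases eq_or_lt_of_le h2 with h | h
    · have h3 := sq_add_sq_norm z
      have h4 := mem_closedBall_zero_iff.1 hz
      have h5 : z.im = 0 := by nlinarith [norm_nonneg z]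
      have h6 : z = ci 0 := by apply Complex.ext <;> simp [ci, h, h5]
      have h7 := Sq_ci_ge hbb (θ := 0) ⟨le_rfl, Real.pi_pos.le⟩ (by simpa using hb1.le)
      rw [h6, h7, re_ofReal_mul, ci_re, ci_re]
      simp only [Real.cos_zero, zero_div]
      have := Real.sqrt_pos.2 (show 0 < 2 * (1 - b) by linarith)
      linarith
    · linarith
  have huc : ContinuousOn u (closedBall 0 1) :=
    ((continuousOn_const.sub continuousOn_id).add (continuousOn_Sq hbb)).div_const _
  have hud : ∀ z ∈ ball (0 : ℂ) 1, HasDerivAt u ((-1 + (z - b) / Sq b z) / 2) z := fun z hz =>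
    (((hasDerivAt_id z).const_sub 1).add (hasDerivAt_Sq hbb hz)).div_const 2
  let G : ℂ → ℂ := fun z => -2 * log (u z)
  have hGd : ∀ z ∈ ball (0 : ℂ) 1,
      HasDerivAt G (-2 * ((-1 + (z - b) / Sq b z) / 2 / u z)) z := fun z hz =>
    ((hud z hz).clog (Or.inl (hu z (ball_subset_closedBall hz)))).const_mul _
  have hG : DiffContOnCl ℂ G (ball 0 1) :=
    diffContOnCl_of (fun z hz => (hGd z hz).differentiableAt.differentiableWithinAt)
      (continuousOn_const.mul (huc.clog fun z hz => Or.inl (hu z hz)))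
  have hu0 : u 0 = 1 := by simp [u, Sq_zero]
  let H : ℂ → ℂ := fun z => z * ((1 + z) * Sq b z)
  have hH : DiffContOnCl ℂ H (ball 0 1) :=
    diffContOnCl_of (differentiableOn_id.mul
      ((differentiableOn_id.const_add 1).mul (differentiableOn_Sq hbb)))
      (continuousOn_id.mul ((continuousOn_const.add continuousOn_id).mul (continuousOn_Sq hbb)))
  have h00 : (0 : ℂ) ∈ ball (0 : ℂ) 1 := mem_ball_self one_pos
  have hH1 : deriv H 0 = 1 := by
    have := (hasDerivAt_id (0 : ℂ)).mul (((hasDerivAt_id (0 : ℂ)).const_add 1).mul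
      (hasDerivAt_Sq hbb h00))
    refine (HasDerivAt.deriv this).trans ?_
    simp [Sq_zero]
  have hcos : ∀ θ ∈ Icc 0 π, 0 ≤ Real.cos (θ / 2) := fun θ hθ =>
    Real.cos_nonneg_of_mem_Icc ⟨by linarith [hθ.1, Real.pi_pos], by linarith [hθ.2]⟩
  have hsin : ∀ θ ∈ Icc 0 π, 0 ≤ Real.sin (θ / 2) := fun θ hθ =>
    Real.sin_nonneg_of_nonneg_of_le_pi (by linarith [hθ.1]) (by linarith [hθ.2, Real.pi_pos])
  have hψ1 : ∀ θ ∈ Icc 0 π, b ≤ Real.cos θ →
      psiH H θ = ((2 * Real.cos (θ / 2) * √(2 * (Real.cos θ - b)) : ℝ) : ℂ) := by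
    intro θ hθ h
    simp only [psiH, H]
    rw [one_add_ci, Sq_ci_ge hbb hθ h, div_eq_iff (pow_ne_zero _ (ci_ne θ)), ← ci_half θ,
      ofReal_mul (2 * _)]
    ring
  have hψ2 : ∀ θ ∈ Icc 0 π, Real.cos θ ≤ b →
      psiH H θ = ((2 * Real.cos (θ / 2) * √(2 * (b - Real.cos θ)) : ℝ) : ℂ) * -I := by
    intro θ hθ h
    simp only [psiH, H]
    rw [one_add_ci, Sq_ci_le hbb hθ h, div_eq_iff (pow_ne_zero _ (ci_ne θ)), ← ci_half θ,
      ofReal_mul (2 * _)]
    ring
  have key := certificate (Λ := Real.log M) (κ := π) hg hG (by simp [G, hu0]) hH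
    (fun θ => by
      simp only [H]
      rw [ci_neg, Sq_conj hbb (ci_mem θ)]; simp)
    (fun θ => by
      have h1 : u (ci (-θ)) = (starRingEnd ℂ) (u (ci θ)) := by
        simp only [u]
        rw [ci_neg, Sq_conj hbb (ci_mem θ)]; simp [map_ofNat]
      simp only [G]
      rw [h1, log_conj _ (by
        rw [Ne, arg_eq_pi_iff]; exact fun h => (hu _ (ci_mem θ)).not_gt h.1)]
      simp [map_ofNat])
    (fun θ hθ => by
      rcases le_total b (Real.cos θ) with h | h
      · rw [hψ1 θ hθ h, ofReal_re]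
        have := hcos θ hθ
        positivity
      · rw [hψ2 θ hθ h, re_ofReal_mul]; simp)
    (fun θ hθ => by
      rcases le_total b (Real.cos θ) with h | h
      · have h1 : normSq (u (ci θ)) = 1 / M := by
          simp only [u]
          rw [one_sub_ci, Sq_ci_ge hbb hθ h]
          have e : (((2 * Real.sin (θ / 2) : ℝ) : ℂ) * (-I * ci (θ / 2))
              + (√(2 * (Real.cos θ - b)) : ℝ) * ci (θ / 2)) / 2
              = ((√(2 * (Real.cos θ - b)) / 2 : ℝ) + (-Real.sin (θ / 2) : ℝ) * I) * ci (θ / 2) := by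
            push_cast; ring
          rw [e, normSq_mul, normSq_add_mul_I, normSq_eq_norm_sq, norm_ci, div_pow,
            Real.sq_sqrt (by linarith), neg_sq, Real.sin_sq_eq_half_sub, hb,
            show 2 * (θ / 2) = θ by ring]
          ring
        have h2 : (G (ci θ)).re = Real.log M := by
          have : (G (ci θ)).re = -Real.log (‖u (ci θ)‖ ^ 2) := by
            simp [G, log_re]
          rw [this, ← normSq_eq_norm_sq, h1, one_div, Real.log_inv, neg_neg]
        rw [h2, sub_self, zero_mul]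
      · rw [hψ2 θ hθ h, re_ofReal_mul]; simp)
    (fun θ hθ => by
      rcases le_total b (Real.cos θ) with h | h
      · rw [hψ1 θ hθ h, ofReal_im, mul_zero]
      · have e : u (ci θ) = ((Real.sin (θ / 2) + √(2 * (b - Real.cos θ)) / 2 : ℝ) : ℂ)
            * exp (((θ / 2 - π / 2 : ℝ) : ℂ) * I) := by
          simp only [u]
          rw [one_sub_ci, Sq_ci_le hbb hθ h]
          have : exp (((θ / 2 - π / 2 : ℝ) : ℂ) * I) = -I * ci (θ / 2) := by
            rw [ci, ← exp_neg_pi_div_two_mul_I, ← exp_add]; congr 1; push_cast; ring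
          rw [this]; push_cast; ring
        have hpos : 0 < Real.sin (θ / 2) + √(2 * (b - Real.cos θ)) / 2 := by
          have h1 := hu _ (ci_mem θ)
          rcases eq_or_lt_of_le (show 0 ≤ Real.sin (θ / 2) + √(2 * (b - Real.cos θ)) / 2 by
            have := hsin θ hθ; positivity) with h2 | h2
          · rw [e, ← h2] at h1; simp at h1
          · exact h2
        have h2 : (G (ci θ)).im = π - θ := by
          have : (G (ci θ)).im = -2 * arg (u (ci θ)) := by simp [G, log_im]
          rw [this, e, exp_mul_I, arg_mul_cos_add_sin_mul_I hpos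
            ⟨by linarith [hθ.1, Real.pi_pos], by linarith [hθ.2, Real.pi_pos]⟩]
          ring
        rw [h2]; ring)
    (fun θ hθ => by
      apply integral_nonneg hθ.1
      intro t ht
      have ht' : t ∈ Icc 0 π := ⟨ht.1, ht.2.trans hθ.2⟩
      rcases le_total b (Real.cos t) with h | h
      · rw [hψ1 t ht' h, ofReal_im, neg_zero]
      · rw [hψ2 t ht' h, im_ofReal_mul]
        have := hcos t ht'
        simp only [neg_im, I_im, mul_neg, mul_one, neg_neg]
        positivity)
    (by simp)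
  have hG1 : deriv G 0 = ((2 - 2 / M : ℝ) : ℂ) := by
    rw [(hGd 0 h00).deriv, hu0, Sq_zero, hb]; push_cast; ring
  simpa [lin, H, hH1, hG1] using key

end Pool.Agent.Lib.MP_03314f_an
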