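import Mathlib
import Pool.Agent.Lib.MP_03314f_an.Limit
import Pool.Agent.Lib.MP_03314f_an.Pick

/-! The three regimes. -/

namespace Pool.Agent.Lib.MP_03314f_an

open Set Filter Topology Real Metric

variable {M k φ : ℝ}

theorem GClass.rot {L : ℝ} {g : ℂ → ℂ} (hg : GClass L g) {c : ℂ} (hc : ‖c‖ = 1) :
    GClass L fun z => g (c * z) := by
  have hmem : ∀ z ∈ ball (0 : ℂ) 1, c * z ∈ ball (0 : ℂ) 1 := by
    intro z hz
    rwa [mem_ball_zero_iff, norm_mul, hc, one_mul, ← mem_ball_zero_iff]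
  refine ⟨hg.diff.comp (by fun_prop) hmem, by simp [hg.zero], fun z hz => hg.le _ (hmem z hz),
    fun z hz => ?_⟩
  have h1 := (hasDerivAt_of_diffOn hg.diff (hmem z hz)).comp z ((hasDerivAt_id z).const_mul c)
  have h2 : deriv (fun z => g (c * z)) z = deriv g (c * z) * (c * 1) := h1.deriv
  have h3 := hg.pos _ (hmem z hz)
  rw [h2]
  convert h3 using 3
  ring

theorem GClass.smul {L τ : ℝ} {g : ℂ → ℂ} (hg : GClass L g) (h0 : 0 ≤ τ) (h1 : τ ≤ 1) :
    GClass (τ * L) fun z => τ * g z := by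
  refine ⟨hg.diff.const_mul _, by simp [hg.zero], fun z hz => ?_, fun z hz => ?_⟩
  · rw [Complex.re_ofReal_mul]; exact mul_le_mul_of_nonneg_left (hg.le z hz) h0
  · rw [deriv_const_mul_field]
    have h2 := hg.pos z hz
    have e : 1 + z * (τ * deriv g z) = ((1 - τ : ℝ) : ℂ) + τ * (1 + z * deriv g z) := by
      push_cast; ring
    rw [e, Complex.add_re, Complex.ofReal_re, Complex.re_ofReal_mul]
    linarith [mul_nonneg h0 h2]

theorem GClass.mono {L L' : ℝ} {g : ℂ → ℂ} (hg : GClass L g) (h : L ≤ L') : GClass L' g :=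
  ⟨hg.diff, hg.zero, fun z hz => (hg.le z hz).trans h, hg.pos⟩

theorem gclass_le (hM : 1 < M) {B : ℝ} (hB : ∀ k ∈ Ico (kM M) 1, coeffVal k (ph M k) ≤ B)
    {g : ℂ → ℂ} (hg : GClass (log M) g) :
    ‖iteratedDeriv 2 g 0 / 2 + deriv g 0 ^ 2 / 2‖ ≤ B := by
  have hM0 : 0 < M := by linarith
  have key : ∀ g, GClass (log M) g → 0 ≤ (deriv g 0).re →
      (iteratedDeriv 2 g 0 / 2).re + (deriv g 0).re ^ 2 / 2 ≤ B := by
    intro g hg h0
    have hp := pick_bound hM hg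
    have hc : Continuous fun τ : ℝ =>
        τ * (iteratedDeriv 2 g 0 / 2).re + (τ * (deriv g 0).re) ^ 2 / 2 := by fun_prop
    have h1 := (hc.tendsto 1).mono_left (nhdsWithin_le_nhds (s := Iio 1))
    simp only [one_mul] at h1
    refine le_of_tendsto h1 ?_
    filter_upwards [Ioo_mem_nhdsLT (zero_lt_one' ℝ)] with τ hτ
    have hgτ := (hg.smul hτ.1.le hτ.2.le).mono
      (mul_le_of_le_one_left (log_pos hM).le hτ.2.le)
    have hlt : τ * (deriv g 0).re / 2 < 1 - 1 / M := by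
      have h2 : 0 < 1 - 1 / M := by rw [sub_pos, div_lt_one hM0]; exact hM
      have h3 := mul_le_mul_of_nonneg_left hp hτ.1.le
      have h4 := mul_pos (sub_pos.2 hτ.2) h2
      have e : 2 / M = 2 * (1 / M) := by ring
      rw [e] at h3
      linarith
    obtain ⟨k₁, h2, h3⟩ := (((limits hM).1.eventually (lt_mem_nhds hlt)).and (ev_curve hM)).exists
    have hsub : Icc (kM M) k₁ ⊆ Ico (kM M) 1 := fun t ht => ⟨ht.1, ht.2.trans_lt h3.2⟩
    obtain ⟨hk0, hk1⟩ := k_good hM ⟨le_rfl, kM_lt_one hM⟩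
    obtain ⟨k, hk, he⟩ := intermediate_value_Icc h3.1.le ((continuousOn_xx hM).mono hsub)
      (show τ * (deriv g 0).re / 2 ∈ _ from ⟨by
        simp only [ph_kM hM, (at_half hk0 hk1).1]
        have := hτ.1
        positivity, h2.le⟩)
    have hk' := hsub hk
    have h4 := fam_cert (k_good hM hk').1 (k_good hM hk').2 (ph_mem_pi hM hk') hgτ
    rw [Lam_eq (k_good hM hk').1 (k_good hM hk').2 (ph_mem_pi hM hk'), (ph_spec hM hk').2,
      iteratedDeriv_const_mul_field, deriv_const_mul_field, mul_div_assoc,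
      Complex.re_ofReal_mul, Complex.re_ofReal_mul] at h4
    have h5 := hB k hk'
    simp only at he
    rw [coeffVal_eq] at h5
    rw [he] at h4 h5
    linarith
  set a := iteratedDeriv 2 g 0 / 2 + deriv g 0 ^ 2 / 2 with ha
  have key2 : ∀ c : ℂ, ‖c‖ = 1 → c ^ 2 * a = ‖a‖ → 0 ≤ (c * deriv g 0).re → ‖a‖ ≤ B := by
    intro c hc h1 h2
    obtain ⟨e1, e2⟩ := lin_scale c hg.diff hc.le
    have h3 := key _ (hg.rot hc) (by rwa [e1])
    rw [e1, e2] at h3
    have h4 := congrArg Complex.re h1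
    have e3 : c ^ 2 * a = c ^ 2 * iteratedDeriv 2 g 0 / 2
        + ((1 / 2 : ℝ) : ℂ) * ((c * deriv g 0) * (c * deriv g 0)) := by
      rw [ha]; push_cast; ring
    rw [e3, Complex.add_re, Complex.ofReal_re, Complex.re_ofReal_mul, Complex.mul_re] at h4
    linarith [mul_self_nonneg (c * deriv g 0).im]
  have hc : ci (-Complex.arg a / 2) ^ 2 * a = ‖a‖ := by
    rw [ci_half]
    nth_rewrite 2 [← Complex.norm_mul_exp_arg_mul_I a]
    rw [ci, mul_left_comm, ← Complex.exp_add]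
    simp
  rcases le_total 0 (ci (-Complex.arg a / 2) * deriv g 0).re with h | h
  · exact key2 _ (norm_ci _) hc h
  · exact key2 (-ci (-Complex.arg a / 2)) (by rw [norm_neg, norm_ci]) (by rw [neg_sq, hc])
      (by rw [neg_mul, Complex.neg_re]; linarith)

theorem upper_iff (hM : 1 < M) {B : ℝ} :
    B ∈ upperBounds (coeffSet M) ↔ ∀ k ∈ Ico (kM M) 1, coeffVal k (ph M k) ≤ B := by
  constructor
  · intro h k hk
    have := fam_mem (k_good hM hk).1 (k_good hM hk).2 (ph_mem_pi hM hk)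
    rw [Lam_eq (k_good hM hk).1 (k_good hM hk).2 (ph_mem_pi hM hk), (ph_spec hM hk).2,
      exp_log (by linarith)] at this
    exact (le_abs_self _).trans (h this)
  · rintro h t ⟨f, hf, rfl⟩
    obtain ⟨g, hg, he⟩ := exists_GClass hf
    rw [a3_formula hg.diff hg.zero he]
    exact gclass_le hM h hg

theorem isLUB_of_max (hM : 1 < M) {r : ℝ} (hr : r ∈ Ico (kM M) 1)
    (h : ∀ k ∈ Ico (kM M) 1, coeffVal k (ph M k) ≤ coeffVal r (ph M r)) :
    IsLUB (coeffSet M) (coeffVal r (ph M r)) :=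
  ⟨(upper_iff hM).2 h, fun _ hB => (upper_iff hM).1 hB r hr⟩

noncomputable def g0 (M : ℝ) : ℝ := eta (kM M) - (kM M + 1 / M) / M

theorem kp_kM (hM : 1 < M) : √(1 - kM M ^ 2) = 1 / M := by
  rw [kM_sq hM, sub_sub_cancel, ← one_div_pow, sqrt_sq (by positivity)]

theorem start (hM : 1 < M) : DD (kM M) (ph M (kM M)) = 0 ∧
    coeffVal (kM M) (ph M (kM M)) = 1 - 1 / M ^ 2 ∧
    (g0 M < 0 → 4 < KK (kM M) (ph M (kM M))) ∧ (0 < g0 M → KK (kM M) (ph M (kM M)) < 4) := by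
  obtain ⟨hk0, hk1⟩ := k_good hM ⟨le_rfl, kM_lt_one hM⟩
  obtain ⟨-, h1, h2, -, h3, h4⟩ := at_half hk0 hk1
  rw [ph_kM hM, h1, h2, h3, kp_kM hM]
  have e : g0 M = eta (kM M) - (1 - kM M ^ 2) - kM M * (1 / M) := by rw [g0, kM_sq hM]; ring
  have hp : 0 < kM M * (1 / M) := by positivity
  refine ⟨rfl, kM_sq hM, fun h => ?_, fun h => ?_⟩
  · have : 1 < kM M * (1 / M) / (eta (kM M) - (1 - kM M ^ 2)) := by
      rw [one_lt_div h4]; linarith
    nlinarith
  · have : kM M * (1 / M) / (eta (kM M) - (1 - kM M ^ 2)) < 1 := by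
      rw [div_lt_one h4]; linarith
    nlinarith [div_pos hp h4]

theorem regime1 (hM : 125 / 46 ≤ M) (h : g0 M < 0) : IsLUB (coeffSet M) (1 - 1 / M ^ 2) := by
  have hM1 : 1 < M := by linarith
  obtain ⟨K', v, hs, hF⟩ := sys hM
  obtain ⟨h1, h2, h3, -⟩ := start hM1
  have ha : kM M ∈ Ico (kM M) 1 := ⟨le_rfl, kM_lt_one hM1⟩
  have h4 := hs.persist ha h1.le (h3 h)
  rw [← h2]
  refine isLUB_of_max hM1 ha fun k hk => ge_of_deriv_nonpos hk.1
    ((continuousOn_coeffVal hM1).mono fun t ht => ⟨ht.1, ht.2.trans_lt hk.2⟩)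
    (fun t ht => hF t ⟨ht.1, ht.2.trans hk.2⟩) fun t ht => mul_nonpos_of_nonpos_of_nonneg ?_
      (hs.pos t ⟨ht.1, ht.2.trans hk.2⟩).le
  exact (h4 ha ⟨ht.1.le, ht.2.trans hk.2⟩ ht.1).le.trans h1.le

theorem regime3 (hM : 125 / 46 ≤ M) (h : 0 < g0 M) (hG : 0 ≤ GM M) :
    IsLUB (coeffSet M) (3 - 8 / M + 5 / M ^ 2) := by
  have hM1 : 1 < M := by linarith
  obtain ⟨K', v, hs, hF⟩ := sys hM
  obtain ⟨h1, -, -, h3⟩ := start hM1
  obtain ⟨-, l2, c, hc, l3⟩ := limits hM1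
  rcases hs.cases (kM_lt_one hM1) h1 (h3 h) with hp | ⟨r, hr, h4, -, h5⟩
  · refine ⟨(upper_iff hM1).2 fun k hk => ge_of_tendsto l2 ?_, fun B hB => le_of_tendsto l2 ?_⟩
    · filter_upwards [Ioo_mem_nhdsLT hk.2] with s hs'
      exact le_of_deriv_nonneg hs'.1.le
        ((continuousOn_coeffVal hM1).mono fun t ht => ⟨hk.1.trans ht.1, ht.2.trans_lt hs'.2⟩)
        (fun t ht => hF t ⟨hk.1.trans_lt ht.1, ht.2.trans hs'.2⟩) fun t ht => mul_nonneg
          (hp t ⟨hk.1.trans_lt ht.1, ht.2.trans hs'.2⟩).le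
          (hs.pos t ⟨hk.1.trans_lt ht.1, ht.2.trans hs'.2⟩).le
    · filter_upwards [ev_curve hM1] with s hs'
      exact (upper_iff hM1).1 hB s (Ioo_subset_Ico_self hs')
  · exact absurd (lim_neg hr.2 h4.le h5 l3) (mul_nonneg hc.le hG).not_gt

theorem regime2 (hM : 125 / 46 ≤ M) (h : 0 < g0 M) (hG : GM M < 0) :
    ∃ r ∈ Ioo (kM M) 1, (∀ t ∈ Ioo (kM M) 1, DD t (ph M t) = 0 ↔ t = r) ∧
      IsLUB (coeffSet M) (coeffVal r (ph M r)) := by
  have hM1 : 1 < M := by linarith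
  obtain ⟨K', v, hs, hF⟩ := sys hM
  obtain ⟨h1, -, -, h3⟩ := start hM1
  obtain ⟨-, -, c, hc, l3⟩ := limits hM1
  rcases hs.cases (kM_lt_one hM1) h1 (h3 h) with hp | ⟨r, hr, h4, h5, h6⟩
  · refine absurd (ge_of_tendsto l3 ?_) (mul_neg_of_pos_of_neg hc hG).not_ge
    filter_upwards [ev_curve hM1] with s hs' using (hp s hs').le
  have h7 : ∀ t ∈ Ioo r 1, DD t (ph M t) < 0 := fun t ht =>
    (h6 ⟨le_rfl, hr.2⟩ (Ioo_subset_Ico_self ht) ht.1).trans_eq h4
  refine ⟨r, hr, fun t ht => ⟨fun h0 => ?_, fun h0 => h0 ▸ h4⟩,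
    isLUB_of_max hM1 (Ioo_subset_Ico_self hr) fun k hk => ?_⟩
  · rcases lt_trichotomy t r with h' | h' | h'
    · exact absurd h0 (h5 t ⟨ht.1, h'⟩).ne'
    · exact h'
    · exact absurd h0 (h7 t ⟨h', ht.2⟩).ne
  · rcases le_total k r with h' | h'
    · exact le_of_deriv_nonneg h'
        ((continuousOn_coeffVal hM1).mono fun t ht => ⟨hk.1.trans ht.1, ht.2.trans_lt hr.2⟩)
        (fun t ht => hF t ⟨hk.1.trans_lt ht.1, ht.2.trans hr.2⟩) fun t ht => mul_nonneg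
          (h5 t ⟨hk.1.trans_lt ht.1, ht.2⟩).le
          (hs.pos t ⟨hk.1.trans_lt ht.1, ht.2.trans hr.2⟩).le
    · exact ge_of_deriv_nonpos h'
        ((continuousOn_coeffVal hM1).mono fun t ht => ⟨hr.1.le.trans ht.1, ht.2.trans_lt hk.2⟩)
        (fun t ht => hF t ⟨hr.1.trans ht.1, ht.2.trans hk.2⟩) fun t ht =>
          mul_nonpos_of_nonpos_of_nonneg (h7 t ⟨ht.1, ht.2.trans hk.2⟩).le
          (hs.pos t ⟨hr.1.trans ht.1, ht.2.trans hk.2⟩).le

theorem regime1_end (hM : 125 / 46 < M) (h : ∀ N, 125 / 46 ≤ N → N < M → g0 N < 0) :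
    IsLUB (coeffSet M) (1 - 1 / M ^ 2) := by
  have hM1 : 1 < M := by linarith
  refine ⟨?_, fun B hB => ?_⟩
  · rintro t ⟨f, hf, rfl⟩
    obtain ⟨g, hg, he⟩ := exists_GClass hf
    rw [a3_formula hg.diff hg.zero he]
    have c1 : Continuous fun τ : ℝ =>
        ‖τ * iteratedDeriv 2 g 0 / 2 + (τ * deriv g 0) ^ 2 / 2‖ := by fun_prop
    have c2 : Continuous fun τ : ℝ => exp (τ * log M) := by fun_prop
    have t1 := (c1.tendsto 1).mono_left (nhdsWithin_le_nhds (s := Iio 1))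
    have t2 := (c2.tendsto 1).mono_left (nhdsWithin_le_nhds (s := Iio 1))
    simp only [Complex.ofReal_one, one_mul, exp_log (show 0 < M by linarith)] at t1 t2
    refine le_of_tendsto_of_tendsto t1
      ((tendsto_const_nhds.div (t2.pow 2) (by positivity)).const_sub 1) ?_
    filter_upwards [Ioo_mem_nhdsLT (zero_lt_one' ℝ), t2.eventually (lt_mem_nhds hM)] with τ hτ h1
    have h2 : exp (τ * log M) < M := by
      rw [← lt_log_iff_exp_lt (by linarith)]
      exact mul_lt_of_lt_one_left (log_pos hM1) hτ.2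
    have h3 := gclass_le (M := exp (τ * log M)) (by linarith)
      ((upper_iff (by linarith)).1 (regime1 h1.le (h _ h1.le h2)).1)
      (by rw [log_exp]; exact hg.smul hτ.1.le hτ.2.le)
    rwa [iteratedDeriv_const_mul_field, deriv_const_mul_field] at h3
  · rw [← (start hM1).2.1]
    exact (upper_iff hM1).1 hB _ ⟨le_rfl, kM_lt_one hM1⟩

theorem crossing {f f' : ℝ → ℝ} {a b : ℝ} (hab : a < b) (hd : ∀ x ∈ Icc a b, HasDerivAt f (f' x) x)
    (h : ∀ x ∈ Icc a b, f x = 0 → 0 < f' x) (ha : 0 ≤ f a) : 0 < f b := by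
  have hc : ContinuousOn f (Icc a b) := fun x hx => (hd x hx).continuousAt.continuousWithinAt
  obtain ⟨a', h1, h2⟩ : ∃ a' ∈ Ico a b, 0 < f a' := by
    rcases eq_or_lt_of_le ha with h0 | h0
    · have := eventually_lt_of_deriv_neg (hd a ⟨le_rfl, hab.le⟩).neg
        (neg_lt_zero.2 (h a ⟨le_rfl, hab.le⟩ h0.symm))
      obtain ⟨x, h3, h4⟩ := (this.and (Ioo_mem_nhdsGT hab)).exists
      simp only [Pi.neg_apply, neg_lt_neg_iff] at h3
      exact ⟨x, Ioo_subset_Ico_self h4, h0.trans_lt h3⟩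
    · exact ⟨a, ⟨le_rfl, hab⟩, h0⟩
  by_contra hn
  obtain ⟨r, hr, h3, h4⟩ := exists_first h1.2.le (hc.mono (Icc_subset_Icc_left h1.1)) (not_lt.1 hn)
  have hr' : r ∈ Icc a b := ⟨h1.1.trans hr.1, hr.2⟩
  have h5 : a' < r := lt_of_le_of_ne hr.1 (by rintro rfl; linarith)
  have h6 : f r = 0 := by
    refine le_antisymm h3 (ge_of_tendsto
      ((hd r hr').continuousAt.tendsto.mono_left (nhdsWithin_le_nhds (s := Iio r))) ?_)
    filter_upwards [Ioo_mem_nhdsLT h5] with s hs using (h4 s (Ioo_subset_Ico_self hs)).le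
  have := eventually_gt_of_deriv_neg (hd r hr').neg (neg_lt_zero.2 (h r hr' h6))
  obtain ⟨x, h7, h8⟩ := (this.and (Ioo_mem_nhdsLT h5)).exists
  simp only [Pi.neg_apply, neg_lt_neg_iff] at h7
  linarith [h4 x (Ioo_subset_Ico_self h8)]

theorem threshold {f f' : ℝ → ℝ} {a u v : ℝ} (hau : a ≤ u) (huv : u ≤ v)
    (hd : ∀ x, a ≤ x → HasDerivAt f (f' x) x) (h : ∀ x, a ≤ x → f x = 0 → 0 < f' x)
    (hu : f u < 0) (hv : 0 < f v) :
    ∃ r ∈ Ioo u v, f r = 0 ∧ (∀ x, a ≤ x → x < r → f x < 0) ∧ ∀ x, r < x → 0 < f x := by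
  obtain ⟨r, hr, h0⟩ := intermediate_value_Ioo huv
    (fun x hx => (hd x (hau.trans hx.1)).continuousAt.continuousWithinAt) ⟨hu, hv⟩
  refine ⟨r, hr, h0, fun x hx hxr => ?_, fun x hx => ?_⟩
  · by_contra hn
    exact (crossing hxr (fun y hy => hd y (hx.trans hy.1)) (fun y hy => h y (hx.trans hy.1))
      (not_lt.1 hn)).ne' h0
  · have har : a ≤ r := hau.trans hr.1.le
    exact crossing hx (fun y hy => hd y (har.trans hy.1)) (fun y hy => h y (har.trans hy.1)) h0.ge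

theorem exists_M0 : ∃ r ∈ Ioo (exp 1) (13 / 4), g0 r = 0 ∧
    (∀ x, 125 / 46 ≤ x → x < r → g0 x < 0) ∧ ∀ x, r < x → 0 < g0 x := by
  have he1 := exp_one_gt_d9
  have he2 := exp_one_lt_d9
  have hd : ∀ x, 125 / 46 ≤ x → HasDerivAt g0
      ((2 * eta (kM x) - 1 - eta (kM x) ^ 2 * x ^ 2) / kM x * (1 / (x ^ 3 * kM x))
        - (1 / (x ^ 4 * kM x) - kM x / x ^ 2 - 2 / x ^ 3)) x := by
    intro x hx
    have hx1 : 1 < x := by linarith
    have hx0 : x ≠ 0 := by linarith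
    obtain ⟨hk0, hk1⟩ := k_good hx1 ⟨le_rfl, kM_lt_one hx1⟩
    have d1 : HasDerivAt kM (1 / (x ^ 3 * kM x)) x := by
      have := (((hasDerivAt_const x (1 : ℝ)).div (hasDerivAt_pow 2 x)
        (pow_ne_zero 2 hx0)).const_sub 1).sqrt (by
          have := kM_sq hx1
          simp only [Pi.div_apply]
          rw [← this]; positivity)
      refine this.congr_deriv ?_
      have h0 := hk0.ne'
      unfold kM at h0 ⊢
      simp only [Pi.div_apply]
      field_simp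
      ring
    have := ((hasDerivAt_eta hk1 hk0.ne').comp x d1).sub
      ((d1.add ((hasDerivAt_const x (1 : ℝ)).div (hasDerivAt_id x) hx0)).div (hasDerivAt_id x) hx0)
    refine this.congr_deriv ?_
    have h0 := hk0.ne'
    rw [kM_sq hx1]
    simp only [Pi.div_apply, Pi.add_apply, id, sub_sub_cancel]
    field_simp
    ring
  refine threshold (by linarith) (by linarith) hd (fun x hx h0 => ?_) ?_ ?_ <;> clear hd
  · have hx1 : 1 < x := by linarith
    have hk0 := kM_pos hx1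
    have h1 := kM_sq hx1
    have h2 : eta (kM x) = (kM x + 1 / x) / x := by rw [g0] at h0; linarith
    have e : (2 * eta (kM x) - 1 - eta (kM x) ^ 2 * x ^ 2) / kM x * (1 / (x ^ 3 * kM x))
        - (1 / (x ^ 4 * kM x) - kM x / x ^ 2 - 2 / x ^ 3) = (x ^ 2 - 2) / (x ^ 4 * kM x) := by
      rw [h2]
      have h3 : x ^ 2 * kM x ^ 2 = x ^ 2 - 1 := by rw [h1]; field_simp
      field_simp
      grind
    rw [e]
    exact div_pos (by nlinarith) (by positivity)
  · have hx1 : 1 < exp 1 := by linarith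
    obtain ⟨hk0, hk1⟩ := k_good hx1 ⟨le_rfl, kM_lt_one hx1⟩
    have h1 := kM_sq hx1
    have h2 : 1 / exp 1 ≤ 46 / 125 := by rw [div_le_iff₀ (by linarith)]; linarith
    have h3 : 367 / 1000 ≤ 1 / exp 1 := by rw [le_div_iff₀ (by linarith)]; linarith
    have h4 : 1 / exp 1 ^ 2 = (1 / exp 1) ^ 2 := by ring
    have h5 := eta_le hk0 hk1 (by rw [h1, h4]; nlinarith)
    have e : g0 (exp 1) = eta (kM (exp 1)) - (1 - kM (exp 1) ^ 2) - kM (exp 1) * (1 / exp 1) := by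
      rw [g0, h1]; ring
    have h6 : kM (exp 1) < 19 / 20 := by nlinarith
    rw [e]
    nlinarith
  · have h1 := kM_sq (M := 13 / 4) (by norm_num)
    have h2 := eta_ge_num (k := kM (13 / 4)) (by rw [h1]; norm_num)
    have h3 : kM (13 / 4) < 952 / 1000 := by
      apply lt_of_pow_lt_pow_left₀ 2 (by norm_num); rw [h1]; norm_num
    rw [g0]; linarith

theorem exists_M1 : ∃ r ∈ Ioo (13 / 4 : ℝ) 5, GM r = 0 ∧
    (∀ x, 125 / 46 ≤ x → x < r → GM x < 0) ∧ ∀ x, r < x → 0 < GM x := by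
  have hd : ∀ x : ℝ, 125 / 46 ≤ x → HasDerivAt GM
      (2 * √(x * (x - 1)) + ((2 * x - 3) * (2 * x - 1) - (4 * x - 5)) / (2 * √(x * (x - 1)))
        - 4 * log (√x + √(x - 1))) x := by
    intro x hx
    have h1 : 0 < x := by linarith
    have h2 : 0 < x - 1 := by linarith
    have h3 := sqrt_pos.2 h1
    have h4 := sqrt_pos.2 h2
    have := ((((hasDerivAt_id x).const_mul 2).sub_const 3).mul
      (((hasDerivAt_id x).mul ((hasDerivAt_id x).sub_const 1)).sqrt (mul_pos h1 h2).ne')).sub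
      ((((hasDerivAt_id x).const_mul 4).sub_const 5).mul
        ((((hasDerivAt_id x).sqrt h1.ne').add
          (((hasDerivAt_id x).sub_const 1).sqrt h2.ne')).log (add_pos h3 h4).ne'))
    refine this.congr_deriv ?_
    simp only [Pi.mul_apply, Pi.add_apply, id]
    rw [sqrt_mul h1.le]
    field_simp
    ring
  refine threshold (by norm_num) (by norm_num) hd (fun x hx h0 => ?_) ?_ ?_ <;> clear hd
  · have h1 : 0 < x * (x - 1) := mul_pos (by linarith) (by linarith)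
    have h2 := sqrt_pos.2 h1
    have h3 := sq_sqrt h1.le
    have h4 : 0 < 4 * x - 5 := by linarith
    rw [GM] at h0
    have h5 : log (√x + √(x - 1)) = (2 * x - 3) * √(x * (x - 1)) / (4 * x - 5) := by
      rw [eq_div_iff h4.ne']; linarith
    rw [h5]
    generalize √(x * (x - 1)) = R at *
    have e : 2 * R + ((2 * x - 3) * (2 * x - 1) - (4 * x - 5)) / (2 * R)
        - 4 * ((2 * x - 3) * R / (4 * x - 5))
        = 4 * (x - 1) * (2 * (x - 3 / 2) ^ 2 + 1 / 2) / (R * (4 * x - 5)) := by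
      clear h0 h5
      generalize hw : 4 * x - 5 = w at *
      field_simp
      grind
    rw [e]
    have : 0 < x - 1 := by linarith
    positivity
  · have h1 : √(13 / 4 * (13 / 4 - 1) : ℝ) ≤ 27042 / 10000 :=
      sqrt_le_iff.2 ⟨by norm_num, by norm_num⟩
    have h2 : (18027 / 10000 : ℝ) ≤ √(13 / 4) := le_sqrt_of_sq_le (by norm_num)
    have h3 : (3 / 2 : ℝ) ≤ √(13 / 4 - 1) := le_sqrt_of_sq_le (by norm_num)
    have h4 : log (2 * (1 + 65135 / 100000)) ≤ log (√(13 / 4) + √(13 / 4 - 1)) :=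
      log_le_log (by norm_num) (by linarith)
    rw [log_mul (by norm_num) (by norm_num)] at h4
    have h5 := le_log_one_add_of_nonneg (x := 65135 / 100000) (by norm_num)
    have h6 := log_two_gt_d9
    rw [GM]
    norm_num at h5
    norm_num at h1 h4 ⊢
    linarith
  · have h1 : (44 / 10 : ℝ) ≤ √(5 * (5 - 1)) := le_sqrt_of_sq_le (by norm_num)
    have h2 : √(5 : ℝ) ≤ 3 := sqrt_le_iff.2 ⟨by norm_num, by norm_num⟩
    have h3 : √(5 - 1 : ℝ) ≤ 2 := sqrt_le_iff.2 ⟨by norm_num, by norm_num⟩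
    have h4 : log (√5 + √(5 - 1)) ≤ 2 := by
      rw [log_le_iff_le_exp (by positivity), show (2 : ℝ) = 1 + 1 by norm_num, exp_add]
      nlinarith [exp_one_gt_d9]
    rw [GM]
    generalize log (√5 + √(5 - 1)) = A at *
    generalize √(5 * (5 - 1) : ℝ) = R at *
    norm_num
    linarith

theorem DD_crit (hk0 : 0 < k) (hk : k ^ 2 < 1) (hφ : φ ∈ Ioo 0 π) : DD k φ = 0 ↔ crit k φ = 0 := by
  have hN := (NN_pos hk0 hk hφ).ne'
  have hs := (sin_pos_of_mem_Ioo hφ).ne'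
  have e : DD k φ * NN k φ = 2 * sin φ * crit k φ := by
    have h1 := Dl_sq hk φ
    have h2 := sin_sq_add_cos_sq φ
    unfold DD lam
    field_simp
    unfold crit NN mm hh xx
    grind
  constructor
  · intro h
    rw [h, zero_mul] at e
    exact (mul_eq_zero.1 e.symm).resolve_left (mul_ne_zero two_ne_zero hs)
  · intro h
    rw [h, mul_zero] at e
    exact (mul_eq_zero.1 e).resolve_right hN

theorem main : ∃ M₀ M₁ : ℝ, exp 1 < M₀ ∧ M₀ < M₁ ∧ M₁ < 5 ∧
    (∀ M, exp 1 ≤ M → (M = M₀ ↔ eta √(1 - 1 / M ^ 2) = (√(1 - 1 / M ^ 2) + 1 / M) / M)) ∧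
    (∀ M, exp 1 ≤ M →
      (M = M₁ ↔ (2 * M - 3) * √(M * (M - 1)) = (4 * M - 5) * log (√M + √(M - 1)))) ∧
    (∀ M, exp 1 ≤ M → M ≤ M₀ → IsLUB (coeffSet M) (1 - 1 / M ^ 2)) ∧
    (∀ M, M₀ < M → M < M₁ → ∃ k φ : ℝ,
      (∀ k' φ' : ℝ, (k' ∈ Ioo 0 1 ∧ φ' ∈ Ioo 0 (π / 2) ∧ logBound k' φ' = log M ∧ crit k' φ' = 0)
        ↔ (k' = k ∧ φ' = φ)) ∧ IsLUB (coeffSet M) (coeffVal k φ)) ∧
    (∀ M, M₁ ≤ M → IsLUB (coeffSet M) (3 - 8 / M + 5 / M ^ 2)) := by
  obtain ⟨M₀, h0, a1, a2, a3⟩ := exists_M0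
  obtain ⟨M₁, h1, b1, b2, b3⟩ := exists_M1
  have he : 125 / 46 < exp 1 := by linarith [exp_one_gt_d9]
  refine ⟨M₀, M₁, h0.1, h0.2.trans h1.1, h1.2, fun M hM => ?_, fun M hM => ?_,
    fun M hM h => ?_, fun M hM h => ?_, fun M hM => ?_⟩
  · rw [← sub_eq_zero (a := eta _)]
    refine ⟨fun h => h ▸ a1, fun h => ?_⟩
    rcases lt_trichotomy M M₀ with h' | h' | h'
    · exact absurd h (a2 M (by linarith) h').ne
    · exact h'
    · exact absurd h (a3 M h').ne'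
  · rw [← sub_eq_zero (a := _ * √_)]
    refine ⟨fun h => h ▸ b1, fun h => ?_⟩
    rcases lt_trichotomy M M₁ with h' | h' | h'
    · exact absurd h (b2 M (by linarith) h').ne
    · exact h'
    · exact absurd h (b3 M h').ne'
  · exact regime1_end (by linarith) fun N h2 h3 => a2 N h2 (by linarith)
  · have hM' : 125 / 46 ≤ M := by linarith [h0.1]
    have hM1 : 1 < M := by linarith
    obtain ⟨r, hr, c1, c2⟩ := regime2 hM' (a3 M hM) (b2 M hM' h)
    have hr' := Ioo_subset_Ico_self hr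
    refine ⟨r, ph M r, fun k φ => ⟨fun ⟨d1, d2, d3, d4⟩ => ?_, ?_⟩, c2⟩
    · have hk1 : k ^ 2 < 1 := by nlinarith [d1.1, d1.2]
      have hk : k ∈ Ioo (kM M) 1 := ⟨(logBound_half_lt_iff hM1 d1.1 hk1).1
        (d3 ▸ logBound_lt d1.1 hk1 d2.1.le d2.2 le_rfl), d1.2⟩
      have e := ph_unique hM1 (Ioo_subset_Ico_self hk) (Ioo_subset_Icc_self d2) d3
      have e2 : k = r := (c1 k hk).1 (by
        rw [e]; exact (DD_crit d1.1 hk1 ⟨d2.1, by linarith [d2.2, pi_pos]⟩).2 d4)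
      exact ⟨e2, by rw [← e, e2]⟩
    · rintro ⟨rfl, rfl⟩
      exact ⟨⟨(k_good hM1 hr').1, hr.2⟩, ph_mem hM1 hr, (ph_spec hM1 hr').2,
        (DD_crit (k_good hM1 hr').1 (k_good hM1 hr').2 (ph_mem_pi hM1 hr')).1 ((c1 k hr).2 rfl)⟩
  · refine regime3 (by linarith [h1.1]) (a3 M (by linarith [h0.2, h1.1])) ?_
    rcases eq_or_lt_of_le hM with h | h
    · rw [← h, b1]
    · exact (b3 M h).le

end Pool.Agent.Lib.MP_03314f_an
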